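import Pool.Agent.Lib.MP_7548d4_gt.F.TwoPoint

/-!
Tensorisation of Beckner's complex two-point inequality over the cube.
-/

set_option autoImplicit false
open MeasureTheory Metric Set Filter Topology

namespace Pool.Agent.Lib.MP_7548d4_gt.F

theorem cube_sum_succ {E : Type} [AddCommMonoid E] {m : ℕ} (f : (Fin (m + 1) → Bool) → E) :
    ∑ x, f x = ∑ x : Fin m → Bool, (f (Fin.cons true x) + f (Fin.cons false x)) := by
  rw [← (Fin.consEquiv (fun _ : Fin (m + 1) => Bool)).sum_comp, Fintype.sum_prod_type,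
    Fintype.sum_bool, ← Finset.sum_add_distrib]
  rfl

theorem cube_ker_cons {m : ℕ} (p : ℝ) (s t : Bool) (x y : Fin m → Bool) :
    ker p (Fin.cons s x : Fin (m + 1) → Bool) (Fin.cons t y : Fin (m + 1) → Bool) =
      (1 + om p * ((sg s * sg t : ℝ) : ℂ)) * ker p x y := by
  unfold ker
  rw [Fin.prod_univ_succ]
  simp

/-- Minkowski for averages of two functions, weighted -/
theorem cube_mink {κ : Type} [Fintype κ] (r w : ℝ) (hr : 1 ≤ r) (hw : 0 ≤ w) (f g : κ → ℝ)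
    (hf : ∀ i, 0 ≤ f i) (hg : ∀ i, 0 ≤ g i) (A B : ℝ) (hA : 0 ≤ A) (hB : 0 ≤ B)
    (h1 : w * ∑ i, f i ^ r ≤ A ^ r) (h2 : w * ∑ i, g i ^ r ≤ B ^ r) :
    w * ∑ i, ((f i + g i) / 2) ^ r ≤ ((A + B) / 2) ^ r := by
  have r0 : 0 < r := by linarith
  have e0 : ∀ F : κ → ℝ, (∀ i, 0 ≤ F i) → ∑ i, (w ^ (1 / r) * F i) ^ r = w * ∑ i, F i ^ r := by
    intro F hF
    rw [Finset.mul_sum]
    apply Finset.sum_congr rfl
    intro i _
    rw [Real.mul_rpow (by positivity) (hF i), ← Real.rpow_mul hw]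
    congr 1
    rw [one_div_mul_cancel r0.ne', Real.rpow_one]
  have key := Real.Lp_add_le_of_nonneg (s := Finset.univ) (f := fun i => w ^ (1 / r) * f i)
    (g := fun i => w ^ (1 / r) * g i) hr
    (fun i _ => mul_nonneg (by positivity) (hf i)) (fun i _ => mul_nonneg (by positivity) (hg i))
  simp only [← mul_add] at key
  rw [e0 f hf, e0 g hg, e0 (fun i => f i + g i) (fun i => add_nonneg (hf i) (hg i))] at key
  have k1 : (w * ∑ i, f i ^ r) ^ (1 / r) ≤ A := by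
    calc _ ≤ (A ^ r) ^ (1 / r) := Real.rpow_le_rpow
          (mul_nonneg hw (Finset.sum_nonneg fun i _ => Real.rpow_nonneg (hf i) _)) h1 (by positivity)
      _ = A := by rw [← Real.rpow_mul hA, mul_one_div_cancel r0.ne', Real.rpow_one]
  have k2 : (w * ∑ i, g i ^ r) ^ (1 / r) ≤ B := by
    calc _ ≤ (B ^ r) ^ (1 / r) := Real.rpow_le_rpow
          (mul_nonneg hw (Finset.sum_nonneg fun i _ => Real.rpow_nonneg (hg i) _)) h2 (by positivity)
      _ = B := by rw [← Real.rpow_mul hB, mul_one_div_cancel r0.ne', Real.rpow_one]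
  have S0 : 0 ≤ w * ∑ i, (f i + g i) ^ r := mul_nonneg hw
    (Finset.sum_nonneg fun i _ => Real.rpow_nonneg (add_nonneg (hf i) (hg i)) _)
  have k3 : w * ∑ i, (f i + g i) ^ r ≤ (A + B) ^ r := by
    calc w * ∑ i, (f i + g i) ^ r = ((w * ∑ i, (f i + g i) ^ r) ^ (1 / r)) ^ r := by
          rw [← Real.rpow_mul S0, one_div_mul_cancel r0.ne', Real.rpow_one]
      _ ≤ (A + B) ^ r := Real.rpow_le_rpow (Real.rpow_nonneg S0 _) (by linarith) r0.le
  have e1 : ∑ i, ((f i + g i) / 2) ^ r = (∑ i, (f i + g i) ^ r) / 2 ^ r := by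
    rw [Finset.sum_div]
    exact Finset.sum_congr rfl fun i _ =>
      Real.div_rpow (add_nonneg (hf i) (hg i)) (by norm_num) r
  rw [e1, Real.div_rpow (add_nonneg hA hB) (by norm_num), mul_div_assoc']
  exact div_le_div_of_nonneg_right k3 (by positivity)

/-- the operator with the kernel `ker` is a contraction -/
theorem cube_contr (p : ℝ) (hp : 1 < p) (hp2 : p ≤ 2) (m : ℕ) : ∀ F : (Fin m → Bool) → ℂ,
    ((2 : ℝ) ^ m)⁻¹ * ∑ y : Fin m → Bool,
      ‖((2 : ℂ) ^ m)⁻¹ * ∑ x : Fin m → Bool, ker p x y * F x‖ ^ (p / (p - 1)) ≤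
    (((2 : ℝ) ^ m)⁻¹ * ∑ x : Fin m → Bool, ‖F x‖ ^ p) ^ (1 / (p - 1)) := by
  have p1 : 0 < p - 1 := by linarith
  have r1 : 1 ≤ 1 / (p - 1) := by rw [le_div_iff₀ p1]; linarith
  induction m with
  | zero =>
    intro F
    simp only [pow_zero, inv_one, one_mul, Fintype.sum_unique]
    have : ∀ x y : Fin 0 → Bool, ker p x y = 1 := by
      intro x y
      unfold ker; simp
    rw [this, one_mul, ← Real.rpow_mul (norm_nonneg _)]
    apply le_of_eq
    congr 1
    field_simp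
  | succ m ih =>
    intro F
    set F1 : (Fin m → Bool) → ℂ := fun x => F (Fin.cons true x) with hF1
    set F2 : (Fin m → Bool) → ℂ := fun x => F (Fin.cons false x) with hF2
    set A : (Fin m → Bool) → ℂ := fun y => ((2 : ℂ) ^ m)⁻¹ * ∑ x : Fin m → Bool, ker p x y * F1 x
      with hA
    set B : (Fin m → Bool) → ℂ := fun y => ((2 : ℂ) ^ m)⁻¹ * ∑ x : Fin m → Bool, ker p x y * F2 x
      with hB
    have hT : ∀ (t : Bool) (y : Fin m → Bool),
        ((2 : ℂ) ^ (m + 1))⁻¹ * ∑ x : Fin (m + 1) → Bool,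
          ker p x (Fin.cons t y : Fin (m + 1) → Bool) * F x =
        (A y + B y) / 2 + om p * ((sg t : ℝ) : ℂ) * ((A y - B y) / 2) := by
      intro t y
      rw [cube_sum_succ]
      have e1 : ∀ x : Fin m → Bool,
          ker p (Fin.cons true x : Fin (m + 1) → Bool) (Fin.cons t y) * F (Fin.cons true x) +
          ker p (Fin.cons false x : Fin (m + 1) → Bool) (Fin.cons t y) * F (Fin.cons false x) =
          (1 + om p * ((sg t : ℝ) : ℂ)) * (ker p x y * F1 x) +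
            (1 - om p * ((sg t : ℝ) : ℂ)) * (ker p x y * F2 x) := by
        intro x
        rw [cube_ker_cons, cube_ker_cons]
        simp only [sg, hF1, hF2]
        push_cast
        simp
        ring
      rw [Finset.sum_congr rfl (fun x _ => e1 x), Finset.sum_add_distrib, ← Finset.mul_sum,
        ← Finset.mul_sum]
      simp only [hA, hB]
      rw [pow_succ]
      field_simp
      ring
    have hL : ((2 : ℝ) ^ (m + 1))⁻¹ * ∑ y : Fin (m + 1) → Bool,
        ‖((2 : ℂ) ^ (m + 1))⁻¹ * ∑ x : Fin (m + 1) → Bool, ker p x y * F x‖ ^ (p / (p - 1)) ≤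
        ((2 : ℝ) ^ m)⁻¹ * ∑ y : Fin m → Bool, ((‖A y‖ ^ p + ‖B y‖ ^ p) / 2) ^ (1 / (p - 1)) := by
      rw [cube_sum_succ]
      have e2 : ∀ y : Fin m → Bool,
          ‖((2 : ℂ) ^ (m + 1))⁻¹ * ∑ x : Fin (m + 1) → Bool,
            ker p x (Fin.cons true y : Fin (m + 1) → Bool) * F x‖ ^ (p / (p - 1)) +
          ‖((2 : ℂ) ^ (m + 1))⁻¹ * ∑ x : Fin (m + 1) → Bool,
            ker p x (Fin.cons false y : Fin (m + 1) → Bool) * F x‖ ^ (p / (p - 1)) ≤
          2 * ((‖A y‖ ^ p + ‖B y‖ ^ p) / 2) ^ (1 / (p - 1)) := by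
        intro y
        rw [hT, hT]
        have := two_point p hp hp2 ((A y + B y) / 2) ((A y - B y) / 2)
        have e3 : (A y + B y) / 2 + (A y - B y) / 2 = A y := by ring
        have e4 : (A y + B y) / 2 - (A y - B y) / 2 = B y := by ring
        rw [e3, e4] at this
        have e5 : (A y + B y) / 2 + om p * ((sg true : ℝ) : ℂ) * ((A y - B y) / 2) =
            (A y + B y) / 2 + om p * ((A y - B y) / 2) := by simp [sg]
        have e6 : (A y + B y) / 2 + om p * ((sg false : ℝ) : ℂ) * ((A y - B y) / 2) =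
            (A y + B y) / 2 - om p * ((A y - B y) / 2) := by simp [sg]; ring
        rw [e5, e6]
        linarith
      calc _ ≤ ((2 : ℝ) ^ (m + 1))⁻¹ * ∑ y : Fin m → Bool,
            2 * ((‖A y‖ ^ p + ‖B y‖ ^ p) / 2) ^ (1 / (p - 1)) :=
            mul_le_mul_of_nonneg_left (Finset.sum_le_sum fun y _ => e2 y) (by positivity)
        _ = _ := by
            rw [← Finset.mul_sum, pow_succ]
            field_simp
    refine hL.trans ?_
    have hq : ∀ z : ℂ, (‖z‖ ^ p) ^ (1 / (p - 1)) = ‖z‖ ^ (p / (p - 1)) := by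
      intro z
      rw [← Real.rpow_mul (norm_nonneg _), mul_one_div]
    have hmink := cube_mink (1 / (p - 1)) ((2 : ℝ) ^ m)⁻¹ r1 (by positivity)
      (fun y => ‖A y‖ ^ p) (fun y => ‖B y‖ ^ p)
      (fun y => Real.rpow_nonneg (norm_nonneg _) _) (fun y => Real.rpow_nonneg (norm_nonneg _) _)
      (((2 : ℝ) ^ m)⁻¹ * ∑ x : Fin m → Bool, ‖F1 x‖ ^ p)
      (((2 : ℝ) ^ m)⁻¹ * ∑ x : Fin m → Bool, ‖F2 x‖ ^ p)
      (mul_nonneg (by positivity) (Finset.sum_nonneg fun x _ => Real.rpow_nonneg (norm_nonneg _) _))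
      (mul_nonneg (by positivity) (Finset.sum_nonneg fun x _ => Real.rpow_nonneg (norm_nonneg _) _))
      (by simp only [hq]; exact ih F1) (by simp only [hq]; exact ih F2)
    refine hmink.trans (le_of_eq ?_)
    congr 1
    rw [cube_sum_succ, Finset.sum_add_distrib, pow_succ]
    simp only [hF1, hF2]
    field_simp

/-- the bilinear form over `Fin m` -/
theorem cube_bilin_fin (p : ℝ) (hp : 1 < p) (hp2 : p ≤ 2) (m : ℕ) (F G : (Fin m → Bool) → ℂ) :
    ‖((4 : ℂ) ^ m)⁻¹ * ∑ x : Fin m → Bool, ∑ y : Fin m → Bool, ker p x y * F x * G y‖ ≤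
      (((2 : ℝ) ^ m)⁻¹ * ∑ x : Fin m → Bool, ‖F x‖ ^ p) ^ (1 / p) *
      (((2 : ℝ) ^ m)⁻¹ * ∑ x : Fin m → Bool, ‖G x‖ ^ p) ^ (1 / p) := by
  have p1 : 0 < p - 1 := by linarith
  have p0 : 0 < p := by linarith
  set q : ℝ := p / (p - 1) with hq
  have q0 : 0 < q := by positivity
  have hpq : q.HolderConjugate p := by
    rw [hq]
    exact (Real.HolderConjugate.conjExponent hp).symm
  set w : ℝ := ((2 : ℝ) ^ m)⁻¹ with hw
  have w0 : 0 < w := by positivity
  set T : (Fin m → Bool) → ℂ := fun y => ((2 : ℂ) ^ m)⁻¹ * ∑ x : Fin m → Bool, ker p x y * F x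
    with hT
  have e1 : ((4 : ℂ) ^ m)⁻¹ * ∑ x : Fin m → Bool, ∑ y : Fin m → Bool, ker p x y * F x * G y =
      ∑ y : Fin m → Bool, ((w : ℝ) : ℂ) * (T y * G y) := by
    rw [Finset.sum_comm, Finset.mul_sum]
    apply Finset.sum_congr rfl
    intro y _
    simp only [hT, hw]
    rw [← Finset.sum_mul]
    have : (4 : ℂ) ^ m = 2 ^ m * 2 ^ m := by rw [← mul_pow]; norm_num
    rw [this]
    push_cast
    field_simp
  rw [e1]
  have e2 : ‖∑ y : Fin m → Bool, ((w : ℝ) : ℂ) * (T y * G y)‖ ≤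
      ∑ y : Fin m → Bool, (w ^ (1 / q) * ‖T y‖) * (w ^ (1 / p) * ‖G y‖) := by
    refine (norm_sum_le _ _).trans (Finset.sum_le_sum fun y _ => le_of_eq ?_)
    rw [norm_mul, norm_mul, Complex.norm_real, Real.norm_of_nonneg w0.le]
    have : w = w ^ (1 / q) * w ^ (1 / p) := by
      rw [← Real.rpow_add w0]
      have : 1 / q + 1 / p = 1 := by
        rw [hq]; field_simp; ring
      rw [this, Real.rpow_one]
    calc w * (‖T y‖ * ‖G y‖) = (w ^ (1 / q) * w ^ (1 / p)) * (‖T y‖ * ‖G y‖) := by rw [← this]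
      _ = _ := by ring
  refine e2.trans ?_
  have h3 := Real.inner_le_Lp_mul_Lq_of_nonneg (Finset.univ) (f := fun y : Fin m → Bool =>
    w ^ (1 / q) * ‖T y‖) (g := fun y => w ^ (1 / p) * ‖G y‖) hpq
    (fun y _ => mul_nonneg (Real.rpow_nonneg w0.le _) (norm_nonneg _))
    (fun y _ => mul_nonneg (Real.rpow_nonneg w0.le _) (norm_nonneg _))
  refine h3.trans ?_
  have e4 : ∀ (s : ℝ), 0 < s → ∀ H : (Fin m → Bool) → ℂ,
      ∑ y : Fin m → Bool, (w ^ (1 / s) * ‖H y‖) ^ s = w * ∑ y : Fin m → Bool, ‖H y‖ ^ s := by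
    intro s hs H
    rw [Finset.mul_sum]
    apply Finset.sum_congr rfl
    intro i _
    rw [Real.mul_rpow (Real.rpow_nonneg w0.le _) (norm_nonneg _), ← Real.rpow_mul w0.le,
      one_div_mul_cancel hs.ne', Real.rpow_one]
  rw [e4 q q0 T, e4 p p0 G]
  apply mul_le_mul_of_nonneg_right _ (Real.rpow_nonneg (mul_nonneg w0.le
    (Finset.sum_nonneg fun x _ => Real.rpow_nonneg (norm_nonneg _) _)) _)
  have h5 := cube_contr p hp hp2 m F
  have S0 : 0 ≤ w * ∑ x : Fin m → Bool, ‖F x‖ ^ p := mul_nonneg w0.le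
    (Finset.sum_nonneg fun x _ => Real.rpow_nonneg (norm_nonneg _) _)
  calc (w * ∑ y : Fin m → Bool, ‖T y‖ ^ q) ^ (1 / q) ≤
      ((w * ∑ x : Fin m → Bool, ‖F x‖ ^ p) ^ (1 / (p - 1))) ^ (1 / q) :=
        Real.rpow_le_rpow (mul_nonneg w0.le
          (Finset.sum_nonneg fun x _ => Real.rpow_nonneg (norm_nonneg _) _)) h5 (by positivity)
    _ = (w * ∑ x : Fin m → Bool, ‖F x‖ ^ p) ^ (1 / p) := by
        rw [← Real.rpow_mul S0]
        congr 1
        rw [hq]
        field_simp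

theorem cube_bilin {ι : Type} [Fintype ι] [DecidableEq ι] (p : ℝ) (hp : 1 < p) (hp2 : p ≤ 2)
    (F G : (ι → Bool) → ℂ) :
    ‖((4 : ℂ) ^ Fintype.card ι)⁻¹ * ∑ x : ι → Bool, ∑ y : ι → Bool, ker p x y * F x * G y‖ ≤
      (((2 : ℝ) ^ Fintype.card ι)⁻¹ * ∑ x : ι → Bool, ‖F x‖ ^ p) ^ (1 / p) *
      (((2 : ℝ) ^ Fintype.card ι)⁻¹ * ∑ x : ι → Bool, ‖G x‖ ^ p) ^ (1 / p) := by
  set e : ι ≃ Fin (Fintype.card ι) := Fintype.equivFin ι with he
  set E : (Fin (Fintype.card ι) → Bool) ≃ (ι → Bool) := e.symm.arrowCongr (Equiv.refl Bool)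
    with hE
  have hEa : ∀ x i, E x i = x (e i) := by
    intro x i
    simp [hE]
  have hker : ∀ x y, ker p (E x) (E y) = ker p x y := by
    intro x y
    unfold ker
    simp only [hEa]
    exact Equiv.prod_comp e (fun j => 1 + om p * ((sg (x j) * sg (y j) : ℝ) : ℂ))
  have h := cube_bilin_fin p hp hp2 (Fintype.card ι) (fun x => F (E x)) (fun x => G (E x))
  rw [← E.sum_comp, ← E.sum_comp (fun x => ‖F x‖ ^ p), ← E.sum_comp (fun x => ‖G x‖ ^ p)]
  have e1 : ∀ x, ∑ y : ι → Bool, ker p (E x) y * F (E x) * G y =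
      ∑ y, ker p x y * F (E x) * G (E y) := by
    intro x
    rw [← E.sum_comp]
    simp only [hker]
  simp only [e1]
  exact h

end Pool.Agent.Lib.MP_7548d4_gt.F
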