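import Pool.Agent.Lib.MP_7548d4_gt.F.Defs

set_option autoImplicit false
open MeasureTheory Metric Set Filter Topology

namespace Pool.Agent.Lib.MP_7548d4_gt.F

theorem sum_prod_two {ι : Type} [Fintype ι] [DecidableEq ι] (f : ι → Bool → Bool → ℂ) :
    ∑ x : ι → Bool, ∑ y : ι → Bool, ∏ j, f j (x j) (y j) = ∏ j, ∑ s : Bool, ∑ t : Bool, f j s t := by
  have h1 : ∀ x : ι → Bool, ∑ y : ι → Bool, ∏ j, f j (x j) (y j) = ∏ j, ∑ t : Bool, f j (x j) t := by
    intro x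
    rw [Finset.prod_univ_sum, Fintype.piFinset_univ]
  rw [Finset.sum_congr rfl (fun x _ => h1 x), Finset.prod_univ_sum, Fintype.piFinset_univ]

theorem ch_Ssum {n N : ℕ} (a : EE n) (x : Fin n × Fin N → Bool) :
    ch a (Ssum x) = ∏ j : Fin n × Fin N,
      Complex.exp (Complex.I * (((Real.sqrt N)⁻¹ * a j.1 : ℝ) : ℂ) * ((sg (x j) : ℝ) : ℂ)) := by
  unfold ch
  rw [← Complex.exp_sum]
  congr 1
  have h : (inner ℝ a (Ssum x) : ℝ) = ∑ j : Fin n × Fin N, (Real.sqrt N)⁻¹ * a j.1 * sg (x j) := by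
    rw [Fintype.sum_prod_type]
    simp only [PiLp.inner_apply, Ssum]
    apply Finset.sum_congr rfl
    intro l _
    simp only [RCLike.inner_apply, conj_trivial]
    rw [Finset.mul_sum, Finset.sum_mul]
    apply Finset.sum_congr rfl
    intro i _
    ring
  rw [h]
  push_cast
  rw [Finset.mul_sum]
  apply Finset.sum_congr rfl
  intro j _
  ring

theorem four_sum (w : ℂ) (u v : ℝ) :
    ∑ s : Bool, ∑ t : Bool, (1 + w * ((sg s * sg t : ℝ) : ℂ)) *
      Complex.exp (Complex.I * (u : ℂ) * ((sg s : ℝ) : ℂ)) *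
      Complex.exp (Complex.I * (v : ℂ) * ((sg t : ℝ) : ℂ)) =
    4 * (((Real.cos u * Real.cos v : ℝ) : ℂ) - w * ((Real.sin u * Real.sin v : ℝ) : ℂ)) := by
  have e1 : ∀ r : ℝ, Complex.exp (Complex.I * (r : ℂ)) = Complex.cos r + Complex.sin r * Complex.I := by
    intro r; rw [mul_comm, Complex.exp_mul_I]
  have e2 : ∀ r : ℝ, Complex.exp (-(Complex.I * (r : ℂ))) = Complex.cos r - Complex.sin r * Complex.I := by
    intro r
    have : -(Complex.I * (r : ℂ)) = (-(r : ℂ)) * Complex.I := by ring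
    rw [this, Complex.exp_mul_I, Complex.cos_neg, Complex.sin_neg]; ring
  simp only [Fintype.univ_bool, Finset.mem_singleton, Bool.true_eq_false, not_false_eq_true,
    Finset.sum_insert, Finset.sum_singleton, sg, if_true]
  simp only [Bool.false_eq_true, if_false]
  push_cast
  have h3 : ∀ r : ℝ, Complex.I * (r : ℂ) * (-1) = -(Complex.I * (r : ℂ)) := by intro r; ring
  simp only [mul_one, h3, e1, e2]
  linear_combination (4 * w * Complex.sin u * Complex.sin v) * Complex.I_sq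

theorem cube_exp {n N : ℕ} (p : ℝ) (a b : EE n) :
    ((4 : ℂ) ^ (n * N))⁻¹ * ∑ x : Fin n × Fin N → Bool, ∑ y : Fin n × Fin N → Bool,
      ker p x y * ch a (Ssum x) * ch b (Ssum y) =
    ∏ l : Fin n, (((Real.cos ((Real.sqrt N)⁻¹ * a l) * Real.cos ((Real.sqrt N)⁻¹ * b l) : ℝ) : ℂ) -
      om p * ((Real.sin ((Real.sqrt N)⁻¹ * a l) * Real.sin ((Real.sqrt N)⁻¹ * b l) : ℝ) : ℂ)) ^ N := by
  have h1 : ∀ x y : Fin n × Fin N → Bool, ker p x y * ch a (Ssum x) * ch b (Ssum y) =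
      ∏ j : Fin n × Fin N, ((1 + om p * ((sg (x j) * sg (y j) : ℝ) : ℂ)) *
      Complex.exp (Complex.I * (((Real.sqrt N)⁻¹ * a j.1 : ℝ) : ℂ) * ((sg (x j) : ℝ) : ℂ)) *
      Complex.exp (Complex.I * (((Real.sqrt N)⁻¹ * b j.1 : ℝ) : ℂ) * ((sg (y j) : ℝ) : ℂ))) := by
    intro x y
    rw [ch_Ssum, ch_Ssum, ker, Finset.prod_mul_distrib, Finset.prod_mul_distrib]
  have h2 : ∑ x : Fin n × Fin N → Bool, ∑ y : Fin n × Fin N → Bool,
      ker p x y * ch a (Ssum x) * ch b (Ssum y) =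
      ∏ j : Fin n × Fin N, (4 * (((Real.cos ((Real.sqrt N)⁻¹ * a j.1) *
        Real.cos ((Real.sqrt N)⁻¹ * b j.1) : ℝ) : ℂ) -
      om p * ((Real.sin ((Real.sqrt N)⁻¹ * a j.1) * Real.sin ((Real.sqrt N)⁻¹ * b j.1) : ℝ) : ℂ))) := by
    rw [Finset.sum_congr rfl (fun x _ => Finset.sum_congr rfl (fun y _ => h1 x y))]
    rw [sum_prod_two (fun (j : Fin n × Fin N) (s t : Bool) => ((1 + om p * ((sg s * sg t : ℝ) : ℂ)) *
      Complex.exp (Complex.I * (((Real.sqrt N)⁻¹ * a j.1 : ℝ) : ℂ) * ((sg s : ℝ) : ℂ)) *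
      Complex.exp (Complex.I * (((Real.sqrt N)⁻¹ * b j.1 : ℝ) : ℂ) * ((sg t : ℝ) : ℂ))))]
    apply Finset.prod_congr rfl
    intro j _
    exact four_sum (om p) ((Real.sqrt N)⁻¹ * a j.1) ((Real.sqrt N)⁻¹ * b j.1)
  rw [h2, Finset.prod_mul_distrib, Finset.prod_const, Finset.card_univ, Fintype.card_prod,
    Fintype.card_fin, Fintype.card_fin, ← mul_assoc, inv_mul_cancel₀ (pow_ne_zero _ (by norm_num)),
    one_mul, Fintype.prod_prod_type]
  apply Finset.prod_congr rfl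
  intro l _
  simp only [Finset.prod_const, Finset.card_univ, Fintype.card_fin]

theorem tend_sin (a : ℝ) : Tendsto (fun N : ℕ => Real.sqrt N * Real.sin ((Real.sqrt N)⁻¹ * a))
    atTop (𝓝 a) := by
  have hd : HasDerivAt (fun h : ℝ => Real.sin (h * a)) a 0 := by
    have h1 : HasDerivAt (fun h : ℝ => h * a) a 0 := by
      simpa using (hasDerivAt_id (0 : ℝ)).mul_const a
    have h2 := h1.sin
    simpa using h2
  have hs := hd.tendsto_slope_zero
  have hN : Tendsto (fun N : ℕ => (Real.sqrt N)⁻¹) atTop (𝓝[≠] 0) := by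
    rw [tendsto_nhdsWithin_iff]
    constructor
    · exact tendsto_inv_atTop_zero.comp (Real.tendsto_sqrt_atTop.comp tendsto_natCast_atTop_atTop)
    · filter_upwards [eventually_gt_atTop 0] with N hN
      have : 0 < Real.sqrt N := Real.sqrt_pos.2 (by exact_mod_cast hN)
      simp only [mem_compl_iff, mem_singleton_iff]
      positivity
  have := hs.comp hN
  refine this.congr ?_
  intro N
  simp

theorem tend_inv (a : ℝ) : Tendsto (fun N : ℕ => (Real.sqrt N)⁻¹ * a) atTop (𝓝 0) := by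
  have : Tendsto (fun N : ℕ => (Real.sqrt N)⁻¹) atTop (𝓝 0) :=
    tendsto_inv_atTop_zero.comp (Real.tendsto_sqrt_atTop.comp tendsto_natCast_atTop_atTop)
  simpa using this.mul_const a

theorem tend_cos (a : ℝ) : Tendsto (fun N : ℕ => (N : ℝ) * (Real.cos ((Real.sqrt N)⁻¹ * a) - 1))
    atTop (𝓝 (-(a ^ 2 / 2))) := by
  have h := tend_sin (a / 2)
  have h2 := (h.mul h).const_mul (-2)
  have e : -2 * (a / 2 * (a / 2)) = -(a ^ 2 / 2) := by ring
  rw [e] at h2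
  refine h2.congr ?_
  intro N
  have hc : Real.cos ((Real.sqrt N)⁻¹ * a) = 1 - 2 * Real.sin ((Real.sqrt N)⁻¹ * (a / 2)) ^ 2 := by
    have : (Real.sqrt N)⁻¹ * a = 2 * ((Real.sqrt N)⁻¹ * (a / 2)) := by ring
    rw [this, Real.cos_two_mul, Real.cos_sq']
    ring
  rw [hc]
  have hs : Real.sqrt N * Real.sqrt N = N := Real.mul_self_sqrt (Nat.cast_nonneg N)
  linear_combination (-2 * Real.sin ((Real.sqrt N)⁻¹ * (a / 2)) ^ 2) * hs

theorem tend_factor (w : ℂ) (a b : ℝ) :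
    Tendsto (fun N : ℕ => (((Real.cos ((Real.sqrt N)⁻¹ * a) * Real.cos ((Real.sqrt N)⁻¹ * b) : ℝ) : ℂ) -
      w * ((Real.sin ((Real.sqrt N)⁻¹ * a) * Real.sin ((Real.sqrt N)⁻¹ * b) : ℝ) : ℂ)) ^ N) atTop
      (𝓝 (Complex.exp (((-(a ^ 2 / 2) : ℝ) : ℂ) + ((-(b ^ 2 / 2) : ℝ) : ℂ) - w * ((a * b : ℝ) : ℂ)))) := by
  have h1 : Tendsto (fun N : ℕ => (N : ℝ) * (Real.cos ((Real.sqrt N)⁻¹ * a) *
      Real.cos ((Real.sqrt N)⁻¹ * b) - 1)) atTop (𝓝 (-(a ^ 2 / 2) + -(b ^ 2 / 2))) := by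
    have hb : Tendsto (fun N : ℕ => Real.cos ((Real.sqrt N)⁻¹ * b)) atTop (𝓝 1) := by
      have := (Real.continuous_cos.tendsto 0).comp (tend_inv b)
      rw [Real.cos_zero] at this
      exact this
    have h := ((tend_cos a).mul hb).add (tend_cos b)
    rw [mul_one] at h
    refine h.congr ?_
    intro N
    ring
  have h2 : Tendsto (fun N : ℕ => (N : ℝ) * (Real.sin ((Real.sqrt N)⁻¹ * a) *
      Real.sin ((Real.sqrt N)⁻¹ * b))) atTop (𝓝 (a * b)) := by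
    refine ((tend_sin a).mul (tend_sin b)).congr ?_
    intro N
    have hs : Real.sqrt N * Real.sqrt N = N := Real.mul_self_sqrt (Nat.cast_nonneg N)
    linear_combination (Real.sin ((Real.sqrt N)⁻¹ * a) * Real.sin ((Real.sqrt N)⁻¹ * b)) * hs
  have h1' := (Complex.continuous_ofReal.tendsto _).comp h1
  have h2' := ((Complex.continuous_ofReal.tendsto _).comp h2).const_mul w
  have h3 := h1'.sub h2'
  have h4 := Complex.tendsto_one_add_pow_exp_of_tendsto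
    (g := fun N : ℕ => ((Real.cos ((Real.sqrt N)⁻¹ * a) * Real.cos ((Real.sqrt N)⁻¹ * b) - 1 : ℝ) : ℂ) -
      w * ((Real.sin ((Real.sqrt N)⁻¹ * a) * Real.sin ((Real.sqrt N)⁻¹ * b) : ℝ) : ℂ))
    (t := ((-(a ^ 2 / 2) : ℝ) : ℂ) + ((-(b ^ 2 / 2) : ℝ) : ℂ) - w * ((a * b : ℝ) : ℂ)) (by
      rw [← Complex.ofReal_add]
      refine h3.congr ?_
      intro N
      simp only [Function.comp]
      push_cast
      ring)
  refine h4.congr ?_
  intro N
  congr 1
  push_cast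
  ring

theorem cube_exp_tendsto {n : ℕ} (p : ℝ) (a b : EE n) :
    Tendsto (fun N : ℕ => ((4 : ℂ) ^ (n * N))⁻¹ *
      ∑ x : Fin n × Fin N → Bool, ∑ y : Fin n × Fin N → Bool,
        ker p x y * ch a (Ssum x) * ch b (Ssum y)) atTop
      (𝓝 (Complex.exp (-((‖a‖ ^ 2 / 2 : ℝ) : ℂ) - ((‖b‖ ^ 2 / 2 : ℝ) : ℂ) -
        om p * ((inner ℝ a b : ℝ) : ℂ)))) := by
  have h := tendsto_finsetProd (Finset.univ : Finset (Fin n))
    (fun l _ => tend_factor (om p) (a l) (b l))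
  rw [← Complex.exp_sum] at h
  have e : ∑ l : Fin n, (((-((a l) ^ 2 / 2) : ℝ) : ℂ) + ((-((b l) ^ 2 / 2) : ℝ) : ℂ) -
      om p * ((a l * b l : ℝ) : ℂ)) = -((‖a‖ ^ 2 / 2 : ℝ) : ℂ) - ((‖b‖ ^ 2 / 2 : ℝ) : ℂ) -
        om p * ((inner ℝ a b : ℝ) : ℂ) := by
    have ha : ‖a‖ ^ 2 = ∑ l, (a l) ^ 2 := by
      rw [EuclideanSpace.norm_sq_eq]; simp
    have hb : ‖b‖ ^ 2 = ∑ l, (b l) ^ 2 := by
      rw [EuclideanSpace.norm_sq_eq]; simp
    have hab : (inner ℝ a b : ℝ) = ∑ l, a l * b l := by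
      rw [PiLp.inner_apply]
      apply Finset.sum_congr rfl
      intro l _
      simp only [RCLike.inner_apply, conj_trivial]
      ring
    rw [ha, hb, hab, Finset.sum_sub_distrib, Finset.sum_add_distrib, ← Finset.mul_sum]
    push_cast
    simp only [Finset.sum_neg_distrib, Finset.sum_div]
    ring
  rw [e] at h
  refine h.congr ?_
  intro N
  exact (cube_exp p a b).symm

end Pool.Agent.Lib.MP_7548d4_gt.F
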