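import Pool.Agent.Lib.MP_7548d4_gt.F.Defs
import Pool.Agent.Lib.MP_7548d4_gt.F.CubeExp

set_option autoImplicit false
open MeasureTheory Metric Set Filter Topology

namespace Pool.Agent.Lib.MP_7548d4_gt.F

/-- the density of the standard Gaussian -/
noncomputable def cubeCLT_den (n : ℕ) (x : EE n) : ℝ :=
  ((2 * Real.pi) ^ ((n : ℝ) / 2))⁻¹ * Real.exp (-(‖x‖ ^ 2 / 2))

theorem cubeCLT_den_nonneg (n : ℕ) (x : EE n) : 0 ≤ cubeCLT_den n x := by
  unfold cubeCLT_den; positivity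

theorem cubeCLT_den_cont (n : ℕ) : Continuous (cubeCLT_den n) := by
  unfold cubeCLT_den; fun_prop

/-- the standard Gaussian measure -/
noncomputable def cubeCLT_gam (n : ℕ) : Measure (EE n) :=
  (volume : Measure (EE n)).withDensity (fun x => ENNReal.ofReal (cubeCLT_den n x))

theorem cubeCLT_meas (n : ℕ) : Measurable (fun x : EE n => ENNReal.ofReal (cubeCLT_den n x)) :=
  (cubeCLT_den_cont n).measurable.ennreal_ofReal

theorem cubeCLT_int {F : Type} [NormedAddCommGroup F] [NormedSpace ℝ F] {n : ℕ} (f : EE n → F) :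
    ∫ x, f x ∂(cubeCLT_gam n) = ∫ x : EE n, cubeCLT_den n x • f x := by
  unfold cubeCLT_gam
  rw [integral_withDensity_eq_integral_toReal_smul (cubeCLT_meas n)
    (Filter.Eventually.of_forall (fun x => ENNReal.ofReal_lt_top))]
  apply integral_congr_ae
  filter_upwards with x
  rw [ENNReal.toReal_ofReal (cubeCLT_den_nonneg n x)]

theorem cubeCLT_base (n : ℕ) (t : EE n) :
    ∫ v : EE n, Complex.exp (-(1 / 2 : ℂ) * ‖v‖ ^ 2 + Complex.I * (inner ℝ t v : ℝ)) =
      (((2 * Real.pi) ^ ((n : ℝ) / 2) : ℝ) : ℂ) * Complex.exp (((-(‖t‖ ^ 2 / 2) : ℝ) : ℂ)) := by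
  have h := GaussianFourier.integral_cexp_neg_mul_sq_norm_add (V := EE n) (b := (1 / 2 : ℂ))
    (by norm_num) Complex.I t
  rw [h]
  congr 1
  · rw [finrank_euclideanSpace, Fintype.card_fin]
    rw [Complex.ofReal_cpow (by positivity)]
    push_cast
    congr 1
    ring
  · congr 1
    rw [Complex.I_sq]
    push_cast
    ring

theorem cubeCLT_base_re (n : ℕ) :
    ∫ v : EE n, Real.exp (-(‖v‖ ^ 2 / 2)) = (2 * Real.pi) ^ ((n : ℝ) / 2) := by
  have h := GaussianFourier.integral_rexp_neg_mul_sq_norm (V := EE n) (b := (1 / 2 : ℝ)) (by norm_num)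
  rw [finrank_euclideanSpace, Fintype.card_fin] at h
  have e : Real.pi / (1 / 2) = 2 * Real.pi := by ring
  rw [e] at h
  rw [← h]
  apply integral_congr_ae
  filter_upwards with v
  congr 1
  ring

theorem cubeCLT_den_integrable (n : ℕ) : Integrable (cubeCLT_den n) := by
  unfold cubeCLT_den
  apply Integrable.const_mul
  have h0 : (∫ v : EE n, Real.exp (-(‖v‖ ^ 2 / 2))) ≠ 0 := by
    rw [cubeCLT_base_re]
    positivity
  exact MeasureTheory.Integrable.of_integral_ne_zero h0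

instance cubeCLT_prob (n : ℕ) : IsProbabilityMeasure (cubeCLT_gam n) := by
  constructor
  unfold cubeCLT_gam
  rw [withDensity_apply _ MeasurableSet.univ, Measure.restrict_univ,
    ← ofReal_integral_eq_lintegral_ofReal (cubeCLT_den_integrable n)
      (Filter.Eventually.of_forall (cubeCLT_den_nonneg n))]
  unfold cubeCLT_den
  rw [integral_const_mul, cubeCLT_base_re, inv_mul_cancel₀ (by positivity)]
  simp

theorem cubeCLT_charFun_gam (n : ℕ) (t : EE n) :
    charFun (cubeCLT_gam n) t = Complex.exp (((-(‖t‖ ^ 2 / 2) : ℝ) : ℂ)) := by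
  rw [charFun_apply, cubeCLT_int]
  have h := cubeCLT_base n t
  have hc : (((2 * Real.pi) ^ ((n : ℝ) / 2) : ℝ) : ℂ) ≠ 0 := by
    rw [Complex.ofReal_ne_zero]; positivity
  have h2 : (((2 * Real.pi) ^ ((n : ℝ) / 2) : ℝ) : ℂ)⁻¹ *
      ∫ v : EE n, Complex.exp (-(1 / 2 : ℂ) * ‖v‖ ^ 2 + Complex.I * (inner ℝ t v : ℝ)) =
      Complex.exp (((-(‖t‖ ^ 2 / 2) : ℝ) : ℂ)) := by
    rw [h, ← mul_assoc, inv_mul_cancel₀ hc, one_mul]
  rw [← h2, ← integral_const_mul]
  apply integral_congr_ae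
  filter_upwards with v
  unfold cubeCLT_den
  rw [Complex.real_smul, Complex.exp_add]
  push_cast
  rw [real_inner_comm v t]
  have e1 : -((‖v‖ : ℂ) ^ 2 / 2) = -(1 / 2 : ℂ) * ‖v‖ ^ 2 := by ring
  rw [e1, mul_comm (Complex.I)]
  ring

/-- the law of the normalised sum -/
noncomputable def cubeCLT_mu (n N : ℕ) : Measure (EE n) :=
  ENNReal.ofReal (((2 : ℝ) ^ (n * N))⁻¹) • ∑ x : Fin n × Fin N → Bool, Measure.dirac (Ssum x)

instance cubeCLT_mu_prob (n N : ℕ) : IsProbabilityMeasure (cubeCLT_mu n N) := by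
  constructor
  unfold cubeCLT_mu
  rw [Measure.smul_apply, Measure.finsetSum_apply]
  simp only [Measure.dirac_apply_of_mem (mem_univ _), Finset.sum_const, Finset.card_univ,
    Fintype.card_fun, Fintype.card_bool, Fintype.card_prod, Fintype.card_fin]
  rw [ENNReal.ofReal_inv_of_pos (by positivity), ENNReal.ofReal_pow (by norm_num)]
  simp only [ENNReal.ofReal_ofNat, smul_eq_mul, nsmul_eq_mul, mul_one]
  push_cast
  exact ENNReal.inv_mul_cancel (by positivity) (by finiteness)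

theorem cubeCLT_mu_int {F : Type} [NormedAddCommGroup F] [NormedSpace ℝ F] [CompleteSpace F]
    (n N : ℕ) (f : EE n → F) :
    ∫ y, f y ∂(cubeCLT_mu n N) =
      ((2 : ℝ) ^ (n * N))⁻¹ • ∑ x : Fin n × Fin N → Bool, f (Ssum x) := by
  unfold cubeCLT_mu
  rw [integral_smul_measure, ENNReal.toReal_ofReal (by positivity),
    integral_finsetSum_measure (fun x _ => integrable_dirac (by finiteness))]
  congr 1
  apply Finset.sum_congr rfl
  intro x _
  rw [integral_dirac]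

theorem cubeCLT_ker_one {ι : Type} [Fintype ι] (x y : ι → Bool) : ker 1 x y = 1 := by
  unfold ker om
  simp

theorem cubeCLT_ch_tendsto {n : ℕ} (a : EE n) :
    Tendsto (fun N : ℕ => (((2 : ℝ) ^ (n * N))⁻¹ : ℝ) • ∑ x : Fin n × Fin N → Bool, ch a (Ssum x))
      atTop (𝓝 (Complex.exp (((-(‖a‖ ^ 2 / 2) : ℝ) : ℂ)))) := by
  have h := cube_exp_tendsto 1 a (0 : EE n)
  have e : -((‖a‖ ^ 2 / 2 : ℝ) : ℂ) - ((‖(0 : EE n)‖ ^ 2 / 2 : ℝ) : ℂ) -
        om 1 * ((inner ℝ a (0 : EE n) : ℝ) : ℂ) = ((-(‖a‖ ^ 2 / 2) : ℝ) : ℂ) := by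
    simp
  rw [e] at h
  refine h.congr ?_
  intro N
  have h0 : ∀ y : Fin n × Fin N → Bool, ch (0 : EE n) (Ssum y) = 1 := by
    intro y
    simp [ch]
  simp only [cubeCLT_ker_one, h0, one_mul, mul_one, Finset.sum_const, Finset.card_univ,
    Fintype.card_fun, Fintype.card_bool, Fintype.card_prod, Fintype.card_fin, nsmul_eq_mul]
  rw [← Finset.mul_sum, ← mul_assoc, Complex.real_smul]
  congr 1
  push_cast
  have h4 : (4 : ℂ) ^ (n * N) = 2 ^ (n * N) * 2 ^ (n * N) := by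
    rw [← mul_pow]; norm_num
  rw [h4, mul_inv, mul_assoc, inv_mul_cancel₀ (pow_ne_zero _ (by norm_num)), mul_one]

theorem cube_clt {n : ℕ} (φ : EE n → ℝ) (hφ : Continuous φ) (hb : ∃ C : ℝ, ∀ x, |φ x| ≤ C) :
    Tendsto (fun N : ℕ => ((2 : ℝ) ^ (n * N))⁻¹ * ∑ x : Fin n × Fin N → Bool, φ (Ssum x)) atTop
      (𝓝 (((2 * Real.pi) ^ ((n : ℝ) / 2))⁻¹ * ∫ x : EE n, φ x * Real.exp (-(‖x‖ ^ 2 / 2)))) := by
  obtain ⟨C, hC⟩ := hb
  let μ : ℕ → ProbabilityMeasure (EE n) := fun N => ⟨cubeCLT_mu n N, cubeCLT_mu_prob n N⟩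
  let γ : ProbabilityMeasure (EE n) := ⟨cubeCLT_gam n, cubeCLT_prob n⟩
  have hl : Tendsto μ atTop (𝓝 γ) := by
    apply ProbabilityMeasure.tendsto_of_tendsto_charFun
    intro t
    have e1 : charFun (γ : Measure (EE n)) t = Complex.exp (((-(‖t‖ ^ 2 / 2) : ℝ) : ℂ)) :=
      cubeCLT_charFun_gam n t
    rw [e1]
    refine (cubeCLT_ch_tendsto t).congr ?_
    intro N
    have e2 : charFun ((μ N : ProbabilityMeasure (EE n)) : Measure (EE n)) t =
      ∫ x, Complex.exp ((inner ℝ x t : ℝ) * Complex.I) ∂(cubeCLT_mu n N) := rfl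
    rw [e2, cubeCLT_mu_int]
    congr 1
    apply Finset.sum_congr rfl
    intro x _
    unfold ch
    rw [mul_comm, real_inner_comm]
  rw [ProbabilityMeasure.tendsto_iff_forall_integral_tendsto] at hl
  have h2 := hl (BoundedContinuousFunction.ofNormedAddCommGroup φ hφ C (by
    intro x; rw [Real.norm_eq_abs]; exact hC x))
  have e3 : ∫ x, (BoundedContinuousFunction.ofNormedAddCommGroup φ hφ C (by
    intro x; rw [Real.norm_eq_abs]; exact hC x)) x ∂(γ : Measure (EE n)) =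
      ((2 * Real.pi) ^ ((n : ℝ) / 2))⁻¹ * ∫ x : EE n, φ x * Real.exp (-(‖x‖ ^ 2 / 2)) := by
    have e4 : ∫ x, φ x ∂(cubeCLT_gam n) =
      ((2 * Real.pi) ^ ((n : ℝ) / 2))⁻¹ * ∫ x : EE n, φ x * Real.exp (-(‖x‖ ^ 2 / 2)) := by
      rw [cubeCLT_int, ← integral_const_mul]
      apply integral_congr_ae
      filter_upwards with x
      unfold cubeCLT_den
      rw [smul_eq_mul]
      ring
    exact e4
  rw [e3] at h2
  refine h2.congr ?_
  intro N
  have e5 : ∫ x, φ x ∂(cubeCLT_mu n N) =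
      ((2 : ℝ) ^ (n * N))⁻¹ * ∑ x : Fin n × Fin N → Bool, φ (Ssum x) := by
    rw [cubeCLT_mu_int, smul_eq_mul]
  exact e5

end Pool.Agent.Lib.MP_7548d4_gt.F
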