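import Pool.Agent.Lib.MP_7548d4_gt.F.Defs

set_option autoImplicit false
open MeasureTheory Metric Set Filter Topology

namespace Pool.Agent.Lib.MP_7548d4_gt.F

theorem gaussDouble_inner {n : ℕ} (p : ℝ) (hp : 1 < p) (w : EE n) :
    ∫ y : EE n, Complex.exp (Complex.I * ((inner ℝ w y : ℝ) : ℂ)) * ((gw p y : ℝ) : ℂ) =
      (((2 * Real.pi * p) ^ ((n : ℝ) / 2) : ℝ) : ℂ) *
        Complex.exp (((-(p / 2 * ‖w‖ ^ 2) : ℝ) : ℂ)) := by
  have hp0 : 0 < p := by linarith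
  have h := GaussianFourier.integral_cexp_neg_mul_sq_norm_add (V := EE n)
    (b := ((1 / (2 * p) : ℝ) : ℂ)) (by rw [Complex.ofReal_re]; positivity) Complex.I w
  have e1 : ∫ y : EE n, Complex.exp (Complex.I * ((inner ℝ w y : ℝ) : ℂ)) * ((gw p y : ℝ) : ℂ) =
      ∫ v : EE n, Complex.exp (-((1 / (2 * p) : ℝ) : ℂ) * ‖v‖ ^ 2 + Complex.I * (inner ℝ w v : ℝ)) := by
    apply integral_congr_ae
    filter_upwards with v
    unfold gw
    rw [Complex.ofReal_exp, ← Complex.exp_add]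
    congr 1
    push_cast
    have : (p : ℂ) ≠ 0 := by exact_mod_cast hp0.ne'
    field_simp
    ring
  rw [e1, h]
  congr 1
  · rw [finrank_euclideanSpace, Fintype.card_fin, Complex.ofReal_cpow (by positivity)]
    push_cast
    congr 1
    have : (p : ℂ) ≠ 0 := by exact_mod_cast hp0.ne'
    field_simp
  · congr 1
    rw [Complex.I_sq]
    push_cast
    have : (p : ℂ) ≠ 0 := by exact_mod_cast hp0.ne'
    field_simp
    norm_num

theorem gaussDouble_outer {n : ℕ} (s : ℝ) (a b : EE n) :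
    ∫ x : EE n, Complex.exp (-(1 / 2 : ℂ) * ((‖x‖ ^ 2 : ℝ) : ℂ) +
        (Complex.I * ((inner ℝ a x : ℝ) : ℂ) - (s : ℂ) * ((inner ℝ b x : ℝ) : ℂ))) =
      (((2 * Real.pi) ^ ((n : ℝ) / 2) : ℝ) : ℂ) *
        Complex.exp (-((‖a‖ ^ 2 / 2 : ℝ) : ℂ) + ((s ^ 2 * ‖b‖ ^ 2 / 2 : ℝ) : ℂ) -
          Complex.I * (s : ℂ) * ((inner ℝ a b : ℝ) : ℂ)) := by
  rw [← (PiLp.volume_preserving_toLp (Fin n)).integral_comp
    (MeasurableEquiv.toLp 2 _).measurableEmbedding]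
  have h := GaussianFourier.integral_cexp_neg_mul_sum_add (ι := Fin n) (b := (1 / 2 : ℂ))
    (by norm_num) (fun l => Complex.I * ((a l : ℝ) : ℂ) - (s : ℂ) * ((b l : ℝ) : ℂ))
  have hn : ∀ z : EE n, ‖z‖ ^ 2 = ∑ l, (z l) ^ 2 := by
    intro z
    rw [EuclideanSpace.norm_sq_eq]; simp
  have hi : ∀ z w : EE n, (inner ℝ z w : ℝ) = ∑ l, z l * w l := by
    intro z w
    rw [PiLp.inner_apply]
    apply Finset.sum_congr rfl
    intro l _
    simp only [RCLike.inner_apply, conj_trivial]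
    ring
  have e1 : ∫ x : Fin n → ℝ, Complex.exp (-(1 / 2 : ℂ) * ((‖(WithLp.toLp 2 x : EE n)‖ ^ 2 : ℝ) : ℂ) +
        (Complex.I * ((inner ℝ a (WithLp.toLp 2 x : EE n) : ℝ) : ℂ) -
          (s : ℂ) * ((inner ℝ b (WithLp.toLp 2 x : EE n) : ℝ) : ℂ))) =
      ∫ v : Fin n → ℝ, Complex.exp (-(1 / 2 : ℂ) * ∑ i, (v i : ℂ) ^ 2 +
        ∑ i, (Complex.I * ((a i : ℝ) : ℂ) - (s : ℂ) * ((b i : ℝ) : ℂ)) * v i) := by
    apply integral_congr_ae
    filter_upwards with v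
    rw [hn, hi, hi]
    congr 1
    push_cast
    simp only [sub_mul, Finset.sum_sub_distrib, Finset.mul_sum, mul_assoc]
  rw [e1, h]
  congr 1
  · rw [Fintype.card_fin, Complex.ofReal_cpow (by positivity)]
    push_cast
    congr 1
    ring
  · congr 1
    rw [hn, hn, hi]
    push_cast
    have e2 : ∀ l : Fin n, (Complex.I * ((a l : ℝ) : ℂ) - (s : ℂ) * ((b l : ℝ) : ℂ)) ^ 2 =
        -((a l : ℂ) ^ 2) + (s : ℂ) ^ 2 * ((b l : ℂ) ^ 2) -
          2 * (Complex.I * (s : ℂ)) * ((a l : ℂ) * (b l : ℂ)) := by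
      intro l
      linear_combination ((a l : ℂ) ^ 2) * Complex.I_sq
    rw [Finset.sum_congr rfl (fun l _ => e2 l), Finset.sum_sub_distrib, Finset.sum_add_distrib,
      ← Finset.mul_sum, ← Finset.mul_sum, Finset.sum_neg_distrib]
    ring

theorem gauss_double {n : ℕ} (p : ℝ) (hp : 1 < p) (a b : EE n) :
    BF p (fun x => ch a x * ((gw p x : ℝ) : ℂ)) (fun y => ch b y * ((gw p y : ℝ) : ℂ)) =
    (((2 * Real.pi) ^ n * p ^ ((n : ℝ) / 2) : ℝ) : ℂ) *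
      Complex.exp (-((‖a‖ ^ 2 / 2 : ℝ) : ℂ) - ((‖b‖ ^ 2 / 2 : ℝ) : ℂ) -
        om p * ((inner ℝ a b : ℝ) : ℂ)) := by
  have hp0 : 0 < p := by linarith
  have hpc : (p : ℂ) ≠ 0 := by exact_mod_cast hp0.ne'
  set s := Real.sqrt (p - 1) with hs
  have hs2 : s ^ 2 = p - 1 := Real.sq_sqrt (by linarith)
  unfold BF
  have h1 : ∀ x : EE n, ∫ y : EE n, ch a x * ((gw p x : ℝ) : ℂ) * (ch b y * ((gw p y : ℝ) : ℂ)) *
      Complex.exp (Complex.I * ((s / p * inner ℝ x y : ℝ) : ℂ)) =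
      (((2 * Real.pi * p) ^ ((n : ℝ) / 2) : ℝ) : ℂ) *
      (Complex.exp (((-(p / 2 * ‖b‖ ^ 2) : ℝ) : ℂ)) *
      Complex.exp (-(1 / 2 : ℂ) * ((‖x‖ ^ 2 : ℝ) : ℂ) +
        (Complex.I * ((inner ℝ a x : ℝ) : ℂ) - (s : ℂ) * ((inner ℝ b x : ℝ) : ℂ)))) := by
    intro x
    have e1 : ∫ y : EE n, ch a x * ((gw p x : ℝ) : ℂ) * (ch b y * ((gw p y : ℝ) : ℂ)) *
      Complex.exp (Complex.I * ((s / p * inner ℝ x y : ℝ) : ℂ)) =
      ∫ y : EE n, ch a x * ((gw p x : ℝ) : ℂ) *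
        (Complex.exp (Complex.I * ((inner ℝ (b + (s / p) • x) y : ℝ) : ℂ)) * ((gw p y : ℝ) : ℂ)) := by
      apply integral_congr_ae
      filter_upwards with y
      rw [inner_add_left, inner_smul_left]
      unfold ch
      push_cast
      rw [mul_add, Complex.exp_add]
      simp only [conj_trivial, Complex.ofReal_div]
      ring
    rw [e1, integral_const_mul, gaussDouble_inner p hp]
    have e2 : ‖b + (s / p) • x‖ ^ 2 = ‖b‖ ^ 2 + 2 * (s / p) * inner ℝ b x + (s / p) ^ 2 * ‖x‖ ^ 2 := by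
      rw [@norm_add_sq_real, inner_smul_right, norm_smul, mul_pow, Real.norm_eq_abs, sq_abs]
      ring
    rw [e2]
    have e3 : -(p / 2 * (‖b‖ ^ 2 + 2 * (s / p) * inner ℝ b x + (s / p) ^ 2 * ‖x‖ ^ 2)) =
        -(p / 2 * ‖b‖ ^ 2) + (-(s * inner ℝ b x) + -((p - 1) / (2 * p) * ‖x‖ ^ 2)) := by
      rw [← hs2]
      field_simp
      ring
    rw [e3]
    unfold ch gw
    rw [Complex.ofReal_exp]
    rw [mul_left_comm, ← Complex.exp_add, ← Complex.exp_add, ← Complex.exp_add]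
    congr 2
    push_cast
    field_simp
    ring
  rw [integral_congr_ae (Filter.Eventually.of_forall h1)]
  rw [integral_const_mul, integral_const_mul, gaussDouble_outer]
  have e4 : Complex.exp (-((‖a‖ ^ 2 / 2 : ℝ) : ℂ) - ((‖b‖ ^ 2 / 2 : ℝ) : ℂ) -
        om p * ((inner ℝ a b : ℝ) : ℂ)) = Complex.exp (((-(p / 2 * ‖b‖ ^ 2) : ℝ) : ℂ)) *
      Complex.exp (-((‖a‖ ^ 2 / 2 : ℝ) : ℂ) + ((s ^ 2 * ‖b‖ ^ 2 / 2 : ℝ) : ℂ) -
          Complex.I * (s : ℂ) * ((inner ℝ a b : ℝ) : ℂ)) := by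
    rw [← Complex.exp_add]
    congr 1
    unfold om
    rw [← hs, hs2]
    push_cast
    ring
  rw [e4]
  have e5 : (((2 * Real.pi) ^ n * p ^ ((n : ℝ) / 2) : ℝ) : ℂ) =
      (((2 * Real.pi * p) ^ ((n : ℝ) / 2) : ℝ) : ℂ) * (((2 * Real.pi) ^ ((n : ℝ) / 2) : ℝ) : ℂ) := by
    rw [← Complex.ofReal_mul]
    congr 1
    rw [Real.mul_rpow (by positivity) hp0.le]
    have : (2 * Real.pi) ^ n = (2 * Real.pi) ^ ((n : ℝ) / 2) * (2 * Real.pi) ^ ((n : ℝ) / 2) := by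
      rw [← Real.rpow_add (by positivity), ← Real.rpow_natCast]
      congr 1
      ring
    rw [this]
    ring
  rw [e5]
  ring

end Pool.Agent.Lib.MP_7548d4_gt.F
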