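import Pool.Agent.Lib.MP_7548d4_gt.F.Basic
import Pool.Agent.Lib.MP_7548d4_gt.F.Cube
import Pool.Agent.Lib.MP_7548d4_gt.F.CubeExp
import Pool.Agent.Lib.MP_7548d4_gt.F.CubeCLT
import Pool.Agent.Lib.MP_7548d4_gt.F.GaussDouble

/-!
# The Babenko-Beckner inequality for trigonometric polynomials times a Gaussian
-/

set_option autoImplicit false
open MeasureTheory Metric Set Filter Topology

namespace Pool.Agent.Lib.MP_7548d4_gt.F

variable {n : ℕ}

/-- the inner transform -/
noncomputable def trigbb_T (p : ℝ) (g : EE n → ℂ) (x : EE n) : ℂ :=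
  ∫ y : EE n, g y * Complex.exp (Complex.I * ((Real.sqrt (p - 1) / p * inner ℝ x y : ℝ) : ℂ))

theorem trigbb_norm_phase (p : ℝ) (x y : EE n) :
    ‖Complex.exp (Complex.I * ((Real.sqrt (p - 1) / p * inner ℝ x y : ℝ) : ℂ))‖ = 1 := by
  rw [mul_comm, Complex.norm_exp_ofReal_mul_I]

theorem trigbb_phase_cont (p : ℝ) : Continuous fun q : EE n × EE n =>
    Complex.exp (Complex.I * ((Real.sqrt (p - 1) / p * inner ℝ q.1 q.2 : ℝ) : ℂ)) := by
  fun_prop

theorem trigbb_int {g : EE n → ℂ} (p : ℝ) (hg : Integrable g) (x : EE n) :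
    Integrable fun y : EE n => g y *
      Complex.exp (Complex.I * ((Real.sqrt (p - 1) / p * inner ℝ x y : ℝ) : ℂ)) := by
  refine hg.mono (hg.aestronglyMeasurable.mul ?_) (Eventually.of_forall fun y => ?_)
  · apply Continuous.aestronglyMeasurable
    fun_prop
  · rw [norm_mul, trigbb_norm_phase, mul_one]

theorem trigbb_T_cont {g : EE n → ℂ} (p : ℝ) (hg : Integrable g) : Continuous (trigbb_T p g) := by
  unfold trigbb_T
  refine continuous_of_dominated (bound := fun y => ‖g y‖)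
    (fun x => (trigbb_int p hg x).aestronglyMeasurable)
    (fun x => Eventually.of_forall fun y => ?_) hg.norm (Eventually.of_forall fun y => ?_)
  · rw [norm_mul, trigbb_norm_phase, mul_one]
  · fun_prop

theorem trigbb_T_norm_le {g : EE n → ℂ} (p : ℝ) (hg : Integrable g) (x : EE n) :
    ‖trigbb_T p g x‖ ≤ ∫ y, ‖g y‖ := by
  unfold trigbb_T
  refine norm_integral_le_of_norm_le hg.norm (Eventually.of_forall fun y => ?_)
  rw [norm_mul, trigbb_norm_phase, mul_one]

theorem trigbb_BF_eq (p : ℝ) (h g : EE n → ℂ) : BF p h g = ∫ x, h x * trigbb_T p g x := by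
  unfold BF trigbb_T
  congr 1
  funext x
  rw [← integral_const_mul]
  congr 1
  funext y
  ring

theorem trigbb_int2 {h g : EE n → ℂ} (p : ℝ) (hh : Integrable h) (hg : Integrable g) :
    Integrable fun x => h x * trigbb_T p g x := by
  refine (hh.norm.mul_const (∫ y, ‖g y‖)).mono
    (hh.aestronglyMeasurable.mul (trigbb_T_cont p hg).aestronglyMeasurable)
    (Eventually.of_forall fun x => ?_)
  rw [norm_mul, norm_mul, norm_norm]
  refine mul_le_mul_of_nonneg_left ?_ (norm_nonneg _)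
  exact (trigbb_T_norm_le p hg x).trans (le_abs_self _)

theorem trigbb_add_left {h1 h2 g : EE n → ℂ} (p : ℝ) (hh1 : Integrable h1) (hh2 : Integrable h2)
    (hg : Integrable g) : BF p (fun x => h1 x + h2 x) g = BF p h1 g + BF p h2 g := by
  simp only [trigbb_BF_eq, add_mul]
  exact integral_add (trigbb_int2 p hh1 hg) (trigbb_int2 p hh2 hg)

theorem trigbb_smul_left {h g : EE n → ℂ} (p : ℝ) (c : ℂ) :
    BF p (fun x => c * h x) g = c * BF p h g := by
  simp only [trigbb_BF_eq, mul_assoc]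
  exact integral_const_mul _ _

theorem trigbb_add_right {h g1 g2 : EE n → ℂ} (p : ℝ) (hh : Integrable h) (hg1 : Integrable g1)
    (hg2 : Integrable g2) : BF p h (fun x => g1 x + g2 x) = BF p h g1 + BF p h g2 := by
  have h1 : trigbb_T p (fun x => g1 x + g2 x) = fun x => trigbb_T p g1 x + trigbb_T p g2 x := by
    funext x
    unfold trigbb_T
    rw [← integral_add (trigbb_int p hg1 x) (trigbb_int p hg2 x)]
    congr 1
    funext y
    ring
  simp only [trigbb_BF_eq, h1, mul_add]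
  exact integral_add (trigbb_int2 p hh hg1) (trigbb_int2 p hh hg2)

theorem trigbb_smul_right {h g : EE n → ℂ} (p : ℝ) (c : ℂ) :
    BF p h (fun x => c * g x) = c * BF p h g := by
  have h1 : trigbb_T p (fun x => c * g x) = fun x => c * trigbb_T p g x := by
    funext x
    unfold trigbb_T
    rw [← integral_const_mul]
    congr 1
    funext y
    ring
  simp only [trigbb_BF_eq, h1]
  rw [← integral_const_mul]
  congr 1
  funext x
  ring

/-! ### Trigonometric polynomials -/

theorem trigbb_norm_ch (a x : EE n) : ‖ch a x‖ = 1 := by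
  unfold ch
  rw [mul_comm, Complex.norm_exp_ofReal_mul_I]

theorem trigbb_ch_cont (a : EE n) : Continuous (ch a) := by
  unfold ch
  fun_prop

theorem trigbb_nice {P : EE n → ℂ} (hP : P ∈ Trig n) :
    Continuous P ∧ ∃ C : ℝ, ∀ x, ‖P x‖ ≤ C := by
  unfold Trig at hP
  induction hP using Submodule.span_induction with
  | mem x hx =>
    obtain ⟨a, rfl⟩ := hx
    exact ⟨trigbb_ch_cont a, 1, fun x => (trigbb_norm_ch a x).le⟩
  | zero => exact ⟨continuous_const, 0, fun x => by simp⟩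
  | add f g _ _ hf hg =>
    obtain ⟨h1, C1, h2⟩ := hf
    obtain ⟨h3, C2, h4⟩ := hg
    exact ⟨h1.add h3, C1 + C2, fun x => (norm_add_le _ _).trans (add_le_add (h2 x) (h4 x))⟩
  | smul c f _ hf =>
    obtain ⟨h1, C1, h2⟩ := hf
    refine ⟨h1.const_smul c, ‖c‖ * C1, fun x => ?_⟩
    rw [Pi.smul_apply, norm_smul]
    exact mul_le_mul_of_nonneg_left (h2 x) (norm_nonneg _)

theorem trigbb_gw_cont (p : ℝ) : Continuous (gw (n := n) p) := by
  unfold gw
  fun_prop

theorem trigbb_gw_int {p : ℝ} (hp : 1 < p) : Integrable (gw (n := n) p) := by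
  refine (basic_gauss_integrable n (1 / (2 * p)) (by positivity)).congr
    (Eventually.of_forall fun x => ?_)
  show Real.exp _ = Real.exp _
  congr 2
  ring

theorem trigbb_Pgw_int {P : EE n → ℂ} (hP : P ∈ Trig n) {p : ℝ} (hp : 1 < p) :
    Integrable fun x => P x * ((gw p x : ℝ) : ℂ) := by
  obtain ⟨h1, C, h2⟩ := trigbb_nice hP
  refine ((trigbb_gw_int hp).const_mul C).mono (h1.mul
    (Complex.continuous_ofReal.comp (trigbb_gw_cont p))).aestronglyMeasurable
    (Eventually.of_forall fun x => ?_)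
  have h3 : 0 ≤ gw p x := Real.exp_nonneg _
  have h4 : 0 ≤ C := (norm_nonneg _).trans (h2 x)
  rw [norm_mul, Complex.norm_of_nonneg h3, Real.norm_of_nonneg (mul_nonneg h4 h3)]
  exact mul_le_mul_of_nonneg_right (h2 x) h3

/-- the form on the cube -/
noncomputable def trigbb_Q (p : ℝ) (P R : EE n → ℂ) (N : ℕ) : ℂ :=
  ((4 : ℂ) ^ (n * N))⁻¹ * ∑ x : Fin n × Fin N → Bool, ∑ y : Fin n × Fin N → Bool,
    ker p x y * P (Ssum x) * R (Ssum y)

theorem trigbb_tendsto {p : ℝ} (hp : 1 < p) {P R : EE n → ℂ} (hP : P ∈ Trig n)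
    (hR : R ∈ Trig n) :
    Tendsto (fun N : ℕ => (((2 * Real.pi) ^ n * p ^ ((n : ℝ) / 2) : ℝ) : ℂ) * trigbb_Q p P R N)
      atTop (𝓝 (BF p (fun x => P x * ((gw p x : ℝ) : ℂ)) (fun y => R y * ((gw p y : ℝ) : ℂ)))) := by
  -- first the case of a character on the left
  have key : ∀ a : EE n, Tendsto (fun N : ℕ => (((2 * Real.pi) ^ n * p ^ ((n : ℝ) / 2) : ℝ) : ℂ) *
      trigbb_Q p (ch a) R N) atTop (𝓝 (BF p (fun x => ch a x * ((gw p x : ℝ) : ℂ))
        (fun y => R y * ((gw p y : ℝ) : ℂ)))) := by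
    intro a
    have ha : ch a ∈ Trig n := Submodule.subset_span ⟨a, rfl⟩
    unfold Trig at hR
    induction hR using Submodule.span_induction with
    | mem x hx =>
      obtain ⟨b, rfl⟩ := hx
      rw [gauss_double p hp a b]
      exact (cube_exp_tendsto p a b).const_mul _
    | zero =>
      have h1 : (fun y : EE n => (0 : EE n → ℂ) y * ((gw p y : ℝ) : ℂ)) = fun y => 0 * (0 : ℂ) := by
        funext y; simp
      rw [h1, trigbb_smul_right, zero_mul]
      refine tendsto_const_nhds.congr fun N => ?_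
      simp [trigbb_Q]
    | add f g hf' hg' hf hg =>
      have h1 : (fun y : EE n => (f + g) y * ((gw p y : ℝ) : ℂ)) =
          fun y => f y * ((gw p y : ℝ) : ℂ) + g y * ((gw p y : ℝ) : ℂ) := by
        funext y; rw [Pi.add_apply, add_mul]
      rw [h1, trigbb_add_right p (trigbb_Pgw_int ha hp) (trigbb_Pgw_int hf' hp)
        (trigbb_Pgw_int hg' hp)]
      refine (hf.add hg).congr fun N => ?_
      rw [← mul_add]
      congr 1
      unfold trigbb_Q
      rw [← mul_add, ← Finset.sum_add_distrib]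
      congr 1
      refine Finset.sum_congr rfl fun x _ => ?_
      rw [← Finset.sum_add_distrib]
      refine Finset.sum_congr rfl fun y _ => ?_
      rw [Pi.add_apply, mul_add]
    | smul c f _ hf =>
      have h1 : (fun y : EE n => (c • f) y * ((gw p y : ℝ) : ℂ)) =
          fun y => c * (f y * ((gw p y : ℝ) : ℂ)) := by
        funext y; rw [Pi.smul_apply, smul_eq_mul, mul_assoc]
      rw [h1, trigbb_smul_right]
      refine (hf.const_mul c).congr fun N => ?_
      rw [mul_left_comm]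
      congr 1
      unfold trigbb_Q
      rw [mul_left_comm, Finset.mul_sum]
      congr 1
      refine Finset.sum_congr rfl fun x _ => ?_
      rw [Finset.mul_sum]
      refine Finset.sum_congr rfl fun y _ => ?_
      rw [Pi.smul_apply, smul_eq_mul]
      ring
  unfold Trig at hP
  induction hP using Submodule.span_induction with
  | mem x hx =>
    obtain ⟨a, rfl⟩ := hx
    exact key a
  | zero =>
    have h1 : (fun y : EE n => (0 : EE n → ℂ) y * ((gw p y : ℝ) : ℂ)) = fun y => 0 * (0 : ℂ) := by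
      funext y; simp
    rw [h1, trigbb_smul_left, zero_mul]
    refine tendsto_const_nhds.congr fun N => ?_
    simp [trigbb_Q]
  | add f g hf' hg' hf hg =>
    have h1 : (fun y : EE n => (f + g) y * ((gw p y : ℝ) : ℂ)) =
        fun y => f y * ((gw p y : ℝ) : ℂ) + g y * ((gw p y : ℝ) : ℂ) := by
      funext y; rw [Pi.add_apply, add_mul]
    rw [h1, trigbb_add_left p (trigbb_Pgw_int hf' hp) (trigbb_Pgw_int hg' hp)
      (trigbb_Pgw_int hR hp)]
    refine (hf.add hg).congr fun N => ?_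
    rw [← mul_add]
    congr 1
    unfold trigbb_Q
    rw [← mul_add, ← Finset.sum_add_distrib]
    congr 1
    refine Finset.sum_congr rfl fun x _ => ?_
    rw [← Finset.sum_add_distrib]
    refine Finset.sum_congr rfl fun y _ => ?_
    rw [Pi.add_apply]
    ring
  | smul c f _ hf =>
    have h1 : (fun y : EE n => (c • f) y * ((gw p y : ℝ) : ℂ)) =
        fun y => c * (f y * ((gw p y : ℝ) : ℂ)) := by
      funext y; rw [Pi.smul_apply, smul_eq_mul, mul_assoc]
    rw [h1, trigbb_smul_left]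
    refine (hf.const_mul c).congr fun N => ?_
    rw [mul_left_comm]
    congr 1
    unfold trigbb_Q
    rw [mul_left_comm, Finset.mul_sum]
    congr 1
    refine Finset.sum_congr rfl fun x _ => ?_
    rw [Finset.mul_sum]
    refine Finset.sum_congr rfl fun y _ => ?_
    rw [Pi.smul_apply, smul_eq_mul]
    ring

theorem trigbb_norm_tendsto {p : ℝ} (hp : 1 < p) {P : EE n → ℂ} (hP : P ∈ Trig n) :
    Tendsto (fun N : ℕ => (((2 : ℝ) ^ (n * N))⁻¹ *
        ∑ x : Fin n × Fin N → Bool, ‖P (Ssum x)‖ ^ p) ^ (1 / p)) atTop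
      (𝓝 ((((2 * Real.pi) ^ ((n : ℝ) / 2))⁻¹ *
        ∫ x : EE n, ‖P x * ((gw p x : ℝ) : ℂ)‖ ^ p) ^ (1 / p))) := by
  obtain ⟨h1, C, h2⟩ := trigbb_nice hP
  have hp0 : 0 < p := by linarith
  have hc : Continuous fun x => ‖P x‖ ^ p := h1.norm.rpow_const fun x => Or.inr hp0.le
  have h3 := cube_clt (fun x => ‖P x‖ ^ p) hc ⟨C ^ p, fun x => by
    rw [abs_of_nonneg (Real.rpow_nonneg (norm_nonneg _) _)]
    exact Real.rpow_le_rpow (norm_nonneg _) (h2 x) hp0.le⟩
  have h4 : (∫ x : EE n, ‖P x * ((gw p x : ℝ) : ℂ)‖ ^ p) =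
      ∫ x : EE n, ‖P x‖ ^ p * Real.exp (-(‖x‖ ^ 2 / 2)) := by
    congr 1
    funext x
    have h5 : 0 ≤ gw p x := Real.exp_nonneg _
    rw [norm_mul, Complex.norm_of_nonneg h5, Real.mul_rpow (norm_nonneg _) h5]
    congr 1
    unfold gw
    rw [← Real.exp_mul]
    congr 1
    field_simp
  rw [h4]
  exact h3.rpow_const (Or.inr (by positivity))

theorem bb_trig {n : ℕ} (p : ℝ) (hp : 1 < p) (hp2 : p ≤ 2) (P R : EE n → ℂ) (hP : P ∈ Trig n)
    (hR : R ∈ Trig n) :
    ‖BF p (fun x => P x * ((gw p x : ℝ) : ℂ)) (fun y => R y * ((gw p y : ℝ) : ℂ))‖ ≤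
      (2 * Real.pi) ^ ((n : ℝ) * (1 - 1 / p)) * p ^ ((n : ℝ) / 2) *
      (∫ x : EE n, ‖P x * ((gw p x : ℝ) : ℂ)‖ ^ p) ^ (1 / p) *
      (∫ x : EE n, ‖R x * ((gw p x : ℝ) : ℂ)‖ ^ p) ^ (1 / p) := by
  have hp0 : 0 < p := by linarith
  have hK : 0 ≤ (2 * Real.pi) ^ n * p ^ ((n : ℝ) / 2) := by positivity
  have h1 := (trigbb_tendsto hp hP hR).norm
  have h2 := ((trigbb_norm_tendsto hp hP).mul (trigbb_norm_tendsto hp hR)).const_mul
    ((2 * Real.pi) ^ n * p ^ ((n : ℝ) / 2))
  have h3 := le_of_tendsto_of_tendsto' h1 h2 fun N => by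
    rw [norm_mul, Complex.norm_of_nonneg hK]
    refine mul_le_mul_of_nonneg_left ?_ hK
    have h4 := cube_bilin (ι := Fin n × Fin N) p hp hp2 (fun x => P (Ssum x))
      (fun x => R (Ssum x))
    rw [Fintype.card_prod, Fintype.card_fin, Fintype.card_fin] at h4
    exact h4
  refine h3.trans (le_of_eq ?_)
  have hA : 0 ≤ ∫ x : EE n, ‖P x * ((gw p x : ℝ) : ℂ)‖ ^ p :=
    integral_nonneg fun x => Real.rpow_nonneg (norm_nonneg _) _
  have hB : 0 ≤ ∫ x : EE n, ‖R x * ((gw p x : ℝ) : ℂ)‖ ^ p :=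
    integral_nonneg fun x => Real.rpow_nonneg (norm_nonneg _) _
  have h2pi : 0 < 2 * Real.pi := by positivity
  rw [Real.mul_rpow (by positivity) hA, Real.mul_rpow (by positivity) hB]
  have h5 : (2 * Real.pi) ^ ((n : ℝ) * (1 - 1 / p)) = (2 * Real.pi) ^ n *
      ((((2 * Real.pi) ^ ((n : ℝ) / 2))⁻¹) ^ (1 / p) * (((2 * Real.pi) ^ ((n : ℝ) / 2))⁻¹) ^ (1 / p)) := by
    rw [← Real.rpow_neg h2pi.le, ← Real.rpow_mul h2pi.le, ← Real.rpow_add h2pi,
      ← Real.rpow_natCast, ← Real.rpow_add h2pi]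
    congr 1
    ring
  rw [h5]
  ring

end Pool.Agent.Lib.MP_7548d4_gt.F
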