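import Pool.Agent.Lib.MP_7548d4_gt.F.Dense
import Pool.Agent.Lib.MP_7548d4_gt.F.TrigBB

/-!
# The Babenko-Beckner inequality
-/

set_option autoImplicit false
open MeasureTheory Metric Set Filter Topology

namespace Pool.Agent.Lib.MP_7548d4_gt.F

section BB

variable {n : ℕ}

/-- the double integral is absolutely convergent -/
theorem bb_int (κ : ℝ) {h g : EE n → ℂ} (hh : Integrable h) (hg : Integrable g) :
    Integrable (fun z : EE n × EE n => h z.1 * g z.2 *
      Complex.exp (Complex.I * ((κ * inner ℝ z.1 z.2 : ℝ) : ℂ)))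
      ((volume : Measure (EE n)).prod (volume : Measure (EE n))) := by
  have h0 : Integrable (fun z : EE n × EE n => h z.1 * g z.2)
      ((volume : Measure (EE n)).prod (volume : Measure (EE n))) := hh.mul_prod hg
  apply h0.mul_bdd (c := 1)
  · exact (by fun_prop : Continuous fun z : EE n × EE n =>
      Complex.exp (Complex.I * ((κ * inner ℝ z.1 z.2 : ℝ) : ℂ))).aestronglyMeasurable
  · filter_upwards with z
    rw [mul_comm, Complex.norm_exp_ofReal_mul_I]

theorem bb_prod (p : ℝ) {h g : EE n → ℂ} (hh : Integrable h) (hg : Integrable g) :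
    BF p h g = ∫ z : EE n × EE n, h z.1 * g z.2 *
      Complex.exp (Complex.I * ((Real.sqrt (p - 1) / p * inner ℝ z.1 z.2 : ℝ) : ℂ))
      ∂((volume : Measure (EE n)).prod (volume : Measure (EE n))) := by
  unfold BF
  exact (integral_prod _ (bb_int _ hh hg)).symm

theorem bb_bound (p : ℝ) {h g : EE n → ℂ} (hh : Integrable h) (hg : Integrable g) :
    ‖BF p h g‖ ≤ (∫ x, ‖h x‖) * ∫ x, ‖g x‖ := by
  rw [bb_prod p hh hg]
  refine (norm_integral_le_integral_norm _).trans (le_of_eq ?_)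
  rw [← integral_prod_mul]
  apply integral_congr_ae
  filter_upwards with z
  rw [norm_mul, norm_mul, mul_comm Complex.I, Complex.norm_exp_ofReal_mul_I, mul_one]

theorem bb_diff (p : ℝ) {h g h' g' : EE n → ℂ} (hh : Integrable h) (hg : Integrable g)
    (hh' : Integrable h') (hg' : Integrable g') :
    ‖BF p h g - BF p h' g'‖ ≤ (∫ x, ‖h x - h' x‖) * (∫ x, ‖g x‖) +
      (∫ x, ‖h' x‖) * ∫ x, ‖g x - g' x‖ := by
  have e : BF p h g - BF p h' g' = BF p (fun x => h x - h' x) g + BF p h' (fun x => g x - g' x) := by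
    have i1 : Integrable (fun x => h x - h' x) := hh.sub hh'
    have i2 : Integrable (fun x => g x - g' x) := hg.sub hg'
    rw [bb_prod p hh hg, bb_prod p hh' hg', bb_prod p i1 hg, bb_prod p hh' i2,
      ← integral_sub (bb_int _ hh hg) (bb_int _ hh' hg'),
      ← integral_add (bb_int _ i1 hg) (bb_int _ hh' i2)]
    apply integral_congr_ae
    filter_upwards with z
    ring
  rw [e]
  exact (norm_add_le _ _).trans (add_le_add (bb_bound p (hh.sub hh') hg)
    (bb_bound p hh' (hg.sub hg')))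

/-- Minkowski's inequality in the form used below -/
theorem bb_mink (p : ℝ) (hp : 1 < p) {u h : EE n → ℂ}
    (hu : MemLp u (ENNReal.ofReal p) (volume : Measure (EE n)))
    (hh : MemLp h (ENNReal.ofReal p) (volume : Measure (EE n))) :
    (∫ x, ‖u x‖ ^ p) ^ (1 / p) ≤ (∫ x, ‖h x‖ ^ p) ^ (1 / p) + (∫ x, ‖u x - h x‖ ^ p) ^ (1 / p) := by
  have hp0 : (0 : ℝ) < p := by linarith
  have h1 : ENNReal.ofReal p ≠ 0 := by
    rw [Ne, ENNReal.ofReal_eq_zero]; linarith
  have h2 : ENNReal.ofReal p ≠ ⊤ := ENNReal.ofReal_ne_top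
  have hr : (ENNReal.ofReal p).toReal = p := ENNReal.toReal_ofReal hp0.le
  have hge : (1 : ENNReal) ≤ ENNReal.ofReal p := by
    rw [← ENNReal.ofReal_one]; exact ENNReal.ofReal_le_ofReal hp.le
  have hs : MemLp (u - h) (ENNReal.ofReal p) (volume : Measure (EE n)) := hu.sub hh
  have key := eLpNorm_add_le hh.aestronglyMeasurable hs.aestronglyMeasurable hge
  have e : h + (u - h) = u := by abel
  rw [e, hu.eLpNorm_eq_integral_rpow_norm h1 h2, hh.eLpNorm_eq_integral_rpow_norm h1 h2,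
    hs.eLpNorm_eq_integral_rpow_norm h1 h2, hr, ← ENNReal.ofReal_add (by positivity)
    (by positivity), ENNReal.ofReal_le_ofReal_iff (by positivity)] at key
  simpa [one_div] using key

/-- trigonometric polynomials are continuous and bounded -/
theorem bb_trig_reg {P : EE n → ℂ} (hP : P ∈ Trig n) :
    Continuous P ∧ ∃ C : ℝ, ∀ x, ‖P x‖ ≤ C := by
  unfold Trig at hP
  induction hP using Submodule.span_induction with
  | mem x hx =>
    obtain ⟨a, rfl⟩ := hx
    exact ⟨dense_ch_cont a, 1, fun x => (dense_ch_norm a x).le⟩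
  | zero => exact ⟨continuous_const, 0, fun x => by simp⟩
  | add f g _ _ hf hg =>
    obtain ⟨hf1, C, hC⟩ := hf
    obtain ⟨hg1, D, hD⟩ := hg
    exact ⟨hf1.add hg1, C + D, fun x => (norm_add_le _ _).trans (add_le_add (hC x) (hD x))⟩
  | smul c f _ hf =>
    obtain ⟨hf1, C, hC⟩ := hf
    refine ⟨hf1.const_smul c, ‖c‖ * C, fun x => ?_⟩
    rw [Pi.smul_apply, norm_smul]
    exact mul_le_mul_of_nonneg_left (hC x) (norm_nonneg _)

/-- bounded integrable functions are in every `Lp` -/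
theorem bb_memLp (p : ℝ) (hp : 1 < p) {h : EE n → ℂ} (hh : Integrable h)
    (hb : ∃ C : ℝ, ∀ x, ‖h x‖ ≤ C) : MemLp h (ENNReal.ofReal p) (volume : Measure (EE n)) := by
  obtain ⟨C, hC⟩ := hb
  have hp0 : (0 : ℝ) < p := by linarith
  have h1 : ENNReal.ofReal p ≠ 0 := by
    rw [Ne, ENNReal.ofReal_eq_zero]; linarith
  have hr : (ENNReal.ofReal p).toReal = p := ENNReal.toReal_ofReal hp0.le
  rw [← integrable_norm_rpow_iff hh.aestronglyMeasurable h1 ENNReal.ofReal_ne_top, hr]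
  refine (hh.norm.const_mul (C ^ (p - 1))).mono' ?_ (Eventually.of_forall fun x => ?_)
  · exact (hh.aestronglyMeasurable.norm.aemeasurable.pow_const p).aestronglyMeasurable
  · rw [Real.norm_of_nonneg (by positivity)]
    have e : ‖h x‖ ^ p = ‖h x‖ ^ (p - 1) * ‖h x‖ := by
      conv_rhs => rw [← Real.rpow_one ‖h x‖, ← Real.rpow_mul (norm_nonneg _), one_mul]
      rw [← Real.rpow_add' (norm_nonneg _) (by linarith)]
      congr 1; ring
    rw [e]
    exact mul_le_mul_of_nonneg_right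
      (Real.rpow_le_rpow (norm_nonneg _) (hC x) (by linarith)) (norm_nonneg _)

theorem bb_gw_int (p : ℝ) (hp : 0 < p) : Integrable (gw p : EE n → ℝ) := by
  have h := GaussianFourier.integrable_cexp_neg_mul_sq_norm_add (V := EE n)
    (b := ((1 / (2 * p) : ℝ) : ℂ)) (by rw [Complex.ofReal_re]; positivity) 0 0
  have h2 := h.norm
  refine h2.congr (Eventually.of_forall fun x => ?_)
  simp only [zero_mul, add_zero, Complex.norm_exp, gw]
  congr 1
  rw [← Complex.ofReal_pow, ← Complex.ofReal_neg, ← Complex.ofReal_mul, Complex.ofReal_re]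
  ring

theorem bb_gw_le (p : ℝ) (hp : 0 < p) (x : EE n) : gw p x ≤ 1 := by
  unfold gw
  rw [Real.exp_le_one_iff]
  have : 0 ≤ ‖x‖ ^ 2 / (2 * p) := by positivity
  linarith

theorem bb_gw_cont (p : ℝ) : Continuous (gw p : EE n → ℝ) := by
  unfold gw; fun_prop

/-- weighted trigonometric polynomials -/
theorem bb_trig_int (p : ℝ) (hp : 0 < p) {P : EE n → ℂ} (hP : P ∈ Trig n) :
    Integrable (fun x => P x * ((gw p x : ℝ) : ℂ)) ∧ ∃ C : ℝ, ∀ x, ‖P x * ((gw p x : ℝ) : ℂ)‖ ≤ C := by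
  obtain ⟨hc, C, hC⟩ := bb_trig_reg hP
  constructor
  · exact (bb_gw_int p hp).ofReal.bdd_mul (c := C) hc.aestronglyMeasurable
      (Eventually.of_forall hC)
  · refine ⟨C, fun x => ?_⟩
    have := bb_gw_le p hp x
    have h0 : 0 ≤ gw p x := (Real.exp_pos _).le
    rw [norm_mul, Complex.norm_real, Real.norm_of_nonneg h0]
    calc ‖P x‖ * gw p x ≤ ‖P x‖ * 1 := mul_le_mul_of_nonneg_left this (norm_nonneg _)
      _ ≤ C := by rw [mul_one]; exact hC x

/-- compactly supported functions -/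
theorem bb_step1 (p : ℝ) (hp : 1 < p) (hp2 : p ≤ 2) (h g : EE n → ℂ) (hhm : Measurable h)
    (hgm : Measurable g) (hhi : Integrable h) (hgi : Integrable g)
    (hhb : ∃ C : ℝ, ∀ x, ‖h x‖ ≤ C) (hgb : ∃ C : ℝ, ∀ x, ‖g x‖ ≤ C)
    (R : ℝ) (hhs : ∀ x, R < ‖x‖ → h x = 0) (hgs : ∀ x, R < ‖x‖ → g x = 0) :
    ‖BF p h g‖ ≤ ((2 * Real.pi) ^ ((n : ℝ) * (1 - 1 / p)) * p ^ ((n : ℝ) / 2)) *
      (∫ x : EE n, ‖h x‖ ^ p) ^ (1 / p) * (∫ x : EE n, ‖g x‖ ^ p) ^ (1 / p) := by
  have hp0 : 0 < p := by linarith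
  set K : ℝ := (2 * Real.pi) ^ ((n : ℝ) * (1 - 1 / p)) * p ^ ((n : ℝ) / 2) with hK
  have hK0 : 0 ≤ K := by positivity
  set a : ℝ := (∫ x : EE n, ‖h x‖ ^ p) ^ (1 / p) with ha
  set b : ℝ := (∫ x : EE n, ‖g x‖ ^ p) ^ (1 / p) with hb
  have ha0 : 0 ≤ a := by positivity
  have hb0 : 0 ≤ b := by positivity
  set Φ : ℝ → ℝ := fun ε => K * (a + ε ^ (1 / p)) * (b + ε ^ (1 / p)) +
    (ε * ((∫ x, ‖g x‖) + ε) + (∫ x, ‖h x‖) * ε) with hΦ
  have hΦc : ContinuousAt Φ 0 := by
    have : ContinuousAt (fun ε : ℝ => ε ^ (1 / p)) 0 :=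
      Real.continuousAt_rpow_const _ _ (Or.inr (by positivity))
    simp only [hΦ]
    fun_prop
  have hΦ0 : Φ 0 = K * a * b := by
    simp only [hΦ]
    rw [Real.zero_rpow (by positivity)]
    ring
  have hlim : Tendsto Φ (𝓝[>] 0) (𝓝 (K * a * b)) := by
    rw [← hΦ0]
    exact hΦc.tendsto.mono_left nhdsWithin_le_nhds
  refine ge_of_tendsto hlim ?_
  filter_upwards [self_mem_nhdsWithin] with ε hε
  have hε0 : (0 : ℝ) < ε := hε
  obtain ⟨P, hP, P1, P2⟩ := trig_dense p hp hp2 h hhm hhb R hhs ε hε0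
  obtain ⟨Q, hQ, Q1, Q2⟩ := trig_dense p hp hp2 g hgm hgb R hgs ε hε0
  obtain ⟨Pi, Pb⟩ := bb_trig_int p hp0 hP
  obtain ⟨Qi, Qb⟩ := bb_trig_int p hp0 hQ
  set u : EE n → ℂ := fun x => P x * ((gw p x : ℝ) : ℂ) with hu
  set v : EE n → ℂ := fun x => Q x * ((gw p x : ℝ) : ℂ) with hv
  have t1 : ‖BF p u v‖ ≤ K * (a + ε ^ (1 / p)) * (b + ε ^ (1 / p)) := by
    have hA : (∫ x, ‖u x‖ ^ p) ^ (1 / p) ≤ a + ε ^ (1 / p) := by
      refine (bb_mink p hp (bb_memLp p hp Pi Pb) (bb_memLp p hp hhi hhb)).trans ?_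
      refine add_le_add le_rfl (Real.rpow_le_rpow (by positivity) P2 (by positivity))
    have hB : (∫ x, ‖v x‖ ^ p) ^ (1 / p) ≤ b + ε ^ (1 / p) := by
      refine (bb_mink p hp (bb_memLp p hp Qi Qb) (bb_memLp p hp hgi hgb)).trans ?_
      refine add_le_add le_rfl (Real.rpow_le_rpow (by positivity) Q2 (by positivity))
    refine (bb_trig p hp hp2 P Q hP hQ).trans ?_
    refine mul_le_mul ?_ hB (by positivity) (by positivity)
    exact mul_le_mul_of_nonneg_left hA hK0
  have t2 : ‖BF p h g - BF p u v‖ ≤ ε * ((∫ x, ‖g x‖) + ε) + (∫ x, ‖h x‖) * ε := by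
    have hd := bb_diff p Pi Qi hhi hgi
    rw [norm_sub_rev]
    refine hd.trans ?_
    have hv1 : ∫ x, ‖v x‖ ≤ (∫ x, ‖g x‖) + ε := by
      have i3 : Integrable (fun x => ‖v x - g x‖) := (Qi.sub hgi).norm
      have : ∫ x, ‖v x‖ ≤ ∫ x, (‖g x‖ + ‖v x - g x‖) := by
        apply integral_mono Qi.norm (hgi.norm.add i3)
        intro x
        have := norm_add_le (g x) (v x - g x)
        simpa using this
      rw [integral_add hgi.norm i3] at this
      linarith
    refine add_le_add ?_ ?_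
    · refine mul_le_mul P1 hv1 (by positivity) hε0.le
    · exact mul_le_mul_of_nonneg_left Q1 (by positivity)
  calc ‖BF p h g‖ = ‖BF p u v + (BF p h g - BF p u v)‖ := by congr 1; ring
    _ ≤ ‖BF p u v‖ + ‖BF p h g - BF p u v‖ := norm_add_le _ _
    _ ≤ Φ ε := add_le_add t1 t2

/-- truncation to balls -/
theorem bb_trunc {h : EE n → ℂ} (hi : Integrable h) :
    Tendsto (fun j : ℕ => ∫ x, ‖h x - (closedBall (0 : EE n) j).indicator h x‖) atTop (𝓝 0) := by
  have h0 : (0 : ℝ) = ∫ _ : EE n, (0 : ℝ) := by simp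
  rw [h0]
  apply tendsto_integral_of_dominated_convergence (fun x => ‖h x‖)
  · intro j
    exact (hi.aestronglyMeasurable.sub
      (hi.aestronglyMeasurable.indicator isClosed_closedBall.measurableSet)).norm
  · exact hi.norm
  · intro j
    filter_upwards with x
    rw [norm_norm]
    by_cases hx : x ∈ closedBall (0 : EE n) j
    · rw [indicator_of_mem hx, sub_self, norm_zero]; positivity
    · rw [indicator_of_notMem hx, sub_zero]
  · filter_upwards with x
    obtain ⟨J, hJ⟩ := exists_nat_ge ‖x‖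
    refine tendsto_const_nhds.congr' ?_
    filter_upwards [eventually_ge_atTop J] with j hj
    have hx : x ∈ closedBall (0 : EE n) j := by
      rw [mem_closedBall_zero_iff]
      exact hJ.trans (by exact_mod_cast hj)
    rw [indicator_of_mem hx, sub_self, norm_zero]

/-- bounded integrable functions -/
theorem bb_step2 (p : ℝ) (hp : 1 < p) (hp2 : p ≤ 2) (h g : EE n → ℂ) (hhm : Measurable h)
    (hgm : Measurable g) (hhi : Integrable h) (hgi : Integrable g)
    (hhb : ∃ C : ℝ, ∀ x, ‖h x‖ ≤ C) (hgb : ∃ C : ℝ, ∀ x, ‖g x‖ ≤ C) :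
    ‖BF p h g‖ ≤ ((2 * Real.pi) ^ ((n : ℝ) * (1 - 1 / p)) * p ^ ((n : ℝ) / 2)) *
      (∫ x : EE n, ‖h x‖ ^ p) ^ (1 / p) * (∫ x : EE n, ‖g x‖ ^ p) ^ (1 / p) := by
  have hp0 : 0 < p := by linarith
  set K : ℝ := (2 * Real.pi) ^ ((n : ℝ) * (1 - 1 / p)) * p ^ ((n : ℝ) / 2) with hK
  have hK0 : 0 ≤ K := by positivity
  set X : ℝ := K * (∫ x : EE n, ‖h x‖ ^ p) ^ (1 / p) * (∫ x : EE n, ‖g x‖ ^ p) ^ (1 / p) with hX
  have hmono : ∀ (f : EE n → ℂ), Integrable f → (∃ C : ℝ, ∀ x, ‖f x‖ ≤ C) → ∀ j : ℕ,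
      (∫ x, ‖(closedBall (0 : EE n) j).indicator f x‖ ^ p) ^ (1 / p) ≤
        (∫ x, ‖f x‖ ^ p) ^ (1 / p) := by
    intro f hf hb j
    have hfp : Integrable (fun x => ‖f x‖ ^ p) := by
      have := (bb_memLp p hp hf hb).integrable_norm_rpow
        (by rw [Ne, ENNReal.ofReal_eq_zero]; linarith) ENNReal.ofReal_ne_top
      rwa [ENNReal.toReal_ofReal hp0.le] at this
    refine Real.rpow_le_rpow (by positivity) ?_ (by positivity)
    refine integral_mono_of_nonneg (Eventually.of_forall fun x => by positivity) hfp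
      (Eventually.of_forall fun x => ?_)
    exact Real.rpow_le_rpow (norm_nonneg _) (norm_indicator_le_norm_self _ _) hp0.le
  have hlim : Tendsto (fun j : ℕ => X +
      ((∫ x, ‖h x - (closedBall (0 : EE n) j).indicator h x‖) * (∫ x, ‖g x‖) +
      (∫ x, ‖h x‖) * ∫ x, ‖g x - (closedBall (0 : EE n) j).indicator g x‖)) atTop (𝓝 (X + (0 * (∫ x, ‖g x‖) +
      (∫ x, ‖h x‖) * 0))) :=
    tendsto_const_nhds.add (((bb_trunc hhi).mul_const _).add ((bb_trunc hgi).const_mul _))
  rw [zero_mul, mul_zero, add_zero, add_zero] at hlim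
  refine ge_of_tendsto hlim (Eventually.of_forall fun j => ?_)
  have hms : MeasurableSet (closedBall (0 : EE n) (j : ℝ)) := isClosed_closedBall.measurableSet
  have hbd : ∀ (f : EE n → ℂ), (∃ C : ℝ, ∀ x, ‖f x‖ ≤ C) →
      ∃ C : ℝ, ∀ x, ‖(closedBall (0 : EE n) (j : ℝ)).indicator f x‖ ≤ C := by
    rintro f ⟨C, hC⟩
    exact ⟨C, fun x => (norm_indicator_le_norm_self _ _).trans (hC x)⟩
  have hsupp : ∀ (f : EE n → ℂ) (x : EE n), (j : ℝ) < ‖x‖ →
      (closedBall (0 : EE n) (j : ℝ)).indicator f x = 0 := by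
    intro f x hx
    apply indicator_of_notMem
    rw [mem_closedBall_zero_iff]
    linarith
  have s1 := bb_step1 p hp hp2 ((closedBall (0 : EE n) (j : ℝ)).indicator h)
    ((closedBall (0 : EE n) (j : ℝ)).indicator g) (hhm.indicator hms) (hgm.indicator hms)
    (hhi.indicator hms) (hgi.indicator hms) (hbd h hhb) (hbd g hgb) j (hsupp h) (hsupp g)
  have s2 : ‖BF p ((closedBall (0 : EE n) (j : ℝ)).indicator h)
      ((closedBall (0 : EE n) (j : ℝ)).indicator g)‖ ≤ X := by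
    refine s1.trans ?_
    rw [hX]
    refine mul_le_mul ?_ (hmono g hgi hgb j) (by positivity) (by positivity)
    exact mul_le_mul_of_nonneg_left (hmono h hhi hhb j) hK0
  have s3 := bb_diff p hhi hgi (hhi.indicator hms) (hgi.indicator hms)
  have s4 : ∫ x, ‖(closedBall (0 : EE n) (j : ℝ)).indicator h x‖ ≤ ∫ x, ‖h x‖ :=
    integral_mono_of_nonneg (Eventually.of_forall fun x => norm_nonneg _) hhi.norm
      (Eventually.of_forall fun x => norm_indicator_le_norm_self _ _)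
  have s5 : ‖BF p h g - BF p ((closedBall (0 : EE n) (j : ℝ)).indicator h)
      ((closedBall (0 : EE n) (j : ℝ)).indicator g)‖ ≤
      ((∫ x, ‖h x - (closedBall (0 : EE n) j).indicator h x‖) * (∫ x, ‖g x‖) +
      (∫ x, ‖h x‖) * ∫ x, ‖g x - (closedBall (0 : EE n) j).indicator g x‖) := by
    refine s3.trans (add_le_add le_rfl ?_)
    exact mul_le_mul_of_nonneg_right s4 (by positivity)
  have s6 := norm_add_le (BF p ((closedBall (0 : EE n) (j : ℝ)).indicator h)
      ((closedBall (0 : EE n) (j : ℝ)).indicator g))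
      (BF p h g - BF p ((closedBall (0 : EE n) (j : ℝ)).indicator h)
      ((closedBall (0 : EE n) (j : ℝ)).indicator g))
  rw [add_sub_cancel] at s6
  exact s6.trans (add_le_add s2 s5)

/-- the constant -/
theorem bb_const (p : ℝ) (hp : 1 < p) :
    (Real.sqrt (p - 1) / p) ^ ((n : ℝ) * (1 - 1 / p)) * p ^ ((n : ℝ) / 2) =
      (p ^ (1 / p) * (p / (p - 1)) ^ (-(1 - 1 / p))) ^ ((n : ℝ) / 2) := by
  have hp0 : 0 < p := by linarith
  have hp1 : 0 < p - 1 := by linarith
  have e0 : Real.sqrt (p - 1) / p = Real.exp (Real.log (p - 1) / 2 - Real.log p) := by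
    rw [Real.exp_sub, Real.exp_log hp0, Real.sqrt_eq_rpow, Real.rpow_def_of_pos hp1]
    congr 2; ring
  rw [e0, ← Real.exp_mul, Real.rpow_def_of_pos hp0, Real.rpow_def_of_pos hp0,
    Real.rpow_def_of_pos (div_pos hp0 hp1), ← Real.exp_add, ← Real.exp_add, ← Real.exp_mul,
    Real.log_div hp0.ne' hp1.ne']
  congr 1
  field_simp
  ring

/-- the Babenko-Beckner inequality -/
theorem bb {n : ℕ} (p : ℝ) (hp : 1 < p) (hp2 : p ≤ 2) (h g : EE n → ℝ)
    (hhm : Measurable h) (hgm : Measurable g) (hh : Integrable h) (hg : Integrable g)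
    (hhb : ∃ C : ℝ, ∀ x, |h x| ≤ C) (hgb : ∃ C : ℝ, ∀ x, |g x| ≤ C) :
    |∫ x : EE n, h x * ∫ y : EE n, g y * Real.cos (2 * Real.pi * inner ℝ x y)| ≤
      (p ^ (1 / p) * (p / (p - 1)) ^ (-(1 - 1 / p))) ^ ((n : ℝ) / 2) *
      (∫ x : EE n, |h x| ^ p) ^ (1 / p) * (∫ x : EE n, |g x| ^ p) ^ (1 / p) := by
  have hp0 : 0 < p := by linarith
  have hp1 : 0 < p - 1 := by linarith
  set κ : ℝ := Real.sqrt (p - 1) / p with hκ
  have hκ0 : 0 < κ := div_pos (Real.sqrt_pos.2 hp1) hp0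
  set β : ℝ := Real.sqrt (κ / (2 * Real.pi)) with hβ
  have hpi : 0 < 2 * Real.pi := by positivity
  have hβ0 : 0 < β := Real.sqrt_pos.2 (div_pos hκ0 hpi)
  have hβ2 : 2 * Real.pi * (β * β) = κ := by
    rw [hβ, Real.mul_self_sqrt (div_pos hκ0 hpi).le]; field_simp
  set H : EE n → ℂ := fun x => (h (β • x) : ℂ) with hH
  set G : EE n → ℂ := fun x => (g (β • x) : ℂ) with hG
  have hHi : Integrable H := (hh.comp_smul hβ0.ne').ofReal
  have hGi : Integrable G := (hg.comp_smul hβ0.ne').ofReal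
  have hHm : Measurable H := Complex.measurable_ofReal.comp (hhm.comp (measurable_const_smul β))
  have hGm : Measurable G := Complex.measurable_ofReal.comp (hgm.comp (measurable_const_smul β))
  have hHb : ∃ C : ℝ, ∀ x, ‖H x‖ ≤ C := by
    obtain ⟨C, hC⟩ := hhb
    exact ⟨C, fun x => by simpa [hH] using hC (β • x)⟩
  have hGb : ∃ C : ℝ, ∀ x, ‖G x‖ ≤ C := by
    obtain ⟨C, hC⟩ := hgb
    exact ⟨C, fun x => by simpa [hG] using hC (β • x)⟩
  have main := bb_step2 p hp hp2 H G hHm hGm hHi hGi hHb hGb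
  have hnorm : ∀ f : EE n → ℝ, ∫ x : EE n, ‖((f (β • x) : ℝ) : ℂ)‖ ^ p =
      (β ^ n)⁻¹ * ∫ x : EE n, |f x| ^ p := by
    intro f
    have := Measure.integral_comp_smul (volume : Measure (EE n)) (fun x => |f x| ^ p) β
    simp only [finrank_euclideanSpace, Fintype.card_fin, smul_eq_mul] at this
    rw [abs_of_pos (by positivity)] at this
    rw [← this]
    simp
  rw [hnorm h, hnorm g] at main
  -- the double integral
  set E : EE n → EE n → ℂ := fun x y => (h x : ℂ) * (g y : ℂ) *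
    Complex.exp (Complex.I * ((2 * Real.pi * inner ℝ x y : ℝ) : ℂ)) with hE
  have hBF : BF p H G = (((β ^ n)⁻¹ : ℝ) : ℂ) * ((((β ^ n)⁻¹ : ℝ) : ℂ) * ∫ x : EE n, ∫ y : EE n, E x y) := by
    unfold BF
    have e1 : ∀ x y : EE n, H x * G y * Complex.exp (Complex.I *
        ((Real.sqrt (p - 1) / p * inner ℝ x y : ℝ) : ℂ)) = E (β • x) (β • y) := by
      intro x y
      simp only [hH, hG, hE]
      have e3 : Real.sqrt (p - 1) / p * inner ℝ x y = 2 * Real.pi * inner ℝ (β • x) (β • y) := by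
        rw [← hκ, ← hβ2, real_inner_smul_left, real_inner_smul_right]
        ring
      rw [e3]
    simp_rw [e1]
    have e2 : ∀ x : EE n, ∫ y : EE n, E (β • x) (β • y) =
        (((β ^ n)⁻¹ : ℝ) : ℂ) * ∫ y : EE n, E (β • x) y := by
      intro x
      have := Measure.integral_comp_smul (volume : Measure (EE n)) (fun y => E (β • x) y) β
      simp only [finrank_euclideanSpace, Fintype.card_fin] at this
      rw [abs_of_pos (by positivity)] at this
      rw [this, Complex.real_smul]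
    simp_rw [e2]
    rw [integral_const_mul]
    have := Measure.integral_comp_smul (volume : Measure (EE n)) (fun x => ∫ y : EE n, E x y) β
    simp only [finrank_euclideanSpace, Fintype.card_fin] at this
    rw [abs_of_pos (by positivity)] at this
    rw [this, Complex.real_smul]
  have hre : ∫ x : EE n, h x * ∫ y : EE n, g y * Real.cos (2 * Real.pi * inner ℝ x y) =
      (∫ x : EE n, ∫ y : EE n, E x y).re := by
    have hEi : Integrable (fun z : EE n × EE n => E z.1 z.2)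
        ((volume : Measure (EE n)).prod (volume : Measure (EE n))) := by
      have := bb_int (2 * Real.pi) (hh.ofReal (𝕜 := ℂ)) (hg.ofReal (𝕜 := ℂ))
      exact this
    rw [← RCLike.re_eq_complex_re, ← integral_re hEi.integral_prod_left]
    apply integral_congr_ae
    filter_upwards [hEi.prod_right_ae] with x hx
    rw [← integral_re hx, ← integral_const_mul]
    apply integral_congr_ae
    filter_upwards with y
    simp only [hE]
    rw [mul_comm Complex.I, Complex.exp_mul_I, ← Complex.ofReal_cos, ← Complex.ofReal_sin,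
      ← Complex.ofReal_mul, RCLike.re_eq_complex_re, Complex.re_ofReal_mul, Complex.add_re,
      Complex.re_ofReal_mul, Complex.I_re, mul_zero, add_zero, Complex.ofReal_re]
    ring
  rw [hre]
  refine (Complex.abs_re_le_norm _).trans ?_
  have hβn : 0 < β ^ n := by positivity
  have hn : ‖∫ x : EE n, ∫ y : EE n, E x y‖ = (β ^ n) * (β ^ n) * ‖BF p H G‖ := by
    rw [hBF, norm_mul, norm_mul, Complex.norm_real, Real.norm_of_nonneg (by positivity)]
    field_simp
  rw [hn, ← bb_const p hp]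
  set A : ℝ := ∫ x : EE n, |h x| ^ p with hA
  set B : ℝ := ∫ x : EE n, |g x| ^ p with hB
  have hA0 : 0 ≤ A := by positivity
  have hB0 : 0 ≤ B := by positivity
  refine (mul_le_mul_of_nonneg_left main (by positivity)).trans (le_of_eq ?_)
  rw [Real.mul_rpow (by positivity) hA0, Real.mul_rpow (by positivity) hB0]
  have hc : β ^ n * β ^ n * ((2 * Real.pi) ^ ((n : ℝ) * (1 - 1 / p)) * p ^ ((n : ℝ) / 2)) *
      ((β ^ n)⁻¹ ^ (1 / p) * (β ^ n)⁻¹ ^ (1 / p)) =
      (Real.sqrt (p - 1) / p) ^ ((n : ℝ) * (1 - 1 / p)) * p ^ ((n : ℝ) / 2) := by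
    rw [← hκ, ← hβ2]
    have e1 : β ^ n = β ^ (n : ℝ) := (Real.rpow_natCast β n).symm
    rw [e1, ← Real.rpow_neg hβ0.le, ← Real.rpow_mul hβ0.le,
      Real.mul_rpow hpi.le (by positivity), ← pow_two β, ← Real.rpow_natCast β 2,
      ← Real.rpow_mul hβ0.le]
    have e2 : β ^ (n : ℝ) * β ^ (n : ℝ) * (β ^ (-(n : ℝ) * (1 / p)) * β ^ (-(n : ℝ) * (1 / p))) =
        β ^ (((2 : ℕ) : ℝ) * ((n : ℝ) * (1 - 1 / p))) := by
      rw [← Real.rpow_add hβ0, ← Real.rpow_add hβ0, ← Real.rpow_add hβ0]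
      congr 1
      push_cast; ring
    rw [← e2]
    ring
  rw [← hc]
  ring

end BB

end Pool.Agent.Lib.MP_7548d4_gt.F
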