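import Pool.Agent.Lib.MP_7548d4_gt.F.Defs

/-!
# Elementary facts on gauges and their Gaussians
-/

set_option autoImplicit false
open MeasureTheory Metric Set Filter Topology

namespace Pool.Agent.Lib.MP_7548d4_gt.F

variable {n : ℕ}

theorem Gauge.pos {N : EE n → ℝ} (h : Gauge N) {x : EE n} (hx : x ≠ 0) : 0 < N x := by
  obtain ⟨c, hc, h1⟩ := h.lower
  exact lt_of_lt_of_le (mul_pos hc (norm_pos_iff.2 hx)) (h1 x)

theorem Gauge.nonneg {N : EE n → ℝ} (h : Gauge N) (x : EE n) : 0 ≤ N x := by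
  obtain ⟨c, hc, h1⟩ := h.lower
  exact le_trans (mul_nonneg hc.le (norm_nonneg x)) (h1 x)

theorem Gauge.zero {N : EE n → ℝ} (h : Gauge N) : N 0 = 0 := by
  have h1 := h.hom 0 le_rfl 0
  rwa [zero_smul, zero_mul] at h1

theorem Gauge.upper {N : EE n → ℝ} (h : Gauge N) : ∃ C : ℝ, 0 < C ∧ ∀ x, N x ≤ C * ‖x‖ := by
  obtain ⟨C, hC⟩ := (isCompact_sphere (0 : EE n) 1).exists_bound_of_continuousOn
    h.cont.continuousOn
  refine ⟨max C 1, lt_of_lt_of_le one_pos (le_max_right _ _), fun x => ?_⟩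
  rcases eq_or_ne x 0 with rfl | hx
  · rw [h.zero, norm_zero, mul_zero]
  · have hx' : ‖x‖ ≠ 0 := norm_ne_zero_iff.2 hx
    have h1 : N x = ‖x‖ * N (‖x‖⁻¹ • x) := by
      rw [← h.hom ‖x‖ (norm_nonneg x), smul_smul, mul_inv_cancel₀ hx', one_smul]
    have h2 : ‖x‖⁻¹ • x ∈ sphere (0 : EE n) 1 := by
      rw [mem_sphere_zero_iff_norm, norm_smul, norm_inv, norm_norm, inv_mul_cancel₀ hx']
    have h3 : N (‖x‖⁻¹ • x) ≤ max C 1 :=
      (le_abs_self _).trans ((hC _ h2).trans (le_max_left _ _))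
    rw [h1, mul_comm]
    exact mul_le_mul_of_nonneg_right h3 (norm_nonneg x)

theorem gauge_norm (n : ℕ) : Gauge (fun x : EE n => ‖x‖) where
  cont := continuous_norm
  lower := ⟨1, one_pos, fun x => by rw [one_mul]⟩
  hom := fun r hr x => by
    show ‖r • x‖ = r * ‖x‖
    rw [norm_smul, Real.norm_of_nonneg hr]
  even := fun x => norm_neg x

theorem Gauge.scale {N : EE n → ℝ} (h : Gauge N) (r : ℝ) (hr : 0 < r) :
    Gauge (fun x => r * N x) where
  cont := continuous_const.mul h.cont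
  lower := by
    obtain ⟨c, hc, h1⟩ := h.lower
    exact ⟨r * c, mul_pos hr hc, fun x => by
      rw [mul_assoc]
      exact mul_le_mul_of_nonneg_left (h1 x) hr.le⟩
  hom := fun s hs x => by
    show r * N (s • x) = s * (r * N x)
    rw [h.hom s hs]
    ring
  even := fun x => by
    show r * N (-x) = r * N x
    rw [h.even]

theorem ga_cont {N : EE n → ℝ} (h : Gauge N) : Continuous (ga N) := by
  have := h.cont
  unfold ga
  fun_prop

theorem ga_pos (N : EE n → ℝ) (x : EE n) : 0 < ga N x := Real.exp_pos _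

theorem ga_le_one (N : EE n → ℝ) (x : EE n) : ga N x ≤ 1 := by
  unfold ga
  rw [Real.exp_le_one_iff]
  have := mul_nonneg Real.pi_pos.le (sq_nonneg (N x))
  linarith

/-- integrability of Gaussians -/
theorem basic_gauss_integrable (n : ℕ) (b : ℝ) (hb : 0 < b) :
    Integrable (fun x : EE n => Real.exp (-(b * ‖x‖ ^ 2))) := by
  have h := GaussianFourier.integrable_cexp_neg_mul_sq_norm_add (b := (b : ℂ)) (V := EE n)
    (by simpa using hb) 0 0
  refine h.norm.congr (Eventually.of_forall fun x => ?_)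
  show ‖Complex.exp (-(b : ℂ) * (‖x‖ : ℂ) ^ 2 + 0 * ((inner ℝ (0 : EE n) x : ℝ) : ℂ))‖ = _
  have e : (-(b : ℂ) * (‖x‖ : ℂ) ^ 2 + 0 * ((inner ℝ (0 : EE n) x : ℝ) : ℂ)) =
      ((-(b * ‖x‖ ^ 2) : ℝ) : ℂ) := by
    push_cast
    ring
  rw [e, ← Complex.ofReal_exp, Complex.norm_of_nonneg (Real.exp_nonneg _)]

theorem ga_integrable {N : EE n → ℝ} (h : Gauge N) : Integrable (ga N) := by
  obtain ⟨c, hc, h1⟩ := h.lower
  refine (basic_gauss_integrable n (Real.pi * c ^ 2) (by positivity)).mono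
    (ga_cont h).aestronglyMeasurable (Eventually.of_forall fun x => ?_)
  rw [Real.norm_of_nonneg (ga_pos N x).le, Real.norm_of_nonneg (Real.exp_nonneg _)]
  unfold ga
  apply Real.exp_le_exp.2
  have h2 : (c * ‖x‖) ^ 2 ≤ N x ^ 2 := by
    have h3 : 0 ≤ c * ‖x‖ := by positivity
    exact pow_le_pow_left₀ h3 (h1 x) 2
  have h3 := mul_le_mul_of_nonneg_left h2 Real.pi_pos.le
  have h4 : Real.pi * c ^ 2 * ‖x‖ ^ 2 = Real.pi * (c * ‖x‖) ^ 2 := by ring
  rw [h4]
  linarith

theorem ga_memLp {N : EE n → ℝ} (h : Gauge N) : MemLp (ga N) 2 (volume : Measure (EE n)) := by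
  rw [memLp_two_iff_integrable_sq (ga_cont h).aestronglyMeasurable]
  refine (ga_integrable h).mono ((ga_cont h).pow 2).aestronglyMeasurable
    (Eventually.of_forall fun x => ?_)
  have h1 := ga_pos N x
  have h2 := ga_le_one N x
  rw [Real.norm_of_nonneg (sq_nonneg _), Real.norm_of_nonneg h1.le]
  nlinarith

theorem ga_smul {N : EE n → ℝ} (h : Gauge N) (t : ℝ) (ht : 0 ≤ t) (x : EE n) :
    ga N (t • x) = Real.exp (-(Real.pi * t ^ 2 * N x ^ 2)) := by
  unfold ga
  rw [h.hom t ht]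
  congr 2
  ring

/-- `∫ exp(-b N^2) = (π/b)^(n/2) gv N` -/
theorem integral_exp_gauge {N : EE n → ℝ} (h : Gauge N) (b : ℝ) (hb : 0 < b) :
    ∫ x : EE n, Real.exp (-(b * N x ^ 2)) = (Real.pi / b) ^ ((n : ℝ) / 2) * gv N := by
  have hr : 0 ≤ Real.sqrt (b / Real.pi) := Real.sqrt_nonneg _
  have h1 : ∀ x : EE n, Real.exp (-(b * N x ^ 2)) = ga N (Real.sqrt (b / Real.pi) • x) := by
    intro x
    rw [ga_smul h _ hr, Real.sq_sqrt (by positivity)]
    congr 3
    field_simp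
  simp only [h1]
  rw [Measure.integral_comp_smul, finrank_euclideanSpace_fin, smul_eq_mul, gv]
  congr 1
  rw [abs_of_nonneg (by positivity), Real.sqrt_eq_rpow, ← Real.rpow_natCast, ← Real.rpow_mul
    (by positivity), ← Real.inv_rpow (by positivity), inv_div]
  congr 1
  ring

theorem gv_pos {N : EE n → ℝ} (h : Gauge N) : 0 < gv N := by
  unfold gv
  rw [integral_pos_iff_support_of_nonneg (fun x => (ga_pos N x).le) (ga_integrable h)]
  have : Function.support (ga N) = Set.univ := by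
    ext x
    simp [(ga_pos N x).ne']
  rw [this]
  exact isOpen_univ.measure_pos _ univ_nonempty

theorem gh_cont {N : EE n → ℝ} (h : Gauge N) : Continuous (gh N) := by
  unfold gh
  refine continuous_of_dominated (bound := ga N) (fun x => ?_) (fun x => ?_) (ga_integrable h) ?_
  · apply Continuous.aestronglyMeasurable
    have := ga_cont h
    fun_prop
  · refine Eventually.of_forall fun y => ?_
    rw [norm_mul, Real.norm_of_nonneg (ga_pos N y).le]
    exact mul_le_of_le_one_right (ga_pos N y).le (Real.abs_cos_le_one _)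
  · refine Eventually.of_forall fun y => ?_
    fun_prop

theorem gh_abs_le {N : EE n → ℝ} (h : Gauge N) (x : EE n) : |gh N x| ≤ gv N := by
  unfold gh gv
  rw [← Real.norm_eq_abs]
  refine norm_integral_le_of_norm_le (ga_integrable h) (Eventually.of_forall fun y => ?_)
  rw [norm_mul, Real.norm_of_nonneg (ga_pos N y).le]
  exact mul_le_of_le_one_right (ga_pos N y).le (Real.abs_cos_le_one _)

theorem gh_norm : gh (fun x : EE n => ‖x‖) = ga (fun x : EE n => ‖x‖) := by
  funext x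
  have hre : 0 < (Real.pi : ℂ).re := by simpa using Real.pi_pos
  have h1 := GaussianFourier.integral_cexp_neg_mul_sq_norm_add (b := (Real.pi : ℂ)) (V := EE n)
    hre (2 * Real.pi * Complex.I) x
  have h2 := GaussianFourier.integrable_cexp_neg_mul_sq_norm_add (b := (Real.pi : ℂ))
    (V := EE n) hre (2 * Real.pi * Complex.I) x
  have h3 := integral_re h2
  rw [h1] at h3
  have hpi : (Real.pi : ℂ) ≠ 0 := by exact_mod_cast Real.pi_ne_zero
  have h4 : ((Real.pi : ℂ) / (Real.pi : ℂ)) ^ ((Module.finrank ℝ (EE n) : ℂ) / 2) *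
      Complex.exp ((2 * Real.pi * Complex.I) ^ 2 * (‖x‖ : ℂ) ^ 2 / (4 * (Real.pi : ℂ))) =
      ((Real.exp (-(Real.pi * ‖x‖ ^ 2)) : ℝ) : ℂ) := by
    rw [div_self hpi, Complex.one_cpow, one_mul]
    push_cast
    congr 1
    rw [mul_pow, Complex.I_sq]
    field_simp
    ring
  rw [h4] at h3
  unfold gh ga
  rw [← Complex.ofReal_re (Real.exp (-(Real.pi * ‖x‖ ^ 2)))]
  refine Eq.trans ?_ h3
  congr 1
  funext y
  show _ = (Complex.exp (-(Real.pi : ℂ) * (‖y‖ : ℂ) ^ 2 + 2 * Real.pi * Complex.I *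
    ((inner ℝ x y : ℝ) : ℂ))).re
  have e : (-(Real.pi : ℂ) * (‖y‖ : ℂ) ^ 2 + 2 * Real.pi * Complex.I *
      ((inner ℝ x y : ℝ) : ℂ)) = ((-(Real.pi * ‖y‖ ^ 2) : ℝ) : ℂ) +
      ((2 * Real.pi * inner ℝ x y : ℝ) : ℂ) * Complex.I := by
    push_cast
    ring
  rw [e, Complex.exp_add, ← Complex.ofReal_exp, Complex.re_ofReal_mul, Complex.exp_ofReal_mul_I_re]

theorem gv_norm : gv (fun x : EE n => ‖x‖) = 1 := by
  have h1 : gh (fun x : EE n => ‖x‖) 0 = gv (fun x : EE n => ‖x‖) := by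
    unfold gh gv
    simp
  rw [← h1, gh_norm]
  unfold ga
  simp

theorem gJ_norm (t : ℝ) : gJ (fun x : EE n => ‖x‖) (fun x : EE n => ‖x‖) t =
    (1 + t ^ 2) ^ (-((n : ℝ) / 2)) := by
  unfold gJ
  rw [gh_norm]
  have h1 : ∀ x : EE n, ga (fun x : EE n => ‖x‖) (t • x) * ga (fun x : EE n => ‖x‖) x =
      Real.exp (-(Real.pi * (1 + t ^ 2) * ‖x‖ ^ 2)) := by
    intro x
    unfold ga
    rw [← Real.exp_add]
    congr 1
    simp only [norm_smul, mul_pow, Real.norm_eq_abs, sq_abs]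
    ring
  simp only [h1]
  have hpos : 0 < 1 + t ^ 2 := by positivity
  rw [integral_exp_gauge (gauge_norm n) _ (by positivity), gv_norm, mul_one,
    Real.rpow_neg hpos.le, ← Real.inv_rpow hpos.le]
  congr 1
  field_simp

end Pool.Agent.Lib.MP_7548d4_gt.F
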