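import Pool.Agent.Lib.MP_7548d4_gt.F.Planch

/-!
# Values of the form with the Laplace kernel
-/

set_option autoImplicit false
open MeasureTheory Metric Set Filter Topology

namespace Pool.Agent.Lib.MP_7548d4_gt.F

theorem formval_inner {n : ℕ} {N : EE n → ℝ} (hN : Gauge N) {t : ℝ} (ht : 0 < t) :
    ∫ x : EE n, ga N (t • x) * ga N x = gv N * (1 + t ^ 2) ^ (-((n : ℝ) / 2)) := by
  have h1 : ∀ x : EE n, ga N (t • x) * ga N x =
      Real.exp (-(Real.pi * (1 + t ^ 2) * N x ^ 2)) := by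
    intro x
    rw [ga_smul hN t ht.le, ga, ← Real.exp_add]
    congr 1
    ring
  simp only [h1]
  rw [integral_exp_gauge hN _ (by positivity), mul_comm]
  congr 1
  have h2 : Real.pi / (Real.pi * (1 + t ^ 2)) = (1 + t ^ 2)⁻¹ := by
    have := Real.pi_pos
    field_simp
  rw [h2, Real.inv_rpow (by positivity), Real.rpow_neg (by positivity)]

theorem bf_ga {n : ℕ} {N : EE n → ℝ} (hN : Gauge N) (c : ℝ) : bf c (ga N) (ga N) =
    gv N * ∫ t in Ioi (0 : ℝ), t ^ ((n : ℝ) / 2 - 1) * (min t t⁻¹) ^ c *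
      (1 + t ^ 2) ^ (-((n : ℝ) / 2)) := by
  unfold bf
  rw [← integral_const_mul]
  refine setIntegral_congr_fun measurableSet_Ioi fun t ht => ?_
  have ht0 : 0 < t := ht
  rw [formval_inner hN ht0]
  ring

theorem bf_gh {n : ℕ} {M : EE n → ℝ} (hM : Gauge M) (c : ℝ) :
    bf c (gh M) (gh M) = bf c (ga M) (ga M) := by
  set G : ℝ → ℝ := fun t => t ^ ((n : ℝ) / 2 - 1) * (min t t⁻¹) ^ c *
    ∫ x : EE n, ga M (t • x) * ga M x with hG
  have h1 : bf c (gh M) (gh M) = ∫ t in Ioi (0 : ℝ), t ^ (-1 - 1 : ℝ) * G (t ^ (-1 : ℝ)) := by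
    unfold bf
    refine setIntegral_congr_fun measurableSet_Ioi fun t ht => ?_
    have ht0 : 0 < t := ht
    simp only [hG]
    rw [gh_planch hM t ht0, Real.rpow_neg_one, inv_inv, min_comm t⁻¹ t]
    have h2 : t ^ (-1 - 1 : ℝ) * t⁻¹ ^ ((n : ℝ) / 2 - 1) =
        t ^ ((n : ℝ) / 2 - 1) * (t ^ n)⁻¹ := by
      rw [Real.inv_rpow ht0.le, ← Real.rpow_neg ht0.le, ← Real.rpow_add ht0,
        ← Real.rpow_natCast t n, ← Real.rpow_neg ht0.le, ← Real.rpow_add ht0]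
      congr 1
      ring
    calc t ^ ((n : ℝ) / 2 - 1) * min t t⁻¹ ^ c *
          ((t ^ n)⁻¹ * ∫ x : EE n, ga M (t⁻¹ • x) * ga M x)
        = (t ^ ((n : ℝ) / 2 - 1) * (t ^ n)⁻¹) * min t t⁻¹ ^ c *
          ∫ x : EE n, ga M (t⁻¹ • x) * ga M x := by ring
      _ = _ := by rw [← h2]; ring
  have h3 : bf c (ga M) (ga M) = ∫ t in Ioi (0 : ℝ), G t := rfl
  rw [h1, h3]
  have h4 := integral_comp_rpow_Ioi G (p := -1) (by norm_num)
  rw [← h4]
  refine setIntegral_congr_fun measurableSet_Ioi fun t ht => ?_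
  simp

end Pool.Agent.Lib.MP_7548d4_gt.F
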