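import Pool.Agent.Lib.MP_7548d4_gt.F.Defs

/-!
# The form with the Laplace kernel is positive semidefinite
-/

set_option autoImplicit false
open MeasureTheory Metric Set Filter Topology

namespace Pool.Agent.Lib.MP_7548d4_gt.F

section PSDaux

variable {n : ℕ}

/-- dilations of square integrable functions are square integrable -/
theorem psd_memLp_smul {h : EE n → ℝ} (hm : Measurable h)
    (H : MemLp h 2 (volume : Measure (EE n))) {r : ℝ} (hr : 0 < r) :
    MemLp (fun x : EE n => h (r • x)) 2 (volume : Measure (EE n)) := by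
  have h1 : AEStronglyMeasurable (fun x : EE n => h (r • x)) (volume : Measure (EE n)) :=
    (hm.comp (measurable_const_smul r)).aestronglyMeasurable
  rw [memLp_two_iff_integrable_sq h1]
  have h2 : Integrable (fun x : EE n => h x ^ 2) := (memLp_two_iff_integrable_sq H.1).1 H
  exact h2.comp_smul hr.ne'

/-- the square integral of a dilation -/
theorem psd_sq_smul (h : EE n → ℝ) {r : ℝ} (hr : 0 < r) :
    ∫ x : EE n, h (r • x) ^ 2 = (r ^ n)⁻¹ * ∫ x : EE n, h x ^ 2 := by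
  have := Measure.integral_comp_smul_of_nonneg (volume : Measure (EE n))
    (fun x : EE n => h x ^ 2) r (hR := hr.le)
  rw [this, finrank_euclideanSpace, Fintype.card_fin, smul_eq_mul]

/-- Cauchy-Schwarz -/
theorem psd_cs {α : Type*} [MeasurableSpace α] {μ : Measure α} {f g : α → ℝ}
    (hf : MemLp f 2 μ) (hg : MemLp g 2 μ) :
    ∫ x, |f x * g x| ∂μ ≤ Real.sqrt (∫ x, f x ^ 2 ∂μ) * Real.sqrt (∫ x, g x ^ 2 ∂μ) := by
  have h1 := integral_mul_le_Lp_mul_Lq_of_nonneg (μ := μ) (p := 2) (q := 2)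
    (f := fun x => |f x|) (g := fun x => |g x|) Real.HolderConjugate.two_two
    (Eventually.of_forall fun x => abs_nonneg _) (Eventually.of_forall fun x => abs_nonneg _)
    (by rw [ENNReal.ofReal_ofNat]; exact hf.abs) (by rw [ENNReal.ofReal_ofNat]; exact hg.abs)
  have e1 : ∀ x, |f x| * |g x| = |f x * g x| := fun x => (abs_mul _ _).symm
  have e2 : ∀ y : ℝ, |y| ^ (2 : ℝ) = y ^ 2 := fun y => by
    rw [Real.rpow_two, sq_abs]
  simp only [e1, e2] at h1
  rw [Real.sqrt_eq_rpow, Real.sqrt_eq_rpow]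
  exact h1

/-- the pairing of a dilation -/
noncomputable def psdK (h1 h2 : EE n → ℝ) (t : ℝ) : ℝ := ∫ x : EE n, h1 (t • x) * h2 x

/-- the `L^2` norm -/
noncomputable def psdA (h : EE n → ℝ) : ℝ := Real.sqrt (∫ x : EE n, h x ^ 2)

theorem psd_pair_scale (h1 h2 : EE n → ℝ) {r s : ℝ} (hs : 0 < s) :
    ∫ x : EE n, h1 (r • x) * h2 (s • x) = (s ^ n)⁻¹ * psdK h1 h2 (r / s) := by
  have := Measure.integral_comp_smul_of_nonneg (volume : Measure (EE n))
    (fun x : EE n => h1 ((r / s) • x) * h2 x) s (hR := hs.le)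
  rw [finrank_euclideanSpace, Fintype.card_fin, smul_eq_mul] at this
  unfold psdK
  rw [← this]
  congr 1
  ext x
  rw [smul_smul, div_mul_cancel₀ _ hs.ne']

theorem psd_sqrt_pow {r : ℝ} (hr : 0 < r) (n : ℕ) :
    Real.sqrt ((r ^ n)⁻¹) = r ^ (-((n : ℝ) / 2)) := by
  rw [Real.sqrt_eq_rpow, ← Real.rpow_natCast, ← Real.rpow_neg hr.le, ← Real.rpow_mul hr.le]
  congr 1
  ring

theorem psd_pair_int {h1 h2 : EE n → ℝ} (m1 : Measurable h1) (m2 : Measurable h2)
    (H1 : MemLp h1 2 (volume : Measure (EE n))) (H2 : MemLp h2 2 (volume : Measure (EE n)))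
    {r s : ℝ} (hr : 0 < r) (hs : 0 < s) :
    Integrable (fun x : EE n => h1 (r • x) * h2 (s • x)) := by
  exact (psd_memLp_smul m1 H1 hr).integrable_mul (psd_memLp_smul m2 H2 hs)

theorem psd_pair_bound {h1 h2 : EE n → ℝ} (m1 : Measurable h1) (m2 : Measurable h2)
    (H1 : MemLp h1 2 (volume : Measure (EE n))) (H2 : MemLp h2 2 (volume : Measure (EE n)))
    {r s : ℝ} (hr : 0 < r) (hs : 0 < s) :
    ∫ x : EE n, |h1 (r • x) * h2 (s • x)| ≤
      r ^ (-((n : ℝ) / 2)) * s ^ (-((n : ℝ) / 2)) * (psdA h1 * psdA h2) := by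
  have h := psd_cs (psd_memLp_smul m1 H1 hr) (psd_memLp_smul m2 H2 hs)
  rw [psd_sq_smul h1 hr, psd_sq_smul h2 hs, Real.sqrt_mul (by positivity),
    Real.sqrt_mul (by positivity), psd_sqrt_pow hr, psd_sqrt_pow hs] at h
  unfold psdA
  calc _ ≤ _ := h
    _ = _ := by ring

theorem psd_meas {h1 h2 : EE n → ℝ} (m1 : Measurable h1) (m2 : Measurable h2) :
    Measurable (fun q : (ℝ × ℝ) × EE n => h1 (q.1.1 • q.2) * h2 (q.1.2 • q.2)) := by
  have a1 : Measurable (fun q : (ℝ × ℝ) × EE n => q.1.1 • q.2) :=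
    (measurable_fst.comp measurable_fst).smul measurable_snd
  have a2 : Measurable (fun q : (ℝ × ℝ) × EE n => q.1.2 • q.2) :=
    (measurable_snd.comp measurable_fst).smul measurable_snd
  exact (m1.comp a1).mul (m2.comp a2)

theorem psd_K_meas {h1 h2 : EE n → ℝ} (m1 : Measurable h1) (m2 : Measurable h2) :
    Measurable (psdK h1 h2) := by
  have a1 : Measurable (fun q : ℝ × EE n => q.1 • q.2) := measurable_fst.smul measurable_snd
  have a2 : Measurable (Function.uncurry fun (t : ℝ) (x : EE n) => h1 (t • x) * h2 x) :=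
    (m1.comp a1).mul (m2.comp measurable_snd)
  exact (a2.stronglyMeasurable.integral_prod_right (ν := (volume : Measure (EE n)))).measurable

theorem psd_K_bound {h1 h2 : EE n → ℝ} (m1 : Measurable h1) (m2 : Measurable h2)
    (H1 : MemLp h1 2 (volume : Measure (EE n))) (H2 : MemLp h2 2 (volume : Measure (EE n)))
    {t : ℝ} (ht : 0 < t) : |psdK h1 h2 t| ≤ t ^ (-((n : ℝ) / 2)) * (psdA h1 * psdA h2) := by
  have h := psd_pair_bound m1 m2 H1 H2 ht one_pos
  simp only [one_smul, Real.one_rpow, mul_one] at h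
  exact (abs_integral_le_integral_abs).trans h

/-- the weight -/
noncomputable def psdw (n : ℕ) (c r : ℝ) : ℝ := r ^ ((n : ℝ) / 2 - 1 - c)

theorem psd_w_meas (n : ℕ) (c : ℝ) : Measurable (psdw n c) := measurable_id.pow_const _

theorem psd_tail_int {c : ℝ} (hc : 0 < c) :
    Integrable (fun r : ℝ => r ^ (-1 - c)) (volume.restrict (Ioi (1 : ℝ))) :=
  integrableOn_Ioi_rpow_of_lt (by linarith) one_pos

/-- the integrand on the product space -/
noncomputable def psdF (c : ℝ) (h1 h2 : EE n → ℝ) (q : (ℝ × ℝ) × EE n) : ℝ :=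
  psdw n c q.1.1 * psdw n c q.1.2 * (h1 (q.1.1 • q.2) * h2 (q.1.2 • q.2))

theorem psd_F_meas {c : ℝ} {h1 h2 : EE n → ℝ} (m1 : Measurable h1) (m2 : Measurable h2) :
    Measurable (psdF c h1 h2) := by
  have b1 : Measurable (fun q : (ℝ × ℝ) × EE n => psdw n c q.1.1) :=
    (psd_w_meas n c).comp (measurable_fst.comp measurable_fst)
  have b2 : Measurable (fun q : (ℝ × ℝ) × EE n => psdw n c q.1.2) :=
    (psd_w_meas n c).comp (measurable_snd.comp measurable_fst)
  exact (b1.mul b2).mul (psd_meas m1 m2)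

/-- the measure on pairs of scales -/
noncomputable def psdm : Measure (ℝ × ℝ) :=
  ((volume : Measure ℝ).restrict (Ioi (1 : ℝ))).prod ((volume : Measure ℝ).restrict (Ioi (1 : ℝ)))

instance : SFinite psdm := by unfold psdm; infer_instance

theorem psd_ae : ∀ᵐ q : ℝ × ℝ ∂psdm, 1 < q.1 ∧ 1 < q.2 := by
  unfold psdm
  rw [Measure.prod_restrict]
  have := ae_restrict_mem (μ := (volume : Measure ℝ).prod (volume : Measure ℝ))
    ((measurableSet_Ioi (a := (1 : ℝ))).prod (measurableSet_Ioi (a := (1 : ℝ))))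
  filter_upwards [this] with q hq
  exact ⟨hq.1, hq.2⟩

theorem psd_F_int {c : ℝ} (hc : 0 < c) {h1 h2 : EE n → ℝ} (m1 : Measurable h1) (m2 : Measurable h2)
    (H1 : MemLp h1 2 (volume : Measure (EE n))) (H2 : MemLp h2 2 (volume : Measure (EE n))) :
    Integrable (psdF c h1 h2) (psdm.prod (volume : Measure (EE n))) := by
  rw [integrable_prod_iff (psd_F_meas m1 m2).aestronglyMeasurable]
  refine ⟨?_, ?_⟩
  · filter_upwards [psd_ae] with q hq
    exact (psd_pair_int m1 m2 H1 H2 (one_pos.trans hq.1) (one_pos.trans hq.2)).const_mul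
      (psdw n c q.1 * psdw n c q.2)
  · have hb : Integrable (fun q : ℝ × ℝ => q.1 ^ (-1 - c) * q.2 ^ (-1 - c) *
        (psdA h1 * psdA h2)) psdm :=
      ((psd_tail_int hc).mul_prod (psd_tail_int hc)).mul_const _
    refine hb.mono' ?_ ?_
    · have : Measurable (fun q : (ℝ × ℝ) × EE n => ‖psdF c h1 h2 q‖) := (psd_F_meas m1 m2).norm
      exact (this.stronglyMeasurable.integral_prod_right
        (f := fun (x : ℝ × ℝ) (y : EE n) => ‖psdF c h1 h2 (x, y)‖)
        (ν := (volume : Measure (EE n)))).aestronglyMeasurable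
    · filter_upwards [psd_ae] with q hq
      have hq1 : 0 < q.1 := one_pos.trans hq.1
      have hq2 : 0 < q.2 := one_pos.trans hq.2
      have e1 : ∀ y : EE n, ‖psdF c h1 h2 (q, y)‖ = psdw n c q.1 * psdw n c q.2 *
          |h1 (q.1 • y) * h2 (q.2 • y)| := by
        intro y
        unfold psdF psdw
        rw [Real.norm_eq_abs, abs_mul, abs_of_nonneg (by positivity)]
      rw [Real.norm_eq_abs, abs_of_nonneg (integral_nonneg fun y => norm_nonneg _)]
      simp only [e1]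
      rw [integral_const_mul]
      have h3 := psd_pair_bound m1 m2 H1 H2 hq1 hq2
      have hw : 0 ≤ psdw n c q.1 * psdw n c q.2 := by unfold psdw; positivity
      refine (mul_le_mul_of_nonneg_left h3 hw).trans (le_of_eq ?_)
      have e2 : ∀ r : ℝ, 0 < r → psdw n c r * r ^ (-((n : ℝ) / 2)) = r ^ (-1 - c) := by
        intro r hr
        unfold psdw
        rw [← Real.rpow_add hr]
        congr 1
        ring
      calc _ = (psdw n c q.1 * q.1 ^ (-((n : ℝ) / 2))) * (psdw n c q.2 * q.2 ^ (-((n : ℝ) / 2))) *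
            (psdA h1 * psdA h2) := by ring
        _ = _ := by rw [e2 _ hq1, e2 _ hq2]

/-- the averages of the dilations -/
noncomputable def psdR (c : ℝ) (h : EE n → ℝ) (x : EE n) : ℝ :=
  ∫ r in Ioi (1 : ℝ), psdw n c r * h (r • x)

theorem psd_RR (c : ℝ) (h1 h2 : EE n → ℝ) (x : EE n) :
    psdR c h1 x * psdR c h2 x = ∫ q : ℝ × ℝ, psdF c h1 h2 (q, x) ∂psdm := by
  unfold psdR psdm psdF
  rw [← integral_prod_mul]
  congr 1
  ext q
  ring

theorem psd_RR_int {c : ℝ} (hc : 0 < c) {h1 h2 : EE n → ℝ} (m1 : Measurable h1)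
    (m2 : Measurable h2) (H1 : MemLp h1 2 (volume : Measure (EE n)))
    (H2 : MemLp h2 2 (volume : Measure (EE n))) :
    Integrable (fun x : EE n => psdR c h1 x * psdR c h2 x) := by
  simp only [psd_RR]
  exact (psd_F_int hc m1 m2 H1 H2).integral_prod_right

theorem psd_R_meas {c : ℝ} {h : EE n → ℝ} (m : Measurable h) : Measurable (psdR c h) := by
  have a1 : Measurable (fun q : EE n × ℝ => q.2 • q.1) := measurable_snd.smul measurable_fst
  have a2 : Measurable (Function.uncurry fun (x : EE n) (r : ℝ) => psdw n c r * h (r • x)) :=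
    ((psd_w_meas n c).comp measurable_snd).mul (m.comp a1)
  exact (a2.stronglyMeasurable.integral_prod_right
    (ν := (volume : Measure ℝ).restrict (Ioi 1))).measurable

theorem psd_R_memLp {c : ℝ} (hc : 0 < c) {h : EE n → ℝ} (m : Measurable h)
    (H : MemLp h 2 (volume : Measure (EE n))) :
    MemLp (psdR c h) 2 (volume : Measure (EE n)) := by
  rw [memLp_two_iff_integrable_sq (psd_R_meas m).aestronglyMeasurable]
  simpa only [sq] using psd_RR_int hc m m H H

theorem psd_inner_F (c : ℝ) (h1 h2 : EE n → ℝ) {r s : ℝ} (hs : 0 < s) :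
    ∫ x : EE n, psdF c h1 h2 ((r, s), x) =
      psdw n c r * psdw n c s * (s ^ n)⁻¹ * psdK h1 h2 (r / s) := by
  change ∫ x : EE n, psdw n c r * psdw n c s * (h1 (r • x) * h2 (s • x)) = _
  rw [integral_const_mul, psd_pair_scale h1 h2 hs]
  ring

/-- the integrable majorant -/
theorem psd_major {c : ℝ} (hc : 0 < c) :
    IntegrableOn (fun t : ℝ => t⁻¹ * (min t t⁻¹) ^ c) (Ioi (0 : ℝ)) := by
  rw [← Ioc_union_Ioi_eq_Ioi (zero_le_one' ℝ)]
  refine IntegrableOn.union ?_ ?_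
  · have h1 : IntegrableOn (fun t : ℝ => t ^ (c - 1)) (Ioc (0 : ℝ) 1) := by
      have := intervalIntegral.intervalIntegrable_rpow' (a := 0) (b := 1) (r := c - 1) (by linarith)
      rwa [intervalIntegrable_iff_integrableOn_Ioc_of_le zero_le_one] at this
    refine h1.congr_fun ?_ measurableSet_Ioc
    intro t ht
    have ht0 : 0 < t := ht.1
    have hmin : min t t⁻¹ = t := by
      apply min_eq_left
      rw [le_inv_comm₀ ht0 ht0]
      have : t * t ≤ 1 := by nlinarith [ht.2]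
      rw [le_inv_comm₀ ht0 ht0]
      rw [le_inv_comm₀ ht0 ht0, ← one_div, le_div_iff₀ ht0]
      exact this
    simp only [hmin]
    rw [Real.rpow_sub ht0, Real.rpow_one]
    field_simp
  · have h1 : IntegrableOn (fun t : ℝ => t ^ (-1 - c)) (Ioi (1 : ℝ)) := psd_tail_int hc
    refine h1.congr_fun ?_ measurableSet_Ioi
    intro t ht
    have ht1 : (1 : ℝ) < t := ht
    have ht0 : 0 < t := one_pos.trans ht1
    have hmin : min t t⁻¹ = t⁻¹ := by
      apply min_eq_right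
      rw [← one_div, div_le_iff₀ ht0]
      nlinarith
    simp only [hmin]
    rw [Real.inv_rpow ht0.le, Real.rpow_sub ht0, Real.rpow_neg_one]
    field_simp

theorem psd_bf_int {c : ℝ} (hc : 0 < c) {h1 h2 : EE n → ℝ} (m1 : Measurable h1)
    (m2 : Measurable h2) (H1 : MemLp h1 2 (volume : Measure (EE n)))
    (H2 : MemLp h2 2 (volume : Measure (EE n))) :
    IntegrableOn (fun t : ℝ => t ^ ((n : ℝ) / 2 - 1) * (min t t⁻¹) ^ c * psdK h1 h2 t)
      (Ioi 0) := by
  have hb : IntegrableOn (fun t : ℝ => t⁻¹ * (min t t⁻¹) ^ c * (psdA h1 * psdA h2)) (Ioi (0 : ℝ)) :=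
    (psd_major hc).mul_const _
  refine Integrable.mono' hb ?_ ?_
  · have b1 : Measurable (fun t : ℝ => t ^ ((n : ℝ) / 2 - 1)) := measurable_id.pow_const _
    have b2 : Measurable (fun t : ℝ => (min t t⁻¹) ^ c) :=
      (measurable_id.min measurable_inv).pow_const _
    exact ((b1.mul b2).mul (psd_K_meas m1 m2)).aestronglyMeasurable
  · filter_upwards [ae_restrict_mem measurableSet_Ioi] with t ht
    have ht0 : 0 < t := ht
    have hmin : 0 < min t t⁻¹ := lt_min ht0 (inv_pos.2 ht0)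
    rw [Real.norm_eq_abs, abs_mul, abs_of_nonneg (by positivity)]
    have h3 := psd_K_bound m1 m2 H1 H2 ht0
    have hw : 0 ≤ t ^ ((n : ℝ) / 2 - 1) * (min t t⁻¹) ^ c := by positivity
    refine (mul_le_mul_of_nonneg_left h3 hw).trans (le_of_eq ?_)
    have e2 : t ^ ((n : ℝ) / 2 - 1) * t ^ (-((n : ℝ) / 2)) = t⁻¹ := by
      rw [← Real.rpow_add ht0, ← Real.rpow_neg_one]
      congr 1
      ring
    calc _ = (t ^ ((n : ℝ) / 2 - 1) * t ^ (-((n : ℝ) / 2))) * (min t t⁻¹) ^ c *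
          (psdA h1 * psdA h2) := by ring
      _ = _ := by rw [e2]

/-- the weight of the Laplace kernel as an integral -/
theorem psd_weight {c : ℝ} (hc : 0 < c) (t : ℝ) :
    ∫ s in Ioi (1 : ℝ), (Ioi (t⁻¹)).indicator (fun s : ℝ => s ^ (-1 - 2 * c)) s =
      (max 1 t⁻¹) ^ (-(2 * c)) / (2 * c) := by
  rw [setIntegral_indicator measurableSet_Ioi, Ioi_inter_Ioi]
  rw [integral_Ioi_rpow_of_lt (by linarith) (lt_sup_iff.2 (Or.inl one_pos))]
  have : (-1 - 2 * c + 1) = -(2 * c) := by ring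
  rw [this]
  rw [neg_div_neg_eq]

theorem psd_weight2 (n : ℕ) (c : ℝ) {t : ℝ} (ht : 0 < t) :
    psdw n c t * (max 1 t⁻¹) ^ (-(2 * c)) = t ^ ((n : ℝ) / 2 - 1) * (min t t⁻¹) ^ c := by
  unfold psdw
  rcases le_total t 1 with h | h
  · have h2 : t ≤ t⁻¹ := h.trans ((one_le_inv₀ ht).2 h)
    rw [max_eq_right ((one_le_inv₀ ht).2 h), min_eq_left h2, Real.inv_rpow ht.le,
      ← Real.rpow_neg ht.le, ← Real.rpow_add ht, ← Real.rpow_add ht]
    congr 1
    ring
  · have h2 : t⁻¹ ≤ t := (inv_le_one_of_one_le₀ h).trans h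
    rw [max_eq_left (inv_le_one_of_one_le₀ h), min_eq_right h2, Real.inv_rpow ht.le,
      Real.one_rpow, mul_one, ← Real.rpow_neg ht.le, ← Real.rpow_add ht]
    congr 1

/-- the integrand after the substitution -/
noncomputable def psdE (c : ℝ) (h1 h2 : EE n → ℝ) (q : ℝ × ℝ) : ℝ :=
  (Ioi (q.1⁻¹)).indicator (fun s : ℝ => s ^ (-1 - 2 * c)) q.2 * (psdw n c q.1 * psdK h1 h2 q.1)

theorem psd_E_meas {c : ℝ} {h1 h2 : EE n → ℝ} (m1 : Measurable h1) (m2 : Measurable h2) :
    Measurable (psdE c h1 h2) := by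
  have hs : MeasurableSet {q : ℝ × ℝ | q.1⁻¹ < q.2} :=
    measurableSet_lt (measurable_fst.inv) measurable_snd
  have h3 : Measurable (fun q : ℝ × ℝ => q.2 ^ (-1 - 2 * c)) :=
    (measurable_id.pow_const _).comp measurable_snd
  have h4 : Measurable ({q : ℝ × ℝ | q.1⁻¹ < q.2}.indicator
    (fun q : ℝ × ℝ => q.2 ^ (-1 - 2 * c))) := h3.indicator hs
  have h5 : (fun q : ℝ × ℝ => (Ioi (q.1⁻¹)).indicator (fun s : ℝ => s ^ (-1 - 2 * c)) q.2) =
      {q : ℝ × ℝ | q.1⁻¹ < q.2}.indicator (fun q : ℝ × ℝ => q.2 ^ (-1 - 2 * c)) := by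
    ext q
    by_cases h : q.1⁻¹ < q.2 <;> simp [indicator, h]
  unfold psdE
  refine Measurable.mul ?_ ?_
  · rw [h5]; exact h4
  · exact ((psd_w_meas n c).comp measurable_fst).mul ((psd_K_meas m1 m2).comp measurable_fst)

theorem psd_E_int {c : ℝ} (hc : 0 < c) {h1 h2 : EE n → ℝ} (m1 : Measurable h1) (m2 : Measurable h2)
    (H1 : MemLp h1 2 (volume : Measure (EE n))) (H2 : MemLp h2 2 (volume : Measure (EE n))) :
    Integrable (psdE c h1 h2) (((volume : Measure ℝ).restrict (Ioi (0 : ℝ))).prod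
      ((volume : Measure ℝ).restrict (Ioi (1 : ℝ)))) := by
  rw [integrable_prod_iff (psd_E_meas m1 m2).aestronglyMeasurable]
  refine ⟨?_, ?_⟩
  · filter_upwards with t
    have h3 : Integrable (fun s : ℝ => s ^ (-1 - 2 * c)) (volume.restrict (Ioi (1 : ℝ))) :=
      integrableOn_Ioi_rpow_of_lt (by linarith) one_pos
    exact (h3.indicator (measurableSet_Ioi (a := t⁻¹))).mul_const (psdw n c t * psdK h1 h2 t)
  · have h4 : IntegrableOn (fun t : ℝ => |t ^ ((n : ℝ) / 2 - 1) * (min t t⁻¹) ^ c *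
        psdK h1 h2 t| / (2 * c)) (Ioi (0 : ℝ)) := (psd_bf_int hc m1 m2 H1 H2).abs.div_const _
    refine IntegrableOn.congr_fun h4 ?_ measurableSet_Ioi
    intro t ht
    have ht0 : 0 < t := ht
    have hmin : 0 < min t t⁻¹ := lt_min ht0 (inv_pos.2 ht0)
    have e1 : ∀ s ∈ Ioi (1 : ℝ), ‖psdE c h1 h2 (t, s)‖ =
        (Ioi (t⁻¹)).indicator (fun s : ℝ => s ^ (-1 - 2 * c)) s * |psdw n c t * psdK h1 h2 t| := by
      intro s hs
      have hs0 : (0 : ℝ) < s := one_pos.trans hs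
      unfold psdE
      rw [Real.norm_eq_abs, abs_mul]
      congr 1
      apply abs_of_nonneg
      exact indicator_apply_nonneg fun _ => by positivity
    simp only
    rw [setIntegral_congr_fun measurableSet_Ioi e1, integral_mul_const, psd_weight hc t,
      ← psd_weight2 n c ht0, abs_mul, abs_mul, abs_mul]
    have h5 : |(max 1 t⁻¹) ^ (-(2 * c))| = (max 1 t⁻¹) ^ (-(2 * c)) := by
      apply abs_of_nonneg
      positivity
    rw [h5]
    ring

theorem psd_inner_G (n : ℕ) {c : ℝ} (K : ℝ → ℝ) {s : ℝ} (hs : 1 < s) :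
    ∫ r in Ioi (1 : ℝ), psdw n c r * psdw n c s * (s ^ n)⁻¹ * K (r / s) =
      ∫ t in Ioi (0 : ℝ), (Ioi (t⁻¹)).indicator (fun s : ℝ => s ^ (-1 - 2 * c)) s *
        (psdw n c t * K t) := by
  have hs0 : 0 < s := one_pos.trans hs
  have h1 := integral_comp_mul_left_Ioi (fun r : ℝ => psdw n c r * psdw n c s * (s ^ n)⁻¹ * K (r / s))
    (s⁻¹) hs0
  rw [mul_inv_cancel₀ hs0.ne', smul_eq_mul] at h1
  have h2 : ∫ r in Ioi (1 : ℝ), psdw n c r * psdw n c s * (s ^ n)⁻¹ * K (r / s) =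
      s * ∫ x in Ioi (s⁻¹), psdw n c (s * x) * psdw n c s * (s ^ n)⁻¹ * K (s * x / s) := by
    rw [h1, ← mul_assoc, mul_inv_cancel₀ hs0.ne', one_mul]
  rw [h2, ← integral_const_mul]
  have h3 : ∀ t ∈ Ioi (0 : ℝ), (Ioi (t⁻¹)).indicator (fun s : ℝ => s ^ (-1 - 2 * c)) s *
      (psdw n c t * K t) = (Ioi (s⁻¹)).indicator
        (fun t : ℝ => s ^ (-1 - 2 * c) * (psdw n c t * K t)) t := by
    intro t ht
    have ht0 : (0 : ℝ) < t := ht
    by_cases h : t⁻¹ < s
    · have h' : s⁻¹ < t := (inv_lt_comm₀ ht0 hs0).1 h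
      rw [indicator_of_mem (show s ∈ Ioi (t⁻¹) from h), indicator_of_mem (show t ∈ Ioi (s⁻¹) from h')]
    · have h' : ¬ s⁻¹ < t := fun h'' => h ((inv_lt_comm₀ hs0 ht0).1 h'')
      rw [indicator_of_notMem (show s ∉ Ioi (t⁻¹) from h),
        indicator_of_notMem (show t ∉ Ioi (s⁻¹) from h'), zero_mul]
  rw [setIntegral_congr_fun measurableSet_Ioi h3, setIntegral_indicator measurableSet_Ioi,
    Ioi_inter_Ioi, max_eq_right (inv_pos.2 hs0).le]
  refine setIntegral_congr_fun measurableSet_Ioi ?_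
  intro t ht
  have ht0 : (0 : ℝ) < t := (inv_pos.2 hs0).trans ht
  simp only
  rw [mul_div_cancel_left₀ _ hs0.ne']
  unfold psdw
  rw [Real.mul_rpow hs0.le ht0.le, ← Real.rpow_natCast s n, ← Real.rpow_neg hs0.le]
  have e : s * (s ^ ((n : ℝ) / 2 - 1 - c) * s ^ ((n : ℝ) / 2 - 1 - c) * s ^ (-(n : ℝ))) =
      s ^ (-1 - 2 * c) := by
    nth_rewrite 1 [← Real.rpow_one s]
    rw [← Real.rpow_add hs0, ← Real.rpow_add hs0, ← Real.rpow_add hs0]
    congr 1
    ring
  rw [← e]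
  ring

/-- the form as an inner product -/
theorem psd_main {c : ℝ} (hc : 0 < c) {h1 h2 : EE n → ℝ} (m1 : Measurable h1)
    (m2 : Measurable h2) (H1 : MemLp h1 2 (volume : Measure (EE n)))
    (H2 : MemLp h2 2 (volume : Measure (EE n))) :
    ∫ x : EE n, psdR c h1 x * psdR c h2 x = bf c h1 h2 / (2 * c) := by
  have hI := psd_F_int hc m1 m2 H1 H2
  simp only [psd_RR]
  rw [← integral_integral_swap (f := fun (q : ℝ × ℝ) (x : EE n) => psdF c h1 h2 (q, x)) hI]
  have hG : Integrable (fun q : ℝ × ℝ => ∫ x : EE n, psdF c h1 h2 (q, x)) psdm :=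
    hI.integral_prod_left
  have e0 : ∫ q : ℝ × ℝ, (∫ x : EE n, psdF c h1 h2 (q, x)) ∂psdm =
      ∫ s in Ioi (1 : ℝ), ∫ r in Ioi (1 : ℝ), ∫ x : EE n, psdF c h1 h2 ((r, s), x) := by
    unfold psdm at hG ⊢
    exact integral_prod_symm _ hG
  have e1 : ∀ s ∈ Ioi (1 : ℝ), ∫ r in Ioi (1 : ℝ), ∫ x : EE n, psdF c h1 h2 ((r, s), x) =
      ∫ t in Ioi (0 : ℝ), psdE c h1 h2 (t, s) := by
    intro s hs
    have hs0 : (0 : ℝ) < s := one_pos.trans hs
    simp only [psd_inner_F c h1 h2 hs0]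
    exact psd_inner_G n _ hs
  rw [e0, setIntegral_congr_fun measurableSet_Ioi e1]
  have hE := psd_E_int hc m1 m2 H1 H2
  rw [integral_integral_swap (f := fun (s t : ℝ) => psdE c h1 h2 (t, s)) hE.swap]
  unfold bf
  rw [← integral_div]
  refine setIntegral_congr_fun measurableSet_Ioi ?_
  intro t ht
  have ht0 : (0 : ℝ) < t := ht
  simp only [psdE]
  rw [integral_mul_const, psd_weight hc t, ← psd_weight2 n c ht0]
  unfold psdK
  ring

/-- the square integrals of the averages -/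
theorem psd_cs_meas {c : ℝ} (hc : 0 < c) {h1 h2 : EE n → ℝ} (m1 : Measurable h1)
    (m2 : Measurable h2) (H1 : MemLp h1 2 (volume : Measure (EE n)))
    (H2 : MemLp h2 2 (volume : Measure (EE n))) :
    (bf c h1 h2) ^ 2 ≤ bf c h1 h1 * bf c h2 h2 := by
  have a12 := psd_main hc m1 m2 H1 H2
  have a11 := psd_main hc m1 m1 H1 H1
  have a22 := psd_main hc m2 m2 H2 H2
  have hcs := psd_cs (psd_R_memLp hc m1 H1) (psd_R_memLp hc m2 H2)
  have h0 : |∫ x : EE n, psdR c h1 x * psdR c h2 x| ≤ _ := abs_integral_le_integral_abs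
  have h1' := h0.trans hcs
  have p1 : 0 ≤ ∫ x : EE n, psdR c h1 x ^ 2 := integral_nonneg fun x => sq_nonneg _
  have p2 : 0 ≤ ∫ x : EE n, psdR c h2 x ^ 2 := integral_nonneg fun x => sq_nonneg _
  have h2' : (∫ x : EE n, psdR c h1 x * psdR c h2 x) ^ 2 ≤
      (∫ x : EE n, psdR c h1 x ^ 2) * ∫ x : EE n, psdR c h2 x ^ 2 := by
    rw [← sq_abs]
    calc _ ≤ (Real.sqrt (∫ x : EE n, psdR c h1 x ^ 2) * Real.sqrt (∫ x : EE n, psdR c h2 x ^ 2)) ^ 2 :=
          pow_le_pow_left₀ (abs_nonneg _) h1' 2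
      _ = _ := by rw [mul_pow, Real.sq_sqrt p1, Real.sq_sqrt p2]
  simp only [sq (psdR c h1 _), sq (psdR c h2 _)] at h2'
  rw [a12, a11, a22, div_pow, div_mul_div_comm, ← sq (2 * c)] at h2'
  have hc2 : 0 < (2 * c) ^ 2 := by positivity
  exact (div_le_div_iff_of_pos_right hc2).1 h2'

/-- the form depends only on the classes of the functions -/
theorem psd_K_congr {h1 h2 g1 g2 : EE n → ℝ} (e1 : h1 =ᵐ[volume] g1) (e2 : h2 =ᵐ[volume] g2)
    {t : ℝ} (ht : 0 < t) : ∫ x : EE n, h1 (t • x) * h2 x = ∫ x : EE n, g1 (t • x) * g2 x := by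
  have hq : Measure.QuasiMeasurePreserving (fun x : EE n => t • x) volume volume := by
    refine ⟨measurable_const_smul t, ?_⟩
    rw [Measure.map_addHaar_smul _ ht.ne']
    exact Measure.smul_absolutelyContinuous
  have e3 : (fun x : EE n => h1 (t • x)) =ᵐ[volume] fun x : EE n => g1 (t • x) :=
    hq.ae_eq_comp e1
  exact integral_congr_ae (e3.mul e2)

theorem psd_bf_congr (c : ℝ) {h1 h2 g1 g2 : EE n → ℝ} (e1 : h1 =ᵐ[volume] g1)
    (e2 : h2 =ᵐ[volume] g2) : bf c h1 h2 = bf c g1 g2 := by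
  unfold bf
  refine setIntegral_congr_fun measurableSet_Ioi ?_
  intro t ht
  simp only
  rw [psd_K_congr e1 e2 ht]

end PSDaux

section PSD

theorem bf_cs {n : ℕ} (c : ℝ) (hc : 0 < c) {h1 h2 : EE n → ℝ}
    (H1 : MemLp h1 2 (volume : Measure (EE n))) (H2 : MemLp h2 2 (volume : Measure (EE n))) :
    (bf c h1 h2) ^ 2 ≤ bf c h1 h1 * bf c h2 h2 := by
  obtain ⟨g1, s1, e1⟩ := H1.1
  obtain ⟨g2, s2, e2⟩ := H2.1
  rw [psd_bf_congr c e1 e2, psd_bf_congr c e1 e1, psd_bf_congr c e2 e2]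
  exact psd_cs_meas hc s1.measurable s2.measurable ((memLp_congr_ae e1).1 H1)
    ((memLp_congr_ae e2).1 H2)

theorem bf_integrable {n : ℕ} (c : ℝ) (hc : 0 < c) {h1 h2 : EE n → ℝ}
    (H1 : MemLp h1 2 (volume : Measure (EE n))) (H2 : MemLp h2 2 (volume : Measure (EE n))) :
    IntegrableOn (fun t : ℝ => t ^ ((n : ℝ) / 2 - 1) * (min t t⁻¹) ^ c *
      ∫ x : EE n, h1 (t • x) * h2 x) (Ioi 0) := by
  obtain ⟨g1, s1, e1⟩ := H1.1
  obtain ⟨g2, s2, e2⟩ := H2.1
  refine (psd_bf_int hc s1.measurable s2.measurable ((memLp_congr_ae e1).1 H1)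
    ((memLp_congr_ae e2).1 H2)).congr_fun ?_ measurableSet_Ioi
  intro t ht
  simp only
  rw [psd_K_congr e1 e2 ht]
  rfl

end PSD


end Pool.Agent.Lib.MP_7548d4_gt.F
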