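import Pool.Agent.Lib.MP_7548d4_gt.F.Tail
import Pool.Agent.Lib.MP_7548d4_gt.F.PSD
import Pool.Agent.Lib.MP_7548d4_gt.F.FormVal

/-!
# The sharp inequality for gauges
-/

set_option autoImplicit false
open MeasureTheory Metric Set Filter Topology

namespace Pool.Agent.Lib.MP_7548d4_gt.F

/-- the kernel below one -/
theorem core_ker_lt {n l : ℕ} {t : ℝ} (ht0 : 0 < t) (ht : t ≤ 1) :
    t ^ ((n : ℝ) / 2 - 1) * (min t t⁻¹) ^ ((l : ℝ) - n / 2) = t ^ ((l : ℝ) - 1) := by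
  have h1 : min t t⁻¹ = t := by
    apply min_eq_left
    have : 1 ≤ t⁻¹ := (one_le_inv₀ ht0).2 ht
    linarith
  rw [h1, ← Real.rpow_add ht0]
  congr 1
  ring

theorem core_ker_le {n l : ℕ} (hl : n < 2 * l) {t : ℝ} (ht : 1 ≤ t) :
    t ^ ((n : ℝ) / 2 - 1) * (min t t⁻¹) ^ ((l : ℝ) - n / 2) ≤ t ^ ((l : ℝ) - 1) := by
  have ht0 : 0 < t := by linarith
  have hc : 0 ≤ (l : ℝ) - n / 2 := by
    have : (n : ℝ) < 2 * l := by exact_mod_cast hl
    linarith
  have h1 : (min t t⁻¹) ^ ((l : ℝ) - n / 2) ≤ t ^ ((l : ℝ) - n / 2) :=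
    Real.rpow_le_rpow (le_min ht0.le (inv_nonneg.2 ht0.le)) (min_le_left _ _) hc
  calc t ^ ((n : ℝ) / 2 - 1) * (min t t⁻¹) ^ ((l : ℝ) - n / 2)
      ≤ t ^ ((n : ℝ) / 2 - 1) * t ^ ((l : ℝ) - n / 2) :=
        mul_le_mul_of_nonneg_left h1 (Real.rpow_nonneg ht0.le _)
    _ = t ^ ((l : ℝ) - 1) := by
        rw [← Real.rpow_add ht0]
        congr 1
        ring

theorem core_ker_pos {n l : ℕ} {t : ℝ} (ht : 0 < t) :
    0 < t ^ ((n : ℝ) / 2 - 1) * (min t t⁻¹) ^ ((l : ℝ) - n / 2) := by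
  have h1 : 0 < min t t⁻¹ := lt_min ht (inv_pos.2 ht)
  positivity

/-- pointwise bound for the pairing -/
theorem core_gJ_abs {n : ℕ} {N M : EE n → ℝ} (hN : Gauge N) (hM : Gauge M) {t : ℝ} (ht : 0 < t) :
    |gJ N M t| ≤ gv M * ((t ^ n)⁻¹ * gv N) := by
  unfold gJ
  have hi : Integrable (fun x : EE n => ga N (t • x)) := (ga_integrable hN).comp_smul ht.ne'
  have h1 : ∀ x : EE n, ‖ga N (t • x) * gh M x‖ ≤ gv M * ga N (t • x) := by
    intro x
    rw [norm_mul, Real.norm_eq_abs, Real.norm_eq_abs, abs_of_pos (ga_pos _ _), mul_comm]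
    exact mul_le_mul_of_nonneg_right (gh_abs_le hM x) (ga_pos _ _).le
  have h2 : ‖∫ x : EE n, ga N (t • x) * gh M x‖ ≤ ∫ x : EE n, gv M * ga N (t • x) :=
    norm_integral_le_of_norm_le (hi.const_mul _) (Filter.Eventually.of_forall h1)
  rw [Real.norm_eq_abs] at h2
  refine h2.trans (le_of_eq ?_)
  rw [integral_const_mul]
  congr 1
  rw [Measure.integral_comp_smul volume (ga N) t]
  simp only [finrank_euclideanSpace, Fintype.card_fin, smul_eq_mul, gv]
  rw [abs_of_pos (by positivity)]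

theorem gJ_integrable {n l : ℕ} (hl : n < 2 * l) (hln : l < n) {N M : EE n → ℝ} (hN : Gauge N)
    (hM : Gauge M) : IntegrableOn (fun t : ℝ => t ^ ((l : ℝ) - 1) * gJ N M t) (Ioi 0) := by
  have hc : 0 < (l : ℝ) - n / 2 := by
    have : (n : ℝ) < 2 * l := by exact_mod_cast hl
    linarith
  have hb := bf_integrable ((l : ℝ) - n / 2) hc (ga_memLp hN) (gh_memLp hM)
  have hb' : IntegrableOn (fun t : ℝ => t ^ ((n : ℝ) / 2 - 1) * (min t t⁻¹) ^ ((l : ℝ) - n / 2) *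
      gJ N M t) (Ioi 0) := hb
  have hm : AEStronglyMeasurable (fun t : ℝ => t ^ ((l : ℝ) - 1) * gJ N M t)
      (volume.restrict (Ioi 0)) := by
    have h1 : AEStronglyMeasurable (fun t : ℝ => t ^ ((l : ℝ) - 1) /
        (t ^ ((n : ℝ) / 2 - 1) * (min t t⁻¹) ^ ((l : ℝ) - n / 2)) *
        (t ^ ((n : ℝ) / 2 - 1) * (min t t⁻¹) ^ ((l : ℝ) - n / 2) * gJ N M t))
        (volume.restrict (Ioi 0)) := by
      refine AEStronglyMeasurable.mul ?_ hb'.aestronglyMeasurable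
      refine Measurable.aestronglyMeasurable ?_
      fun_prop
    refine h1.congr ?_
    filter_upwards [ae_restrict_mem measurableSet_Ioi] with t ht
    have h2 := core_ker_pos (n := n) (l := l) (mem_Ioi.1 ht)
    rw [← mul_assoc, div_mul_cancel₀ _ h2.ne']
  have hu : Ioi (0 : ℝ) = Ioc 0 1 ∪ Ioi 1 := (Ioc_union_Ioi_eq_Ioi zero_le_one).symm
  rw [hu]
  refine IntegrableOn.union ?_ ?_
  · have h1 := hb'.mono_set (fun t (ht : t ∈ Ioc (0 : ℝ) 1) => ht.1)
    refine h1.congr_fun ?_ measurableSet_Ioc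
    intro t ht
    simp only
    rw [core_ker_lt ht.1 ht.2]
  · have h1 : IntegrableOn (fun t : ℝ => gv M * gv N * t ^ ((l : ℝ) - 1 - n)) (Ioi 1) := by
      refine Integrable.const_mul ?_ _
      refine integrableOn_Ioi_rpow_of_lt ?_ zero_lt_one
      have : (l : ℝ) < n := by exact_mod_cast hln
      linarith
    refine Integrable.mono' h1 (hm.mono_set (Ioi_subset_Ioi zero_le_one)) ?_
    filter_upwards [ae_restrict_mem measurableSet_Ioi] with t ht
    have ht0 : 0 < t := lt_trans zero_lt_one ht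
    rw [norm_mul, Real.norm_eq_abs, Real.norm_eq_abs, abs_of_nonneg (Real.rpow_nonneg ht0.le _)]
    calc t ^ ((l : ℝ) - 1) * |gJ N M t| ≤ t ^ ((l : ℝ) - 1) * (gv M * ((t ^ n)⁻¹ * gv N)) :=
          mul_le_mul_of_nonneg_left (core_gJ_abs hN hM ht0) (Real.rpow_nonneg ht0.le _)
      _ = gv M * gv N * t ^ ((l : ℝ) - 1 - n) := by
          rw [Real.rpow_sub ht0 _ (n : ℝ), Real.rpow_natCast]
          ring

theorem core_ball {n l : ℕ} (hl : n < 2 * l) (hln : l < n) :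
    IntegrableOn (fun t : ℝ => t ^ ((l : ℝ) - 1) * (1 + t ^ 2) ^ (-((n : ℝ) / 2))) (Ioi 0) := by
  have h1 := gJ_integrable hl hln (gauge_norm n) (gauge_norm n)
  simpa only [gJ_norm] using h1

theorem core_ball2 {n l : ℕ} (hl : n < 2 * l) :
    IntegrableOn (fun t : ℝ => t ^ ((n : ℝ) / 2 - 1) * (min t t⁻¹) ^ ((l : ℝ) - n / 2) *
      (1 + t ^ 2) ^ (-((n : ℝ) / 2))) (Ioi 0) := by
  have hc : 0 < (l : ℝ) - n / 2 := by
    have : (n : ℝ) < 2 * l := by exact_mod_cast hl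
    linarith
  have h1 := bf_integrable ((l : ℝ) - n / 2) hc (ga_memLp (gauge_norm n)) (gh_memLp (gauge_norm n))
  have h2 : ∀ t : ℝ, ∫ x : EE n, ga (fun x : EE n => ‖x‖) (t • x) * gh (fun x : EE n => ‖x‖) x =
      (1 + t ^ 2) ^ (-((n : ℝ) / 2)) := fun t => gJ_norm t
  simpa only [h2] using h1

theorem core_unit {n l : ℕ} (hl : n < 2 * l) (hln : l < n) {N M : EE n → ℝ} (hN : Gauge N)
    (hM : Gauge M) (hVN : gv N = 1) (hVM : gv M = 1) :
    ∫ t in Ioi (0 : ℝ), t ^ ((l : ℝ) - 1) * gJ N M t ≤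
      ∫ t in Ioi (0 : ℝ), t ^ ((l : ℝ) - 1) * (1 + t ^ 2) ^ (-((n : ℝ) / 2)) := by
  have hc : 0 < (l : ℝ) - n / 2 := by
    have : (n : ℝ) < 2 * l := by exact_mod_cast hl
    linarith
  set P : ℝ → ℝ := fun t => t ^ ((n : ℝ) / 2 - 1) * (min t t⁻¹) ^ ((l : ℝ) - n / 2) with hP
  have i1 := gJ_integrable hl hln hN hM
  have i2 : IntegrableOn (fun t => P t * gJ N M t) (Ioi 0) :=
    bf_integrable ((l : ℝ) - n / 2) hc (ga_memLp hN) (gh_memLp hM)
  have i3 := core_ball hl hln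
  have i4 : IntegrableOn (fun t => P t * (1 + t ^ 2) ^ (-((n : ℝ) / 2))) (Ioi 0) := core_ball2 hl
  -- the positive semidefinite part
  have e1 : ∫ t in Ioi (0 : ℝ), P t * gJ N M t ≤
      ∫ t in Ioi (0 : ℝ), P t * (1 + t ^ 2) ^ (-((n : ℝ) / 2)) := by
    have h1 := bf_cs ((l : ℝ) - n / 2) hc (ga_memLp hN) (gh_memLp hM)
    rw [bf_gh hM, bf_ga hN, bf_ga hM, hVN, hVM, one_mul] at h1
    have h2 : bf ((l : ℝ) - n / 2) (ga N) (gh M) = ∫ t in Ioi (0 : ℝ), P t * gJ N M t := rfl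
    rw [h2] at h1
    have h3 : 0 ≤ ∫ t in Ioi (0 : ℝ), P t * (1 + t ^ 2) ^ (-((n : ℝ) / 2)) := by
      refine setIntegral_nonneg measurableSet_Ioi fun t ht => ?_
      have := core_ker_pos (n := n) (l := l) (mem_Ioi.1 ht)
      have h4 : 0 ≤ (1 + t ^ 2) ^ (-((n : ℝ) / 2)) := Real.rpow_nonneg (by positivity) _
      exact mul_nonneg this.le h4
    rw [← sq] at h1
    exact le_of_sq_le_sq h1 h3
  -- the tail
  have e2 : ∫ t in Ioi (0 : ℝ), (t ^ ((l : ℝ) - 1) - P t) * gJ N M t ≤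
      ∫ t in Ioi (0 : ℝ), (t ^ ((l : ℝ) - 1) - P t) * (1 + t ^ 2) ^ (-((n : ℝ) / 2)) := by
    refine setIntegral_mono_on ?_ ?_ measurableSet_Ioi ?_
    · simp only [sub_mul]
      exact i1.sub i2
    · simp only [sub_mul]
      exact i3.sub i4
    · intro t ht
      rcases le_or_gt t 1 with h | h
      · have h5 : P t = t ^ ((l : ℝ) - 1) := core_ker_lt ht h
        rw [h5, sub_self, zero_mul, zero_mul]
      · refine mul_le_mul_of_nonneg_left ?_ (sub_nonneg.2 (core_ker_le hl h.le))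
        have := gJ_tail hN hM t h.le
        rwa [hVN, hVM, one_mul, Real.one_rpow, one_mul] at this
  have e3 : ∫ t in Ioi (0 : ℝ), t ^ ((l : ℝ) - 1) * gJ N M t =
      (∫ t in Ioi (0 : ℝ), P t * gJ N M t) +
        ∫ t in Ioi (0 : ℝ), (t ^ ((l : ℝ) - 1) - P t) * gJ N M t := by
    rw [← integral_add i2]
    · refine integral_congr_ae (Filter.Eventually.of_forall fun t => ?_)
      simp only
      ring
    · simp only [sub_mul]
      exact i1.sub i2
  have e4 : ∫ t in Ioi (0 : ℝ), t ^ ((l : ℝ) - 1) * (1 + t ^ 2) ^ (-((n : ℝ) / 2)) =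
      (∫ t in Ioi (0 : ℝ), P t * (1 + t ^ 2) ^ (-((n : ℝ) / 2))) +
        ∫ t in Ioi (0 : ℝ), (t ^ ((l : ℝ) - 1) - P t) * (1 + t ^ 2) ^ (-((n : ℝ) / 2)) := by
    rw [← integral_add i4]
    · refine integral_congr_ae (Filter.Eventually.of_forall fun t => ?_)
      simp only
      ring
    · simp only [sub_mul]
      exact i3.sub i4
  rw [e3, e4]
  exact add_le_add e1 e2

theorem core_gv_scale {n : ℕ} {N : EE n → ℝ} (hN : Gauge N) (r : ℝ) (hr : 0 < r) :
    gv (fun x => r * N x) = (r ^ n)⁻¹ * gv N := by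
  have h1 : gv (fun x => r * N x) = ∫ x : EE n, Real.exp (-(Real.pi * r ^ 2 * N x ^ 2)) := by
    unfold gv ga
    refine integral_congr_ae (Filter.Eventually.of_forall fun x => ?_)
    simp only
    congr 1
    ring
  rw [h1, integral_exp_gauge hN _ (by positivity)]
  congr 1
  have h2 : Real.pi / (Real.pi * r ^ 2) = (r⁻¹) ^ 2 := by
    field_simp
  rw [h2, ← Real.rpow_natCast (r⁻¹) 2, ← Real.rpow_mul (by positivity)]
  have h3 : ((2 : ℕ) : ℝ) * ((n : ℝ) / 2) = n := by push_cast; ring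
  rw [h3, Real.rpow_natCast, inv_pow]

theorem core_ga_scale {n : ℕ} {N : EE n → ℝ} (hN : Gauge N) (r : ℝ) (hr : 0 < r) (x : EE n) :
    ga (fun x => r * N x) x = ga N (r • x) := by
  unfold ga
  rw [hN.hom r hr.le]

theorem core_gh_scale {n : ℕ} {M : EE n → ℝ} (hM : Gauge M) (r : ℝ) (hr : 0 < r) (x : EE n) :
    gh (fun x => r * M x) x = (r ^ n)⁻¹ * gh M (r⁻¹ • x) := by
  unfold gh
  have h1 : ∀ y : EE n, ga (fun x => r * M x) y * Real.cos (2 * Real.pi * inner ℝ x y) =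
      (fun z : EE n => ga M z * Real.cos (2 * Real.pi * inner ℝ (r⁻¹ • x) z)) (r • y) := by
    intro y
    simp only
    rw [core_ga_scale hM r hr, real_inner_smul_left, real_inner_smul_right]
    congr 3
    field_simp
  simp only [h1]
  rw [Measure.integral_comp_smul volume
    (fun z : EE n => ga M z * Real.cos (2 * Real.pi * inner ℝ (r⁻¹ • x) z)) r]
  simp only [finrank_euclideanSpace, Fintype.card_fin, smul_eq_mul]
  rw [abs_of_pos (by positivity)]

theorem core_gJ_scale {n : ℕ} {N M : EE n → ℝ} (hN : Gauge N) (hM : Gauge M) (r s : ℝ)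
    (hr : 0 < r) (hs : 0 < s) (t : ℝ) (ht : 0 < t) :
    gJ (fun x => r * N x) (fun x => s * M x) t = gJ N M (r * s * t) := by
  unfold gJ
  have h1 : ∀ x : EE n, ga (fun x => r * N x) (t • x) * gh (fun x => s * M x) x =
      (s ^ n)⁻¹ * (fun z : EE n => ga N ((r * s * t) • z) * gh M z) (s⁻¹ • x) := by
    intro x
    simp only
    rw [core_ga_scale hN r hr, core_gh_scale hM s hs, smul_smul, smul_smul]
    have h2 : r * s * t * s⁻¹ = r * t := by field_simp
    rw [h2]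
    ring
  simp only [h1]
  rw [integral_const_mul, Measure.integral_comp_smul volume
    (fun z : EE n => ga N ((r * s * t) • z) * gh M z) s⁻¹]
  simp only [finrank_euclideanSpace, Fintype.card_fin, smul_eq_mul]
  rw [abs_of_pos (by positivity), ← mul_assoc, inv_pow, inv_inv, inv_mul_cancel₀ (by positivity),
    one_mul]

theorem core {n l : ℕ} (hl : n < 2 * l) (hln : l < n) {N M : EE n → ℝ} (hN : Gauge N)
    (hM : Gauge M) :
    ∫ t in Ioi (0 : ℝ), t ^ ((l : ℝ) - 1) * gJ N M t ≤ (gv N * gv M) ^ ((l : ℝ) / n) *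
      ∫ t in Ioi (0 : ℝ), t ^ ((l : ℝ) - 1) * (1 + t ^ 2) ^ (-((n : ℝ) / 2)) := by
  have hn : 1 ≤ n := by omega
  have hn0 : (0 : ℝ) < n := by exact_mod_cast hn
  have hvN := gv_pos hN
  have hvM := gv_pos hM
  set r : ℝ := (gv N) ^ ((1 : ℝ) / n) with hr
  set s : ℝ := (gv M) ^ ((1 : ℝ) / n) with hs
  have hr0 : 0 < r := Real.rpow_pos_of_pos hvN _
  have hs0 : 0 < s := Real.rpow_pos_of_pos hvM _
  have hrn : r ^ n = gv N := by
    rw [hr, ← Real.rpow_natCast, ← Real.rpow_mul hvN.le, one_div_mul_cancel hn0.ne', Real.rpow_one]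
  have hsn : s ^ n = gv M := by
    rw [hs, ← Real.rpow_natCast, ← Real.rpow_mul hvM.le, one_div_mul_cancel hn0.ne', Real.rpow_one]
  have h1 := core_unit hl hln (hN.scale r hr0) (hM.scale s hs0)
    (by rw [core_gv_scale hN r hr0, hrn, inv_mul_cancel₀ hvN.ne'])
    (by rw [core_gv_scale hM s hs0, hsn, inv_mul_cancel₀ hvM.ne'])
  have h2 : ∫ t in Ioi (0 : ℝ), t ^ ((l : ℝ) - 1) *
      gJ (fun x => r * N x) (fun x => s * M x) t =
      ((r * s) ^ l)⁻¹ * ∫ t in Ioi (0 : ℝ), t ^ ((l : ℝ) - 1) * gJ N M t := by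
    have h3 : ∫ t in Ioi (0 : ℝ), t ^ ((l : ℝ) - 1) *
      gJ (fun x => r * N x) (fun x => s * M x) t = ∫ t in Ioi (0 : ℝ),
        ((r * s) ^ ((l : ℝ) - 1))⁻¹ * (fun u : ℝ => u ^ ((l : ℝ) - 1) * gJ N M u) (r * s * t) := by
      refine setIntegral_congr_fun measurableSet_Ioi fun t ht => ?_
      have ht0 : 0 < t := ht
      simp only
      rw [core_gJ_scale hN hM r s hr0 hs0 t ht0, Real.mul_rpow (by positivity) ht0.le]
      have h5 : 0 < (r * s) ^ ((l : ℝ) - 1) := Real.rpow_pos_of_pos (by positivity) _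
      field_simp
    rw [h3, integral_const_mul, integral_comp_mul_left_Ioi
      (fun u : ℝ => u ^ ((l : ℝ) - 1) * gJ N M u) 0 (by positivity : 0 < r * s), mul_zero,
      smul_eq_mul, ← mul_assoc, ← mul_inv]
    congr 2
    have h6 : (r * s) ^ ((l : ℝ) - 1) * (r * s) = (r * s) ^ (l : ℝ) := by
      nth_rewrite 2 [← Real.rpow_one (r * s)]
      rw [← Real.rpow_add (by positivity)]
      congr 1
      ring
    rw [h6, Real.rpow_natCast]
  rw [h2] at h1
  have h7 : (r * s) ^ l = (gv N * gv M) ^ ((l : ℝ) / n) := by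
    rw [hr, hs, ← Real.mul_rpow hvN.le hvM.le, ← Real.rpow_natCast, ← Real.rpow_mul (by positivity)]
    congr 1
    ring
  have h8 : 0 < (r * s) ^ l := by positivity
  rw [← h7]
  rw [inv_mul_le_iff₀ h8] at h1
  exact h1

end Pool.Agent.Lib.MP_7548d4_gt.F
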