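import Pool.Agent.Lib.MP_7548d4_gt.Defs

/-!
# Gauges, Gaussians of gauges, the cube
-/

set_option autoImplicit false
open MeasureTheory Metric Set Filter Topology

namespace Pool.Agent.Lib.MP_7548d4_gt.F

/-- gauges of origin-symmetric star bodies -/
structure Gauge {n : ℕ} (N : EE n → ℝ) : Prop where
  cont : Continuous N
  lower : ∃ c : ℝ, 0 < c ∧ ∀ x, c * ‖x‖ ≤ N x
  hom : ∀ r : ℝ, 0 ≤ r → ∀ x, N (r • x) = r * N x
  even : ∀ x, N (-x) = N x

/-- the Gaussian of a gauge -/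
noncomputable def ga {n : ℕ} (N : EE n → ℝ) (x : EE n) : ℝ := Real.exp (-(Real.pi * N x ^ 2))

/-- its Fourier transform -/
noncomputable def gh {n : ℕ} (N : EE n → ℝ) (x : EE n) : ℝ :=
  ∫ y : EE n, ga N y * Real.cos (2 * Real.pi * inner ℝ x y)

/-- its integral -/
noncomputable def gv {n : ℕ} (N : EE n → ℝ) : ℝ := ∫ x : EE n, ga N x

/-- the pairing at scale `t` -/
noncomputable def gJ {n : ℕ} (N M : EE n → ℝ) (t : ℝ) : ℝ := ∫ x : EE n, ga N (t • x) * gh M x

/-- the form with the Laplace kernel -/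
noncomputable def bf {n : ℕ} (c : ℝ) (h1 h2 : EE n → ℝ) : ℝ :=
  ∫ t in Ioi (0 : ℝ), t ^ ((n : ℝ) / 2 - 1) * (min t t⁻¹) ^ c * ∫ x : EE n, h1 (t • x) * h2 x

/-- the constant of the subordination formula -/
noncomputable def Cl (l : ℕ) : ℝ := 2 * Real.pi ^ ((l : ℝ) / 2) / Real.Gamma ((l : ℝ) / 2)

/-- signs -/
noncomputable def sg (b : Bool) : ℝ := if b then 1 else -1

/-- the parameter of the two-point inequality -/
noncomputable def om (p : ℝ) : ℂ := Complex.I * ((Real.sqrt (p - 1) : ℝ) : ℂ)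

/-- the kernel on the cube -/
noncomputable def ker {ι : Type} [Fintype ι] (p : ℝ) (x y : ι → Bool) : ℂ :=
  ∏ i, (1 + om p * ((sg (x i) * sg (y i) : ℝ) : ℂ))

/-- normalised sums of signs -/
noncomputable def Ssum {n N : ℕ} (x : Fin n × Fin N → Bool) : EE n :=
  WithLp.toLp 2 (fun l => (Real.sqrt N)⁻¹ * ∑ i : Fin N, sg (x (l, i)))

/-- characters -/
noncomputable def ch {n : ℕ} (a x : EE n) : ℂ := Complex.exp (Complex.I * ((inner ℝ a x : ℝ) : ℂ))

/-- trigonometric polynomials -/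
def Trig (n : ℕ) : Submodule ℂ (EE n → ℂ) := Submodule.span ℂ (Set.range (fun a : EE n => ch a))

/-- Gaussian weight -/
noncomputable def gw {n : ℕ} (p : ℝ) (x : EE n) : ℝ := Real.exp (-(‖x‖ ^ 2 / (2 * p)))

/-- the bilinear Fourier form -/
noncomputable def BF {n : ℕ} (p : ℝ) (h g : EE n → ℂ) : ℂ :=
  ∫ x : EE n, ∫ y : EE n, h x * g y *
    Complex.exp (Complex.I * ((Real.sqrt (p - 1) / p * inner ℝ x y : ℝ) : ℂ))

end Pool.Agent.Lib.MP_7548d4_gt.F
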