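import Pool.Agent.Lib.MP_7548d4_gt.F.Defs

/-!
# Density of Gaussian-weighted trigonometric polynomials
-/

set_option autoImplicit false
open MeasureTheory Metric Set Filter Topology
open scoped ENNReal

namespace Pool.Agent.Lib.MP_7548d4_gt.F

/-- the weight of the measure in which the characters are dense -/
noncomputable def dense_w {n : ℕ} (x : EE n) : ℝ := Real.exp (-(‖x‖ ^ 2 / 4))

/-- the finite measure in which the characters are dense -/
noncomputable def dense_mu (n : ℕ) : Measure (EE n) :=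
  (volume : Measure (EE n)).withDensity (fun x => ENNReal.ofReal (dense_w x))

theorem dense_w_pos {n : ℕ} (x : EE n) : 0 < dense_w x := Real.exp_pos _

theorem dense_w_cont {n : ℕ} : Continuous (dense_w : EE n → ℝ) := by
  unfold dense_w; fun_prop

theorem dense_w_integrable {n : ℕ} : Integrable (dense_w : EE n → ℝ) := by
  have h := GaussianFourier.integrable_cexp_neg_mul_sq_norm_add (V := EE n) (b := ((1 / 4 : ℝ) : ℂ))
    (by simp) 0 0
  have h2 := h.norm
  refine h2.congr (Eventually.of_forall fun x => ?_)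
  simp only [zero_mul, add_zero, Complex.norm_exp, dense_w]
  congr 1
  rw [← Complex.ofReal_pow, ← Complex.ofReal_neg, ← Complex.ofReal_mul, Complex.ofReal_re]
  ring

instance dense_finite (n : ℕ) : IsFiniteMeasure (dense_mu n) := by
  constructor
  rw [dense_mu, withDensity_apply _ MeasurableSet.univ, setLIntegral_univ]
  have h := (dense_w_integrable (n := n)).hasFiniteIntegral
  rw [hasFiniteIntegral_iff_norm] at h
  refine lt_of_le_of_lt (le_of_eq ?_) h
  refine lintegral_congr fun x => ?_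
  rw [Real.norm_of_nonneg (dense_w_pos x).le]

theorem dense_ch_cont {n : ℕ} (a : EE n) : Continuous (ch a) := by
  unfold ch; fun_prop

theorem dense_ch_norm {n : ℕ} (a x : EE n) : ‖ch a x‖ = 1 := by
  unfold ch
  rw [mul_comm, Complex.norm_exp_ofReal_mul_I]

theorem dense_ch_conj {n : ℕ} (a x : EE n) : (starRingEnd ℂ) (ch a x) = ch (-a) x := by
  unfold ch
  rw [← Complex.exp_conj]
  congr 1
  simp [inner_neg_left]

/-- an integrable real function all of whose Fourier coefficients vanish is zero -/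
theorem dense_real {n : ℕ} (μ : Measure (EE n)) (f : EE n → ℝ) (hf : Integrable f μ)
    (h : ∀ a : EE n, ∫ x, (f x : ℂ) * ch a x ∂μ = 0) : f =ᵐ[μ] 0 := by
  have hfm : AEMeasurable f μ := hf.aestronglyMeasurable.aemeasurable
  have key : ∀ g : EE n → ℝ, Integrable g μ → IsFiniteMeasure (μ.withDensity
      (fun x => ENNReal.ofReal (g x))) := by
    intro g hg
    constructor
    rw [withDensity_apply _ MeasurableSet.univ, setLIntegral_univ]
    refine lt_of_le_of_lt (lintegral_mono fun x => ?_) hg.norm.lintegral_lt_top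
    exact ENNReal.ofReal_le_ofReal (le_abs_self _)
  have hfn : Integrable (fun x => - f x) μ := hf.neg
  have _i1 := key f hf
  have _i2 := key (fun x => - f x) hfn
  have hint : ∀ g : EE n → ℝ, Integrable g μ → ∀ a : EE n,
      charFun (μ.withDensity (fun x => ENNReal.ofReal (g x))) a =
        ∫ x, ((max (g x) 0 : ℝ) : ℂ) * ch a x ∂μ := by
    intro g hg a
    rw [charFun_apply, integral_withDensity_eq_integral_toReal_smul₀
      (hg.aestronglyMeasurable.aemeasurable.ennreal_ofReal)
      (Eventually.of_forall fun x => ENNReal.ofReal_lt_top)]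
    refine integral_congr_ae (Eventually.of_forall fun x => ?_)
    simp only [ch, ENNReal.toReal_ofReal', Complex.real_smul]
    rw [real_inner_comm, mul_comm Complex.I]
  have hch : ∀ (g : EE n → ℝ), Integrable g μ → ∀ a : EE n,
      Integrable (fun x => (g x : ℂ) * ch a x) μ := by
    intro g hg a
    refine (hg.ofReal (𝕜 := ℂ)).mul_bdd (c := 1) (dense_ch_cont a).aestronglyMeasurable
      (Eventually.of_forall fun x => (dense_ch_norm a x).le)
  have heq : μ.withDensity (fun x => ENNReal.ofReal (f x)) =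
      μ.withDensity (fun x => ENNReal.ofReal (- f x)) := by
    refine Measure.ext_of_charFun (funext fun a => ?_)
    rw [hint f hf a, hint (fun x => - f x) hfn a, ← sub_eq_zero, ← integral_sub, ← h a]
    · refine integral_congr_ae (Eventually.of_forall fun x => ?_)
      simp only
      rw [← sub_mul, ← Complex.ofReal_sub]
      congr 2
      rcases le_total (f x) 0 with hx | hx
      · rw [max_eq_right hx, max_eq_left (by linarith)]; ring
      · rw [max_eq_left hx, max_eq_right (by linarith)]; ring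
    · exact hch _ hf.pos_part a
    · exact hch _ hfn.pos_part a
  have hfnm : AEMeasurable (fun x => - f x) μ := hfm.neg
  rw [withDensity_eq_iff hfm.ennreal_ofReal hfnm.ennreal_ofReal] at heq
  · filter_upwards [heq] with x hx
    by_contra hne
    rcases lt_or_gt_of_ne hne with hlt | hlt
    · simp only [Pi.zero_apply] at hlt
      rw [ENNReal.ofReal_of_nonpos hlt.le] at hx
      have := (ENNReal.ofReal_eq_zero.1 hx.symm)
      linarith
    · simp only [Pi.zero_apply] at hlt
      have h1 : ENNReal.ofReal (- f x) = 0 := ENNReal.ofReal_of_nonpos (by linarith)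
      rw [h1] at hx
      have := ENNReal.ofReal_eq_zero.1 hx
      linarith
  · have := measure_lt_top (μ.withDensity (fun x => ENNReal.ofReal (f x))) Set.univ
    rw [withDensity_apply _ MeasurableSet.univ, setLIntegral_univ] at this
    exact this.ne

/-- an integrable complex function all of whose Fourier coefficients vanish is zero -/
theorem dense_complex {n : ℕ} (μ : Measure (EE n)) (w : EE n → ℂ) (hw : Integrable w μ)
    (h : ∀ a : EE n, ∫ x, w x * ch a x ∂μ = 0) : w =ᵐ[μ] 0 := by
  have hint : ∀ (g : EE n → ℂ), Integrable g μ → ∀ a : EE n,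
      Integrable (fun x => g x * ch a x) μ := by
    intro g hg a
    exact hg.mul_bdd (c := 1) (dense_ch_cont a).aestronglyMeasurable
      (Eventually.of_forall fun x => (dense_ch_norm a x).le)
  have hconj : ∀ a : EE n, ∫ x, (starRingEnd ℂ) (w x) * ch a x ∂μ = 0 := by
    intro a
    have h1 : ∫ x, (starRingEnd ℂ) (w x) * ch a x ∂μ =
        (starRingEnd ℂ) (∫ x, w x * ch (-a) x ∂μ) := by
      rw [← integral_conj]
      refine integral_congr_ae (Eventually.of_forall fun x => ?_)
      simp only [map_mul, dense_ch_conj, neg_neg]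
    rw [h1, h (-a), map_zero]
  have hwc : Integrable (fun x => (starRingEnd ℂ) (w x)) μ := by
    have := Complex.conjLIE.toContinuousLinearEquiv.toContinuousLinearMap.integrable_comp hw
    exact this
  have hre : (fun x => (w x).re) =ᵐ[μ] 0 := by
    refine dense_real μ _ hw.re fun a => ?_
    have h2 : ∫ x, (((w x).re : ℝ) : ℂ) * ch a x ∂μ =
        (1 / 2 : ℂ) * (∫ x, w x * ch a x ∂μ + ∫ x, (starRingEnd ℂ) (w x) * ch a x ∂μ) := by
      rw [← integral_add (hint _ hw a) (hint _ hwc a), ← integral_const_mul]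
      refine integral_congr_ae (Eventually.of_forall fun x => ?_)
      simp only
      rw [← add_mul, Complex.add_conj]
      push_cast; ring
    rw [h2, h a, hconj a]; simp
  have him : (fun x => (w x).im) =ᵐ[μ] 0 := by
    refine dense_real μ _ hw.im fun a => ?_
    have h2 : ∫ x, (((w x).im : ℝ) : ℂ) * ch a x ∂μ =
        (1 / (2 * Complex.I) : ℂ) * (∫ x, w x * ch a x ∂μ - ∫ x, (starRingEnd ℂ) (w x) * ch a x ∂μ) := by
      rw [← integral_sub (hint _ hw a) (hint _ hwc a), ← integral_const_mul]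
      refine integral_congr_ae (Eventually.of_forall fun x => ?_)
      simp only
      rw [← sub_mul, Complex.sub_conj]
      push_cast
      field_simp
    rw [h2, h a, hconj a]; simp
  filter_upwards [hre, him] with x h1 h2
  exact Complex.ext h1 h2

theorem dense_ch_memLp {n : ℕ} (a : EE n) : MemLp (ch a) 2 (dense_mu n) :=
  MemLp.of_bound (dense_ch_cont a).aestronglyMeasurable 1
    (Eventually.of_forall fun x => (dense_ch_norm a x).le)

/-- the span of the characters in `L^2` -/
noncomputable def dense_K (n : ℕ) : Submodule ℂ (Lp ℂ 2 (dense_mu n)) :=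
  Submodule.span ℂ (Set.range (fun a : EE n => (dense_ch_memLp a).toLp (ch a)))

theorem dense_K_top (n : ℕ) : (dense_K n).topologicalClosure = ⊤ := by
  rw [Submodule.topologicalClosure_eq_top_iff, Submodule.eq_bot_iff]
  intro v hv
  rw [Submodule.mem_orthogonal] at hv
  have hvi : Integrable (fun x => v x) (dense_mu n) :=
    (Lp.memLp v).integrable (by norm_num)
  have h0 : (fun x => v x) =ᵐ[dense_mu n] 0 := by
    refine dense_complex _ _ hvi fun a => ?_
    have h1 := hv _ (Submodule.subset_span (Set.mem_range_self (-a)))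
    rw [L2.inner_def] at h1
    rw [← h1]
    refine integral_congr_ae ?_
    filter_upwards [(dense_ch_memLp (-a)).coeFn_toLp] with x hx
    rw [hx, RCLike.inner_apply, dense_ch_conj, neg_neg]
  rw [Lp.eq_zero_iff_ae_eq_zero]
  exact h0

theorem dense_K_rep {n : ℕ} (k : Lp ℂ 2 (dense_mu n)) (hk : k ∈ dense_K n) :
    ∃ P ∈ Trig n, P =ᵐ[dense_mu n] k := by
  unfold dense_K at hk
  induction hk using Submodule.span_induction with
  | mem x hx =>
    obtain ⟨a, rfl⟩ := hx
    exact ⟨ch a, Submodule.subset_span (Set.mem_range_self a), (dense_ch_memLp a).coeFn_toLp.symm⟩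
  | zero => exact ⟨0, Submodule.zero_mem _, (Lp.coeFn_zero _ _ _).symm⟩
  | add x y _ _ hx hy =>
    obtain ⟨P, hP, hPx⟩ := hx
    obtain ⟨Q, hQ, hQy⟩ := hy
    exact ⟨P + Q, Submodule.add_mem _ hP hQ, (hPx.add hQy).trans (Lp.coeFn_add _ _).symm⟩
  | smul c x _ hx =>
    obtain ⟨P, hP, hPx⟩ := hx
    exact ⟨c • P, Submodule.smul_mem _ c hP, (hPx.const_smul c).trans (Lp.coeFn_smul _ _).symm⟩

theorem dense_mu_integral {n : ℕ} (g : EE n → ℝ) :
    ∫ x, g x ∂(dense_mu n) = ∫ x : EE n, dense_w x * g x := by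
  rw [dense_mu, integral_withDensity_eq_integral_toReal_smul
    (dense_w_cont.measurable.ennreal_ofReal) (Eventually.of_forall fun x => ENNReal.ofReal_lt_top)]
  refine integral_congr_ae (Eventually.of_forall fun x => ?_)
  simp only [ENNReal.toReal_ofReal (dense_w_pos x).le, smul_eq_mul]

theorem dense_mu_integrable {n : ℕ} (g : EE n → ℝ) (hg : Integrable g (dense_mu n)) :
    Integrable (fun x => dense_w x * g x) := by
  rw [dense_mu, integrable_withDensity_iff_integrable_smul'
    (dense_w_cont.measurable.ennreal_ofReal)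
    (Eventually.of_forall fun x => ENNReal.ofReal_lt_top)] at hg
  refine hg.congr (Eventually.of_forall fun x => ?_)
  simp only [ENNReal.toReal_ofReal (dense_w_pos x).le, smul_eq_mul]

theorem trig_dense {n : ℕ} (p : ℝ) (hp : 1 < p) (hp2 : p ≤ 2) (h : EE n → ℂ)
    (hm : Measurable h) (hb : ∃ C : ℝ, ∀ x, ‖h x‖ ≤ C) (R : ℝ) (hs : ∀ x, R < ‖x‖ → h x = 0)
    (ε : ℝ) (hε : 0 < ε) :
    ∃ P ∈ Trig n, ∫ x : EE n, ‖P x * ((gw p x : ℝ) : ℂ) - h x‖ ≤ ε ∧
      ∫ x : EE n, ‖P x * ((gw p x : ℝ) : ℂ) - h x‖ ^ p ≤ ε := by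
  obtain ⟨C, hC⟩ := hb
  have hp0 : (0 : ℝ) < p := by linarith
  have hC0 : 0 ≤ C := le_trans (norm_nonneg _) (hC 0)
  have hgpos : ∀ x : EE n, 0 < gw p x := fun x => Real.exp_pos _
  have hgcont : Continuous (gw p : EE n → ℝ) := by unfold gw; fun_prop
  -- the target function
  let f : EE n → ℂ := fun x => h x * (((gw p x)⁻¹ : ℝ) : ℂ)
  have hfm : Measurable f := by
    refine hm.mul ?_
    exact Complex.measurable_ofReal.comp (hgcont.measurable.inv)
  have hfb : ∀ x, ‖f x‖ ≤ C * Real.exp (R ^ 2 / (2 * p)) := by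
    intro x
    by_cases hx : R < ‖x‖
    · simp only [f, hs x hx, zero_mul, norm_zero]; positivity
    · have hx' : ‖x‖ ≤ R := not_lt.1 hx
      simp only [f, norm_mul, Complex.norm_real, Real.norm_eq_abs,
        abs_of_pos (inv_pos.2 (hgpos x))]
      refine mul_le_mul (hC x) ?_ (inv_pos.2 (hgpos x)).le hC0
      rw [gw, ← Real.exp_neg, neg_neg]
      refine Real.exp_le_exp.2 ?_
      have : ‖x‖ ^ 2 ≤ R ^ 2 := pow_le_pow_left₀ (norm_nonneg _) hx' 2
      gcongr
  have hfL : MemLp f 2 (dense_mu n) :=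
    MemLp.of_bound hfm.aestronglyMeasurable _ (Eventually.of_forall hfb)
  -- the constants
  set m : ℝ := (dense_mu n).real Set.univ with hmdef
  have hm0 : 0 ≤ m := measureReal_nonneg
  set η : ℝ := ε / (2 * (m + 1)) with hη
  have hη0 : 0 < η := by positivity
  set δ2 : ℝ := min (ε / 2) (ε * η / 2) with hδ2
  have hδ20 : 0 < δ2 := lt_min (by positivity) (by positivity)
  have hcl : hfL.toLp f ∈ (dense_K n).topologicalClosure := by
    rw [dense_K_top]; exact Submodule.mem_top
  rw [← SetLike.mem_coe, Submodule.topologicalClosure_coe, Metric.mem_closure_iff] at hcl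
  obtain ⟨k, hk, hkd⟩ := hcl (Real.sqrt δ2) (Real.sqrt_pos.2 hδ20)
  obtain ⟨P, hP, hPk⟩ := dense_K_rep k hk
  refine ⟨P, hP, ?_⟩
  have hPL : MemLp P 2 (dense_mu n) := (memLp_congr_ae hPk).2 (Lp.memLp k)
  let u : EE n → ℂ := fun x => P x - f x
  have huL : MemLp u 2 (dense_mu n) := hPL.sub hfL
  have hu1 : Integrable (fun x => ‖u x‖) (dense_mu n) := (huL.integrable (by norm_num)).norm
  have hu2 : Integrable (fun x => ‖u x‖ ^ 2) (dense_mu n) := huL.integrable_norm_pow (by norm_num)
  have hI2 : ∫ x, ‖u x‖ ^ 2 ∂(dense_mu n) ≤ δ2 := by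
    have h1 : ‖k - hfL.toLp f‖ ^ 2 = ∫ x, ‖u x‖ ^ 2 ∂(dense_mu n) := by
      have h2 := L2.inner_def (𝕜 := ℂ) (k - hfL.toLp f) (k - hfL.toLp f)
      rw [inner_self_eq_norm_sq_to_K] at h2
      have h3 : ∫ x, inner ℂ ((k - hfL.toLp f : Lp ℂ 2 (dense_mu n)) x)
          ((k - hfL.toLp f : Lp ℂ 2 (dense_mu n)) x) ∂(dense_mu n) =
          ((∫ x, ‖u x‖ ^ 2 ∂(dense_mu n) : ℝ) : ℂ) := by
        rw [← integral_complex_ofReal]
        refine integral_congr_ae ?_
        filter_upwards [Lp.coeFn_sub k (hfL.toLp f), hPk, hfL.coeFn_toLp] with x h4 h5 h6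
        rw [inner_self_eq_norm_sq_to_K, h4, Pi.sub_apply, ← h5, h6]
        simp [u]
      rw [h3] at h2
      refine Complex.ofReal_injective ?_
      rw [← h2]
      push_cast
      rfl
    rw [← h1]
    have h2 : ‖k - hfL.toLp f‖ < Real.sqrt δ2 := by
      rw [← dist_eq_norm, dist_comm]; exact hkd
    calc ‖k - hfL.toLp f‖ ^ 2 ≤ (Real.sqrt δ2) ^ 2 := pow_le_pow_left₀ (norm_nonneg _) h2.le 2
      _ = δ2 := Real.sq_sqrt hδ20.le
  have hI1 : ∫ x, ‖u x‖ ∂(dense_mu n) ≤ ε / 2 := by
    have h1 : ∫ x, ‖u x‖ ∂(dense_mu n) ≤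
        ∫ x, (‖u x‖ ^ 2 * (1 / (2 * η)) + η / 2) ∂(dense_mu n) := by
      refine integral_mono hu1 ((hu2.mul_const _).add (integrable_const _)) fun x => ?_
      simp only
      have h2 : 0 ≤ (‖u x‖ - η) ^ 2 := sq_nonneg _
      rw [← sub_nonneg]
      have h3 : ‖u x‖ ^ 2 * (1 / (2 * η)) + η / 2 - ‖u x‖ = (‖u x‖ - η) ^ 2 / (2 * η) := by
        field_simp; ring
      rw [h3]; positivity
    have h2 : ∫ x, (‖u x‖ ^ 2 * (1 / (2 * η)) + η / 2) ∂(dense_mu n) =
        (∫ x, ‖u x‖ ^ 2 ∂(dense_mu n)) * (1 / (2 * η)) + m * (η / 2) := by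
      rw [integral_add (hu2.mul_const _) (integrable_const _), integral_mul_const,
        integral_const, smul_eq_mul]
    rw [h2] at h1
    have h3 : (∫ x, ‖u x‖ ^ 2 ∂(dense_mu n)) * (1 / (2 * η)) ≤ ε * η / 2 * (1 / (2 * η)) :=
      mul_le_mul_of_nonneg_right (hI2.trans (min_le_right _ _)) (by positivity)
    have h4 : ε * η / 2 * (1 / (2 * η)) = ε / 4 := by field_simp; ring
    have h5 : m * (η / 2) ≤ ε / 4 := by
      have : m * (η / 2) = ε / 4 * (m / (m + 1)) := by rw [hη]; field_simp; ring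
      rw [this]
      have h6 : m / (m + 1) ≤ 1 := by rw [div_le_one (by positivity)]; linarith
      nlinarith
    linarith
  have hI2' : ∫ x, ‖u x‖ ^ 2 ∂(dense_mu n) ≤ ε / 2 := hI2.trans (min_le_left _ _)
  have hgw : ∀ x : EE n, gw p x ≤ dense_w x := by
    intro x
    rw [gw, dense_w]
    refine Real.exp_le_exp.2 (neg_le_neg ?_)
    gcongr
    linarith
  have hgw1 : ∀ x : EE n, gw p x ≤ 1 := by
    intro x
    rw [gw, Real.exp_le_one_iff, neg_nonpos]; positivity
  have hfx : ∀ x, P x * ((gw p x : ℝ) : ℂ) - h x = u x * ((gw p x : ℝ) : ℂ) := by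
    intro x
    have h1 : h x = f x * ((gw p x : ℝ) : ℂ) := by
      simp only [f]
      rw [mul_assoc, ← Complex.ofReal_mul, inv_mul_cancel₀ (hgpos x).ne', Complex.ofReal_one,
        mul_one]
    rw [h1]; simp only [u]; ring
  have hnorm : ∀ x, ‖P x * ((gw p x : ℝ) : ℂ) - h x‖ = ‖u x‖ * gw p x := by
    intro x
    rw [hfx, norm_mul, Complex.norm_real, Real.norm_of_nonneg (hgpos x).le]
  constructor
  · have h1 : ∫ x : EE n, ‖P x * ((gw p x : ℝ) : ℂ) - h x‖ ≤ ∫ x : EE n, dense_w x * ‖u x‖ := by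
      refine integral_mono_of_nonneg (Eventually.of_forall fun x => norm_nonneg _)
        (dense_mu_integrable _ hu1) (Eventually.of_forall fun x => ?_)
      simp only
      rw [hnorm, mul_comm]
      exact mul_le_mul_of_nonneg_right (hgw x) (norm_nonneg _)
    rw [← dense_mu_integral] at h1
    linarith
  · have h1 : ∫ x : EE n, ‖P x * ((gw p x : ℝ) : ℂ) - h x‖ ^ p ≤
        ∫ x : EE n, dense_w x * (‖u x‖ + ‖u x‖ ^ 2) := by
      refine integral_mono_of_nonneg (Eventually.of_forall fun x => by positivity)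
        (dense_mu_integrable _ (hu1.add hu2)) (Eventually.of_forall fun x => ?_)
      simp only
      rw [hnorm, Real.mul_rpow (norm_nonneg _) (hgpos x).le, mul_comm]
      have h2 : gw p x ^ p ≤ dense_w x := by
        calc gw p x ^ p ≤ gw p x ^ (1 : ℝ) :=
              Real.rpow_le_rpow_of_exponent_ge (hgpos x) (hgw1 x) hp.le
          _ = gw p x := Real.rpow_one _
          _ ≤ dense_w x := hgw x
      have h3 : ‖u x‖ ^ p ≤ ‖u x‖ + ‖u x‖ ^ 2 := by
        rcases le_total ‖u x‖ 1 with h4 | h4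
        · rcases eq_or_lt_of_le (norm_nonneg (u x)) with h5 | h5
          · rw [← h5, Real.zero_rpow hp0.ne']; simp
          · calc ‖u x‖ ^ p ≤ ‖u x‖ ^ (1 : ℝ) := Real.rpow_le_rpow_of_exponent_ge h5 h4 hp.le
              _ = ‖u x‖ := Real.rpow_one _
              _ ≤ ‖u x‖ + ‖u x‖ ^ 2 := by nlinarith
        · calc ‖u x‖ ^ p ≤ ‖u x‖ ^ (2 : ℝ) := Real.rpow_le_rpow_of_exponent_le h4 hp2
            _ = ‖u x‖ ^ 2 := by rw [← Real.rpow_natCast]; norm_num
            _ ≤ ‖u x‖ + ‖u x‖ ^ 2 := by linarith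
      exact mul_le_mul h2 h3 (by positivity) (dense_w_pos x).le
    rw [← dense_mu_integral (n := n), integral_add hu1 hu2] at h1
    linarith

end Pool.Agent.Lib.MP_7548d4_gt.F
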