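import Pool.Agent.Lib.MP_7548d4_gt.F.Basic

/-!
# Plancherel for the Fourier transform of the Gaussian of a gauge
-/

set_option autoImplicit false
open MeasureTheory Metric Set Filter Topology

namespace Pool.Agent.Lib.MP_7548d4_gt.F

section Planch

open FourierTransform SchwartzMap

/-- the classical and the `L2` transform agree -/
theorem planch_ae {n : ℕ} (f : EE n → ℂ) (h1 : Integrable f)
    (h2 : MemLp f 2 (volume : Measure (EE n))) :
    ((𝓕 (h2.toLp f) : Lp ℂ 2 (volume : Measure (EE n))) : EE n → ℂ) =ᵐ[volume] 𝓕 f := by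
  have hcont : Continuous (𝓕 f) := by
    have := VectorFourier.fourierIntegral_continuous Real.continuous_fourierChar
      (innerSL ℝ (E := EE n)).continuous₂ h1
    exact this
  apply ae_eq_of_integral_contDiff_smul_eq
  · exact (Lp.memLp (𝓕 (h2.toLp f) : Lp ℂ 2 (volume : Measure (EE n)))).locallyIntegrable one_le_two
  · exact hcont.locallyIntegrable
  · intro g g_smooth g_cpt
    have hg₁ : HasCompactSupport (Complex.ofRealCLM ∘ g) := g_cpt.comp_left rfl
    have hg₂ : ContDiff ℝ ((⊤ : ℕ∞) : WithTop ℕ∞) (Complex.ofRealCLM ∘ g) := by fun_prop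
    set G : 𝓢(EE n, ℂ) := hg₁.toSchwartzMap hg₂ with hG
    have hGx : ∀ x, G x = (g x : ℂ) := fun x => rfl
    have key := congrArg (fun T => T G)
      (Lp.fourier_toTemperedDistribution_eq (h2.toLp f : Lp ℂ 2 (volume : Measure (EE n))))
    simp only [TemperedDistribution.fourier_apply, Lp.toTemperedDistribution_apply] at key
    have e1 : ∫ x : EE n, (𝓕 G) x • (h2.toLp f : EE n → ℂ) x = ∫ x : EE n, (𝓕 G) x • f x := by
      apply integral_congr_ae
      filter_upwards [h2.coeFn_toLp] with x hx
      rw [hx]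
    have e2 : ∫ x : EE n, (𝓕 G) x • f x = ∫ x : EE n, G x • (𝓕 f) x := by
      have := VectorFourier.integral_fourierIntegral_smul_eq_flip (μ := volume) (ν := volume)
        (L := innerₗ (EE n)) Real.continuous_fourierChar continuous_inner (G.integrable) h1
      rw [flip_innerₗ] at this
      exact this
    refine Eq.trans (b := ∫ x : EE n, G x • (𝓕 f) x) ?_ ?_
    · rw [← e2, ← e1, key]
      apply integral_congr_ae
      filter_upwards with x
      rw [hGx]; simp
    · apply integral_congr_ae
      filter_upwards with x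
      rw [hGx]; simp

/-- the cosine transform of an even function -/
theorem planch_cos {n : ℕ} (f : EE n → ℝ) (h1 : Integrable f) (he : ∀ x, f (-x) = f x) (x : EE n) :
    𝓕 (fun y => (f y : ℂ)) x =
      ((∫ y : EE n, f y * Real.cos (2 * Real.pi * inner ℝ x y) : ℝ) : ℂ) := by
  rw [Real.fourier_eq', ← integral_complex_ofReal]
  have hint : ∀ g : ℝ → ℝ, Continuous g → (∀ t, |g t| ≤ 1) →
      Integrable (fun y : EE n => ((f y * g (2 * Real.pi * inner ℝ x y) : ℝ) : ℂ)) := by
    intro g hg hb
    apply Integrable.ofReal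
    apply h1.mul_bdd (c := 1)
    · exact (by fun_prop : Continuous fun y : EE n => g (2 * Real.pi * inner ℝ x y)).aestronglyMeasurable
    · filter_upwards with y
      exact hb _
  have hs : ∫ y : EE n, ((f y * Real.sin (2 * Real.pi * inner ℝ x y) : ℝ) : ℂ) = 0 := by
    have h := integral_neg_eq_self
      (fun y : EE n => ((f y * Real.sin (2 * Real.pi * inner ℝ x y) : ℝ) : ℂ)) volume
    have h' : ∀ y : EE n, ((f (-y) * Real.sin (2 * Real.pi * inner ℝ x (-y)) : ℝ) : ℂ) =
        -((f y * Real.sin (2 * Real.pi * inner ℝ x y) : ℝ) : ℂ) := by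
      intro y
      rw [he, inner_neg_right, mul_neg, Real.sin_neg]
      push_cast; ring
    simp_rw [h'] at h
    rw [integral_neg] at h
    have : (2 : ℂ) * ∫ y : EE n, ((f y * Real.sin (2 * Real.pi * inner ℝ x y) : ℝ) : ℂ) = 0 := by
      linear_combination (-1 : ℂ) * h
    simpa using this
  calc ∫ v : EE n, Complex.exp (((-2 * Real.pi * inner ℝ v x : ℝ) : ℂ) * Complex.I) • ((f v : ℝ) : ℂ)
      = ∫ y : EE n, (((f y * Real.cos (2 * Real.pi * inner ℝ x y) : ℝ) : ℂ) -
          Complex.I * ((f y * Real.sin (2 * Real.pi * inner ℝ x y) : ℝ) : ℂ)) := by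
        apply integral_congr_ae
        filter_upwards with y
        rw [Complex.exp_mul_I, real_inner_comm, ← Complex.ofReal_cos, ← Complex.ofReal_sin]
        have : (-2 * Real.pi * inner ℝ x y : ℝ) = -(2 * Real.pi * inner ℝ x y) := by ring
        rw [this, Real.cos_neg, Real.sin_neg, smul_eq_mul]
        push_cast; ring
    _ = _ := by
        rw [integral_sub (hint _ Real.continuous_cos Real.abs_cos_le_one)
          ((hint _ Real.continuous_sin Real.abs_sin_le_one).const_mul _), integral_const_mul, hs]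
        simp

/-- the cosine transform maps to `L2` -/
theorem planch_mem {n : ℕ} (f : EE n → ℝ) (h1 : Integrable f)
    (h2 : MemLp f 2 (volume : Measure (EE n))) (he : ∀ x, f (-x) = f x) :
    MemLp (fun x => ∫ y : EE n, f y * Real.cos (2 * Real.pi * inner ℝ x y)) 2
      (volume : Measure (EE n)) := by
  have h2c : MemLp (fun y => (f y : ℂ)) 2 (volume : Measure (EE n)) := h2.ofReal
  have hae := planch_ae (fun y => (f y : ℂ)) h1.ofReal h2c
  have hm : MemLp (𝓕 (fun y => (f y : ℂ))) 2 (volume : Measure (EE n)) :=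
    (memLp_congr_ae hae).1 (Lp.memLp _)
  have := hm.re
  refine (memLp_congr_ae ?_).1 this
  filter_upwards with x
  rw [planch_cos f h1 he x]
  simp

/-- Parseval for cosine transforms -/
theorem planch_inner {n : ℕ} (f g : EE n → ℝ) (f1 : Integrable f)
    (f2 : MemLp f 2 (volume : Measure (EE n))) (fe : ∀ x, f (-x) = f x)
    (g1 : Integrable g) (g2 : MemLp g 2 (volume : Measure (EE n))) (ge : ∀ x, g (-x) = g x) :
    ∫ x : EE n, (∫ y : EE n, f y * Real.cos (2 * Real.pi * inner ℝ x y)) *
      (∫ y : EE n, g y * Real.cos (2 * Real.pi * inner ℝ x y)) = ∫ x : EE n, f x * g x := by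
  have f2c : MemLp (fun y => (f y : ℂ)) 2 (volume : Measure (EE n)) := f2.ofReal
  have g2c : MemLp (fun y => (g y : ℂ)) 2 (volume : Measure (EE n)) := g2.ofReal
  have fae := planch_ae (fun y => (f y : ℂ)) f1.ofReal f2c
  have gae := planch_ae (fun y => (g y : ℂ)) g1.ofReal g2c
  have key := Lp.inner_fourier_eq (f2c.toLp _) (g2c.toLp _)
  rw [L2.inner_def, L2.inner_def] at key
  have e1 : ∫ a : EE n, inner ℂ ((𝓕 (f2c.toLp _) : Lp ℂ 2 (volume : Measure (EE n))) a)
      ((𝓕 (g2c.toLp _) : Lp ℂ 2 (volume : Measure (EE n))) a) =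
      ((∫ x : EE n, (∫ y : EE n, f y * Real.cos (2 * Real.pi * inner ℝ x y)) *
      (∫ y : EE n, g y * Real.cos (2 * Real.pi * inner ℝ x y)) : ℝ) : ℂ) := by
    rw [← integral_complex_ofReal]
    apply integral_congr_ae
    filter_upwards [fae, gae] with x hx hx'
    rw [hx, hx', planch_cos f f1 fe, planch_cos g g1 ge]
    simp [mul_comm]
  have e2 : ∫ a : EE n, inner ℂ ((f2c.toLp _ : Lp ℂ 2 (volume : Measure (EE n))) a)
      ((g2c.toLp _ : Lp ℂ 2 (volume : Measure (EE n))) a) =
      ((∫ x : EE n, f x * g x : ℝ) : ℂ) := by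
    rw [← integral_complex_ofReal]
    apply integral_congr_ae
    filter_upwards [f2c.coeFn_toLp, g2c.coeFn_toLp] with x hx hx'
    rw [hx, hx']
    simp [mul_comm]
  rw [e1, e2] at key
  exact_mod_cast key

theorem gh_memLp {n : ℕ} {M : EE n → ℝ} (hM : Gauge M) :
    MemLp (gh M) 2 (volume : Measure (EE n)) := by
  have he : ∀ x, ga M (-x) = ga M x := fun x => by unfold ga; rw [hM.even]
  exact planch_mem (ga M) (ga_integrable hM) (ga_memLp hM) he

theorem gh_planch {n : ℕ} {M : EE n → ℝ} (hM : Gauge M) (t : ℝ) (ht : 0 < t) :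
    ∫ x : EE n, gh M (t • x) * gh M x = (t ^ n)⁻¹ * ∫ x : EE n, ga M (t⁻¹ • x) * ga M x := by
  have he : ∀ x, ga M (-x) = ga M x := fun x => by unfold ga; rw [hM.even]
  have hti : t⁻¹ ≠ 0 := inv_ne_zero ht.ne'
  have i1 : Integrable (fun x : EE n => ga M (t⁻¹ • x)) := (ga_integrable hM).comp_smul hti
  have hc : Continuous (fun x : EE n => ga M (t⁻¹ • x)) := (ga_cont hM).comp (by fun_prop)
  have i2 : MemLp (fun x : EE n => ga M (t⁻¹ • x)) 2 (volume : Measure (EE n)) := by
    rw [memLp_two_iff_integrable_sq hc.aestronglyMeasurable]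
    have := ((memLp_two_iff_integrable_sq (ga_cont hM).aestronglyMeasurable).1 (ga_memLp hM))
    exact this.comp_smul hti
  have ie : ∀ x, ga M (t⁻¹ • (-x)) = ga M (t⁻¹ • x) := by
    intro x; rw [smul_neg, he]
  have key := planch_inner (fun x => ga M (t⁻¹ • x)) (ga M) i1 i2 ie (ga_integrable hM)
    (ga_memLp hM) he
  have hx : ∀ x : EE n, ∫ y : EE n, ga M (t⁻¹ • y) * Real.cos (2 * Real.pi * inner ℝ x y) =
      t ^ n * gh M (t • x) := by
    intro x
    have h := Measure.integral_comp_smul (volume : Measure (EE n))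
      (fun y : EE n => ga M y * Real.cos (2 * Real.pi * inner ℝ (t • x) y)) t⁻¹
    have h' : ∀ y : EE n, ga M (t⁻¹ • y) * Real.cos (2 * Real.pi * inner ℝ (t • x) (t⁻¹ • y)) =
        ga M (t⁻¹ • y) * Real.cos (2 * Real.pi * inner ℝ x y) := by
      intro y
      rw [real_inner_smul_left, real_inner_smul_right, ← mul_assoc t, mul_inv_cancel₀ ht.ne',
        one_mul]
    simp only [h'] at h
    rw [h]
    unfold gh
    simp only [finrank_euclideanSpace, Fintype.card_fin, smul_eq_mul]
    congr 1
    rw [inv_pow, inv_inv, abs_of_pos (by positivity)]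
  simp only [hx] at key
  have h3 : ∫ x : EE n, t ^ n * gh M (t • x) * (∫ y : EE n, ga M y * Real.cos (2 * Real.pi * inner ℝ x y)) =
      t ^ n * ∫ x : EE n, gh M (t • x) * gh M x := by
    rw [← integral_const_mul]
    apply integral_congr_ae
    filter_upwards with x
    unfold gh; ring
  rw [h3] at key
  rw [← key, ← mul_assoc, inv_mul_cancel₀ (by positivity), one_mul]

end Planch

end Pool.Agent.Lib.MP_7548d4_gt.F
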