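import Pool.Agent.Lib.MP_7548d4_gt.F.Basic
import Pool.Agent.Lib.MP_7548d4_gt.F.Planch

/-!
# Mellin transforms of Gaussians
-/

set_option autoImplicit false
open MeasureTheory Metric Set Filter Topology

namespace Pool.Agent.Lib.MP_7548d4_gt.F

theorem mellin_pt (l : ℕ) (hl : 1 ≤ l) (r : ℝ) (hr : 0 < r) :
    (r ^ l)⁻¹ = Cl l * ∫ t in Ioi (0 : ℝ), t ^ ((l : ℝ) - 1) *
      Real.exp (-(Real.pi * t ^ 2 * r ^ 2)) := by
  have hl' : (1 : ℝ) ≤ l := by exact_mod_cast hl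
  have h1 := integral_rpow_mul_exp_neg_mul_rpow (p := 2) (q := (l : ℝ) - 1)
    (b := Real.pi * r ^ 2) two_pos (by linarith) (by positivity)
  have h2 : ∫ t in Ioi (0 : ℝ), t ^ ((l : ℝ) - 1) * Real.exp (-(Real.pi * t ^ 2 * r ^ 2)) =
      ∫ x in Ioi (0 : ℝ), x ^ ((l : ℝ) - 1) * Real.exp (-(Real.pi * r ^ 2) * x ^ (2 : ℝ)) := by
    congr 1
    funext t
    congr 2
    rw [Real.rpow_two]
    ring
  rw [h2, h1, Cl]
  have hG : Real.Gamma ((l : ℝ) / 2) ≠ 0 := (Real.Gamma_pos_of_pos (by linarith)).ne'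
  have e1 : ((l : ℝ) - 1 + 1) / 2 = (l : ℝ) / 2 := by ring
  have e2 : (-((l : ℝ) - 1 + 1)) / 2 = -((l : ℝ) / 2) := by ring
  have e3 : (r ^ 2) ^ ((l : ℝ) / 2) = r ^ l := by
    rw [← Real.rpow_natCast r 2, ← Real.rpow_mul hr.le, ← Real.rpow_natCast r l]
    congr 1
    push_cast
    ring
  rw [e1, e2, Real.rpow_neg (by positivity), Real.mul_rpow Real.pi_pos.le (by positivity), e3]
  have hpi : Real.pi ^ ((l : ℝ) / 2) ≠ 0 := (Real.rpow_pos_of_pos Real.pi_pos _).ne'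
  field_simp

theorem mellin_int_pt (l : ℕ) (hl : 1 ≤ l) (r : ℝ) (hr : 0 < r) :
    IntegrableOn (fun t : ℝ => t ^ ((l : ℝ) - 1) * Real.exp (-(Real.pi * t ^ 2 * r ^ 2)))
      (Ioi 0) := by
  have hl' : (1 : ℝ) ≤ l := by exact_mod_cast hl
  have h1 := integrableOn_rpow_mul_exp_neg_mul_sq (b := Real.pi * r ^ 2) (by positivity)
    (s := (l : ℝ) - 1) (by linarith)
  refine h1.congr_fun (fun t _ => ?_) measurableSet_Ioi
  show t ^ ((l : ℝ) - 1) * Real.exp (-(Real.pi * r ^ 2) * t ^ 2) = _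
  congr 2
  ring

theorem mellin_Cl_pos (l : ℕ) (hl : 1 ≤ l) : 0 < Cl l := by
  have hl' : (1 : ℝ) ≤ l := by exact_mod_cast hl
  unfold Cl
  have := Real.Gamma_pos_of_pos (s := (l : ℝ) / 2) (by linarith)
  have := Real.rpow_pos_of_pos Real.pi_pos ((l : ℝ) / 2)
  positivity

/-- the Fubini step -/
theorem mellin_fub {n l : ℕ} (hl : 1 ≤ l) (hn : 1 ≤ n) {N : EE n → ℝ} (hN : Gauge N)
    {g : EE n → ℝ} (hgc : Continuous g) (hg : Integrable (fun x => (N x ^ l)⁻¹ * g x)) :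
    ∫ x : EE n, (N x ^ l)⁻¹ * g x =
      Cl l * ∫ t in Ioi (0 : ℝ), t ^ ((l : ℝ) - 1) * ∫ x : EE n, ga N (t • x) * g x := by
  have hCl := mellin_Cl_pos l hl
  have : Nontrivial (EE n) := by
    apply Module.nontrivial_of_finrank_pos (R := ℝ)
    rw [finrank_euclideanSpace_fin]
    exact hn
  have hae : ∀ᵐ x : EE n, x ≠ 0 := by
    rw [ae_iff]
    have : {a : EE n | ¬ a ≠ 0} = {0} := by
      ext a
      simp
    rw [this]
    exact measure_singleton _
  set F : EE n → ℝ → ℝ := fun x t =>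
    t ^ ((l : ℝ) - 1) * Real.exp (-(Real.pi * t ^ 2 * N x ^ 2)) * g x with hF
  have hFm : AEStronglyMeasurable (Function.uncurry F)
      ((volume : Measure (EE n)).prod (volume.restrict (Ioi (0 : ℝ)))) := by
    apply Measurable.aestronglyMeasurable
    have h1 : Measurable N := hN.cont.measurable
    have h2 : Measurable g := hgc.measurable
    show Measurable fun p : EE n × ℝ =>
      p.2 ^ ((l : ℝ) - 1) * Real.exp (-(Real.pi * p.2 ^ 2 * N p.1 ^ 2)) * g p.1
    have h3 : Measurable fun p : EE n × ℝ => N p.1 := h1.comp measurable_fst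
    have h4 : Measurable fun p : EE n × ℝ => g p.1 := h2.comp measurable_fst
    have h5 : Measurable fun p : EE n × ℝ => p.2 ^ ((l : ℝ) - 1) :=
      measurable_snd.pow_const _
    refine (h5.mul ?_).mul h4
    exact ((((measurable_snd.pow_const 2).const_mul Real.pi).mul (h3.pow_const 2)).neg).exp
  have hFn : ∀ x : EE n, x ≠ 0 → ∫ t in Ioi (0 : ℝ), ‖F x t‖ = (Cl l)⁻¹ * ‖(N x ^ l)⁻¹ * g x‖ := by
    intro x hx
    have h1 := mellin_pt l hl (N x) (hN.pos hx)
    have h2 : ∫ t in Ioi (0 : ℝ), ‖F x t‖ = ∫ t in Ioi (0 : ℝ), (t ^ ((l : ℝ) - 1) *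
        Real.exp (-(Real.pi * t ^ 2 * N x ^ 2))) * ‖g x‖ := by
      refine setIntegral_congr_fun measurableSet_Ioi (fun t ht => ?_)
      have ht' : (0 : ℝ) < t := ht
      simp only [hF]
      rw [norm_mul, Real.norm_of_nonneg (mul_nonneg (Real.rpow_nonneg ht'.le _)
        (Real.exp_nonneg _))]
    rw [h2, integral_mul_const, norm_mul, norm_inv, norm_pow, Real.norm_of_nonneg (hN.nonneg x), h1,
      ← mul_assoc, ← mul_assoc, inv_mul_cancel₀ hCl.ne', one_mul]
  have hFi : Integrable (Function.uncurry F)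
      ((volume : Measure (EE n)).prod (volume.restrict (Ioi (0 : ℝ)))) := by
    rw [integrable_prod_iff hFm]
    constructor
    · filter_upwards [hae] with x hx
      exact (mellin_int_pt l hl (N x) (hN.pos hx)).mul_const (g x)
    · refine (hg.norm.const_mul (Cl l)⁻¹).congr ?_
      filter_upwards [hae] with x hx
      exact (hFn x hx).symm
  have hsw := integral_integral_swap hFi
  have h3 : ∫ x : EE n, (N x ^ l)⁻¹ * g x = Cl l * ∫ x : EE n, ∫ t in Ioi (0 : ℝ), F x t := by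
    rw [← integral_const_mul]
    apply integral_congr_ae
    filter_upwards [hae] with x hx
    simp only [hF]
    rw [integral_mul_const, mellin_pt l hl (N x) (hN.pos hx)]
    ring
  rw [h3, hsw]
  congr 1
  refine setIntegral_congr_fun measurableSet_Ioi (fun t ht => ?_)
  have ht' : (0 : ℝ) < t := ht
  simp only [hF]
  rw [← integral_const_mul]
  congr 1
  funext x
  rw [ga_smul hN t ht'.le]
  ring

/-- integrability near the origin -/
theorem mellin_near {n l : ℕ} (hln : l < n) {N : EE n → ℝ} (hN : Gauge N)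
    {g : EE n → ℝ} (hgc : Continuous g) (hgb : ∃ B : ℝ, ∀ x, |g x| ≤ B) :
    IntegrableOn (fun x => (N x ^ l)⁻¹ * g x) (ball 0 1) := by
  obtain ⟨c, hc, h1⟩ := hN.lower
  obtain ⟨B, hB⟩ := hgb
  have hB0 : 0 ≤ B := (abs_nonneg _).trans (hB 0)
  refine integrableOn_ball_of_norm_le_rpow (C := (c ^ l)⁻¹ * B) (α := (l : ℝ)) ?_ ?_ ?_ ?_
  · rw [finrank_euclideanSpace_fin]
    omega
  · rw [finrank_euclideanSpace_fin]
    exact_mod_cast hln
  · refine Eventually.of_forall fun x => ?_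
    rcases eq_or_ne x 0 with rfl | hx
    · rw [hN.zero, norm_zero]
      rcases Nat.eq_zero_or_pos l with rfl | hl
      · simp only [pow_zero, inv_one, one_mul, Nat.cast_zero, neg_zero, Real.rpow_zero, mul_one]
        exact hB 0
      · rw [zero_pow hl.ne', inv_zero, zero_mul, norm_zero]
        exact mul_nonneg (by positivity) (Real.rpow_nonneg le_rfl _)
    · have hx0 : 0 < ‖x‖ := norm_pos_iff.2 hx
      rw [norm_mul, norm_inv, norm_pow, Real.norm_of_nonneg (hN.nonneg x), Real.rpow_neg hx0.le,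
        Real.rpow_natCast]
      have h2 : (N x ^ l)⁻¹ ≤ ((c * ‖x‖) ^ l)⁻¹ := by
        apply inv_anti₀ (by positivity)
        exact pow_le_pow_left₀ (by positivity) (h1 x) l
      calc (N x ^ l)⁻¹ * ‖g x‖ ≤ ((c * ‖x‖) ^ l)⁻¹ * B :=
            mul_le_mul h2 (hB x) (norm_nonneg _) (by positivity)
        _ = (c ^ l)⁻¹ * B * (‖x‖ ^ l)⁻¹ := by
            rw [mul_pow, mul_inv]
            ring
  · have h2 : Measurable N := hN.cont.measurable
    exact ((h2.pow_const l).inv.mul hgc.measurable).aestronglyMeasurable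

theorem mellin_far_bound {n : ℕ} (l : ℕ) {N : EE n → ℝ} {c : ℝ} (hc : 0 < c)
    (h1 : ∀ x, c * ‖x‖ ≤ N x) {x : EE n} (hx : x ∉ ball (0 : EE n) 1) :
    0 ≤ (N x ^ l)⁻¹ ∧ (N x ^ l)⁻¹ ≤ ((c / 2) ^ l)⁻¹ * ((1 + ‖x‖) ^ l)⁻¹ ∧
      (N x ^ l)⁻¹ ≤ (c ^ l)⁻¹ := by
  have hx1 : 1 ≤ ‖x‖ := by
    rw [mem_ball_zero_iff, not_lt] at hx
    exact hx
  have hN0 : 0 ≤ N x := le_trans (by positivity) (h1 x)
  refine ⟨by positivity, ?_, ?_⟩
  · rw [← mul_inv, ← mul_pow]
    apply inv_anti₀ (by positivity)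
    apply pow_le_pow_left₀ (by positivity)
    refine le_trans ?_ (h1 x)
    nlinarith
  · apply inv_anti₀ (by positivity)
    apply pow_le_pow_left₀ hc.le
    refine le_trans ?_ (h1 x)
    nlinarith

theorem mellin_integrable_one {n l : ℕ} (hln : l < n) {N : EE n → ℝ} (hN : Gauge N)
    {g : EE n → ℝ} (hgc : Continuous g) (hgb : ∃ B : ℝ, ∀ x, |g x| ≤ B) (hgi : Integrable g) :
    Integrable (fun x => (N x ^ l)⁻¹ * g x) := by
  have h0 := mellin_near hln hN hgc hgb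
  obtain ⟨c, hc, h1⟩ := hN.lower
  rw [← integrableOn_univ, ← union_compl_self (ball (0 : EE n) 1)]
  refine h0.union ?_
  have h2 : IntegrableOn (fun x => (c ^ l)⁻¹ * ‖g x‖) (ball (0 : EE n) 1)ᶜ :=
    (hgi.norm.const_mul _).integrableOn
  refine Integrable.mono' h2 ?_ ?_
  · have h2 : Measurable N := hN.cont.measurable
    exact ((h2.pow_const l).inv.mul hgc.measurable).aestronglyMeasurable
  · filter_upwards [ae_restrict_mem measurableSet_ball.compl] with x hx
    obtain ⟨h3, -, h5⟩ := mellin_far_bound l hc h1 hx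
    rw [norm_mul, Real.norm_of_nonneg h3]
    exact mul_le_mul_of_nonneg_right h5 (norm_nonneg _)

theorem mellin_integrable_two {n l : ℕ} (hl : n < 2 * l) (hln : l < n) {N : EE n → ℝ}
    (hN : Gauge N) {g : EE n → ℝ} (hgc : Continuous g) (hgb : ∃ B : ℝ, ∀ x, |g x| ≤ B)
    (hg2 : MemLp g 2 (volume : Measure (EE n))) :
    Integrable (fun x => (N x ^ l)⁻¹ * g x) := by
  have h0 := mellin_near hln hN hgc hgb
  obtain ⟨c, hc, h1⟩ := hN.lower
  rw [← integrableOn_univ, ← union_compl_self (ball (0 : EE n) 1)]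
  refine h0.union ?_
  have hNm : Measurable N := hN.cont.measurable
  have h2 : MemLp (fun x => (N x ^ l)⁻¹) 2 ((volume : Measure (EE n)).restrict (ball 0 1)ᶜ) := by
    have hm0 : AEStronglyMeasurable (fun x => (N x ^ l)⁻¹)
        ((volume : Measure (EE n)).restrict (ball 0 1)ᶜ) :=
      (hNm.pow_const l).inv.aestronglyMeasurable
    rw [memLp_two_iff_integrable_sq hm0]
    have h3 : Integrable (fun x : EE n => (1 + ‖x‖) ^ (-((2 * l : ℕ) : ℝ))) := by
      apply integrable_one_add_norm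
      rw [finrank_euclideanSpace_fin]
      exact_mod_cast hl
    refine Integrable.mono' ((h3.const_mul (((c / 2) ^ l)⁻¹ ^ 2)).restrict) ?_ ?_
    · exact ((hNm.pow_const l).inv.pow_const 2).aestronglyMeasurable
    · filter_upwards [ae_restrict_mem measurableSet_ball.compl] with x hx
      obtain ⟨h4, h5, -⟩ := mellin_far_bound l hc h1 hx
      rw [Real.norm_of_nonneg (by positivity)]
      refine (pow_le_pow_left₀ h4 h5 2).trans (le_of_eq ?_)
      rw [Real.rpow_neg (by positivity), Real.rpow_natCast, mul_pow]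
      congr 1
      rw [← inv_pow, ← pow_mul, mul_comm l 2, inv_pow]
  have h3 := h2.integrable_mul (hg2.restrict (ball (0 : EE n) 1)ᶜ)
  exact h3

theorem mellin_gJ {n l : ℕ} (hl : n < 2 * l) (hln : l < n) {N M : EE n → ℝ} (hN : Gauge N)
    (hM : Gauge M) : ∫ x : EE n, (N x ^ l)⁻¹ * gh M x =
      Cl l * ∫ t in Ioi (0 : ℝ), t ^ ((l : ℝ) - 1) * gJ N M t := by
  have h := mellin_fub (l := l) (by omega) (by omega) hN (gh_cont hM)
    (mellin_integrable_two hl hln hN (gh_cont hM) ⟨gv M, gh_abs_le hM⟩ (gh_memLp hM))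
  exact h

theorem mellin_ga_aux {n k : ℕ} (hk : 1 ≤ k) (hkn : k < n) {N : EE n → ℝ} (hN : Gauge N) :
    ∫ x : EE n, (N x ^ k)⁻¹ * ga N x = gv N * (Cl k * ∫ t in Ioi (0 : ℝ), t ^ ((k : ℝ) - 1) *
      (1 + t ^ 2) ^ (-((n : ℝ) / 2))) := by
  have key : (∫ t in Ioi (0 : ℝ), t ^ ((k : ℝ) - 1) * ∫ x : EE n, ga N (t • x) * ga N x) =
      gv N * ∫ t in Ioi (0 : ℝ), t ^ ((k : ℝ) - 1) * (1 + t ^ 2) ^ (-((n : ℝ) / 2)) := by
    rw [← integral_const_mul]
    refine setIntegral_congr_fun measurableSet_Ioi (fun t ht => ?_)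
    have ht' : (0 : ℝ) < t := ht
    have h1 : ∀ x : EE n, ga N (t • x) * ga N x =
        Real.exp (-(Real.pi * (1 + t ^ 2) * N x ^ 2)) := by
      intro x
      rw [ga_smul hN t ht'.le]
      unfold ga
      rw [← Real.exp_add]
      congr 1
      ring
    show t ^ ((k : ℝ) - 1) * ∫ x : EE n, ga N (t • x) * ga N x = gv N * (t ^ ((k : ℝ) - 1) *
        (1 + t ^ 2) ^ (-((n : ℝ) / 2)))
    simp only [h1]
    have hpos : 0 < 1 + t ^ 2 := by positivity
    rw [integral_exp_gauge hN _ (by positivity), Real.rpow_neg hpos.le, ← Real.inv_rpow hpos.le]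
    have e : Real.pi / (Real.pi * (1 + t ^ 2)) = (1 + t ^ 2)⁻¹ := by
      field_simp
    rw [e]
    ring
  rw [mellin_fub hk (by omega) hN (ga_cont hN) (mellin_integrable_one hkn hN (ga_cont hN)
    ⟨1, fun x => by rw [abs_of_pos (ga_pos N x)]; exact ga_le_one N x⟩ (ga_integrable hN)), key]
  ring

theorem mellin_ga {n k : ℕ} (hk : 1 ≤ k) (hkn : k < n) {N : EE n → ℝ} (hN : Gauge N) :
    ∫ x : EE n, (N x ^ k)⁻¹ * ga N x =
      gv N * ∫ x : EE n, (‖x‖ ^ k)⁻¹ * ga (fun y : EE n => ‖y‖) x := by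
  rw [mellin_ga_aux hk hkn hN, mellin_ga_aux hk hkn (gauge_norm n), gv_norm, one_mul]

end Pool.Agent.Lib.MP_7548d4_gt.F
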