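import Pool.Agent.Lib.MP_7548d4_gt.F.Mellin
import Pool.Agent.Lib.MP_7548d4_gt.Multilin
import Pool.Agent.Lib.MP_7548d4_gt.GaussInt
import Pool.Agent.Lib.MP_7548d4_gt.GaussForm

/-!
# The pairing identity on the closed relation
-/

set_option autoImplicit false
open MeasureTheory Metric Set Filter Topology

namespace Pool.Agent.Lib.MP_7548d4_gt.F

/-- the gauge of an ellipsoid -/
noncomputable def pair_N {n : ℕ} (B : EE n ≃L[ℝ] EE n) (x : EE n) : ℝ := ‖B.symm x‖

theorem pair_gauge {n : ℕ} (B : EE n ≃L[ℝ] EE n) : Gauge (pair_N B) where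
  cont := by unfold pair_N; fun_prop
  lower := by
    refine ⟨(‖(B : EE n →L[ℝ] EE n)‖ + 1)⁻¹, by positivity, fun x => ?_⟩
    rw [inv_mul_le_iff₀ (by positivity)]
    have h1 := (B : EE n →L[ℝ] EE n).le_opNorm (B.symm x)
    have h2 : ((B : EE n →L[ℝ] EE n) (B.symm x)) = x := B.apply_symm_apply x
    rw [h2] at h1
    unfold pair_N
    have := norm_nonneg (B.symm x)
    nlinarith
  hom := by
    intro r hr x
    unfold pair_N
    rw [map_smul, norm_smul, Real.norm_of_nonneg hr]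
  even := by
    intro x
    unfold pair_N
    rw [map_neg, norm_neg]

/-- change of variables, real functions -/
theorem pair_integral {n : ℕ} (B : EE n ≃L[ℝ] EE n) (g : EE n → ℝ) :
    ∫ z, g (B.symm z) = taskJ_det B * ∫ y, g y := by
  have h1 : ∫ y, g y = ∫ y, g (B.symm (B y)) := by simp
  have h2 := (taskJ_emb B).integral_map (μ := (volume : Measure (EE n)))
    (fun z => g (B.symm z))
  rw [taskJ_map, integral_smul_measure] at h2
  rw [h1, ← h2, ENNReal.toReal_ofReal (inv_nonneg.2 (taskJ_det_pos B).le)]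
  rw [smul_eq_mul, ← mul_assoc, mul_inv_cancel₀ (taskJ_det_pos B).ne', one_mul]

theorem pair_adj_norm {n : ℕ} (B : EE n ≃L[ℝ] EE n) (x : EE n) :
    pair_N (taskJ_adj B).symm x = ‖ContinuousLinearMap.adjoint (B : EE n →L[ℝ] EE n) x‖ := rfl

/-- the Fourier transform of the Gaussian of an ellipsoid -/
theorem pair_gh {n : ℕ} (B : EE n ≃L[ℝ] EE n) (y : EE n) :
    gh (pair_N B) y = taskJ_det B * ga (pair_N (taskJ_adj B).symm) y := by
  have h1 : ∀ x : EE n, ga (pair_N B) x * Real.cos (2 * Real.pi * inner ℝ y x) =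
      (fun z : EE n => ga (fun y : EE n => ‖y‖) z * Real.cos (2 * Real.pi *
        inner ℝ (ContinuousLinearMap.adjoint (B : EE n →L[ℝ] EE n) y) z)) (B.symm x) := by
    intro x
    simp only
    rw [ContinuousLinearMap.adjoint_inner_left]
    have : ((B : EE n →L[ℝ] EE n) (B.symm x)) = x := B.apply_symm_apply x
    rw [this]
    rfl
  unfold gh
  simp only [h1]
  rw [pair_integral B (fun z : EE n => ga (fun y : EE n => ‖y‖) z * Real.cos (2 * Real.pi *
        inner ℝ (ContinuousLinearMap.adjoint (B : EE n →L[ℝ] EE n) y) z))]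
  have h2 : ∫ z : EE n, ga (fun y : EE n => ‖y‖) z * Real.cos (2 * Real.pi *
        inner ℝ (ContinuousLinearMap.adjoint (B : EE n →L[ℝ] EE n) y) z) =
      gh (fun x : EE n => ‖x‖) (ContinuousLinearMap.adjoint (B : EE n →L[ℝ] EE n) y) := rfl
  rw [h2, gh_norm]
  rfl

/-- the Fourier transform is symmetric -/
theorem pair_swap {n : ℕ} {N M : EE n → ℝ} (hN : Gauge N) (hM : Gauge M) :
    ∫ x : EE n, ga N x * gh M x = ∫ x : EE n, gh N x * ga M x := by
  have h1 : ∀ x : EE n, ga N x * gh M x =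
      ∫ y : EE n, ga N x * (ga M y * Real.cos (2 * Real.pi * inner ℝ x y)) := by
    intro x
    rw [integral_const_mul]
    rfl
  have h2 : ∀ y : EE n, gh N y * ga M y =
      ∫ x : EE n, ga N x * (ga M y * Real.cos (2 * Real.pi * inner ℝ x y)) := by
    intro y
    unfold gh
    rw [← integral_mul_const]
    congr 1
    funext x
    rw [real_inner_comm]
    ring
  simp only [h1, h2]
  refine integral_integral_swap ?_
  have h3 : Integrable (fun p : EE n × EE n => ga N p.1 * ga M p.2)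
      ((volume : Measure (EE n)).prod (volume : Measure (EE n))) :=
    (ga_integrable hN).mul_prod (ga_integrable hM)
  refine h3.mono ?_ (Eventually.of_forall fun p => ?_)
  · have c1 := ga_cont hN
    have c2 := ga_cont hM
    apply Continuous.aestronglyMeasurable
    show Continuous fun p : EE n × EE n =>
      ga N p.1 * (ga M p.2 * Real.cos (2 * Real.pi * inner ℝ p.1 p.2))
    fun_prop
  · show ‖ga N p.1 * (ga M p.2 * Real.cos (2 * Real.pi * inner ℝ p.1 p.2))‖ ≤ _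
    rw [← mul_assoc, norm_mul]
    exact mul_le_of_le_one_right (norm_nonneg _) (Real.abs_cos_le_one _)

theorem pair_scale {n : ℕ} (B : EE n ≃L[ℝ] EE n) {M : EE n → ℝ} (hM : Gauge M) {t : ℝ}
    (ht : 0 < t) : ∫ x : EE n, ga (pair_N B) (t • x) * gh M x =
      (t ^ n)⁻¹ * taskJ_det B * ∫ x : EE n, ga (pair_N (taskJ_adj B).symm) (t⁻¹ • x) * ga M x := by
  set B' := taskK_sc t⁻¹ (inv_pos.2 ht) B with hB'
  have h1 : ∀ x : EE n, ga (pair_N B) (t • x) = ga (pair_N B') x := by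
    intro x
    unfold ga pair_N
    rw [hB', taskK_sc_symm, inv_inv, map_smul]
  have h2 : ∀ x : EE n, ga (pair_N (taskJ_adj B).symm) (t⁻¹ • x) =
      ga (pair_N (taskJ_adj B').symm) x := by
    intro x
    unfold ga
    rw [pair_adj_norm, pair_adj_norm, hB', taskK_sc_adj, map_smul]
  have h3 : taskJ_det B' = (t ^ n)⁻¹ * taskJ_det B := by
    have := taskK_sc_det t⁻¹ (inv_pos.2 ht) B
    rw [inv_pow] at this
    exact this
  simp only [h1, h2]
  rw [pair_swap (pair_gauge B') hM, ← integral_const_mul, ← h3]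
  congr 1
  funext x
  rw [pair_gh]
  ring

theorem pair_inv (G : ℝ → ℝ) (k l n : ℕ) (hn : n = k + l) :
    ∫ t in Ioi (0 : ℝ), t ^ ((l : ℝ) - 1) * ((t ^ n)⁻¹ * G t⁻¹) =
      ∫ t in Ioi (0 : ℝ), t ^ ((k : ℝ) - 1) * G t := by
  have h4 := integral_comp_rpow_Ioi (fun t : ℝ => t ^ ((k : ℝ) - 1) * G t) (p := -1) (by norm_num)
  rw [← h4]
  refine setIntegral_congr_fun measurableSet_Ioi fun t ht => ?_
  have ht' : (0 : ℝ) < t := ht
  simp only [smul_eq_mul]
  rw [Real.rpow_neg_one, abs_neg, abs_one, one_mul, Real.inv_rpow ht'.le, ← Real.rpow_neg ht'.le,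
    ← mul_assoc, ← mul_assoc, ← Real.rpow_add ht']
  congr 1
  rw [← Real.rpow_natCast, ← Real.rpow_neg ht'.le, ← Real.rpow_add ht']
  congr 1
  rw [hn]
  push_cast
  ring

theorem pair_ae_ne {n : ℕ} (hn : 1 ≤ n) : ∀ᵐ x : EE n, x ≠ 0 := by
  have : Nontrivial (EE n) := by
    apply Module.nontrivial_of_finrank_pos (R := ℝ)
    rw [finrank_euclideanSpace_fin]
    exact hn
  rw [ae_iff]
  have : {a : EE n | ¬ a ≠ 0} = {0} := by
    ext a
    simp
  rw [this]
  exact measure_singleton _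

/-- the identity for the generators -/
theorem pair_gen {n k l : ℕ} (hn : n = k + l) (hk : 1 ≤ k) (hkl : k < l) (B : EE n ≃L[ℝ] EE n)
    {M : EE n → ℝ} (hM : Gauge M) :
    ∫ x : EE n, (pair_N B x ^ l)⁻¹ * gh M x =
      Cl l / Cl k * (taskJ_det B * ∫ x : EE n, (pair_N (taskJ_adj B).symm x ^ k)⁻¹ * ga M x) := by
  have hCk := mellin_Cl_pos k hk
  rw [mellin_fub (l := l) (by omega) (by omega) (pair_gauge B) (gh_cont hM)
    (mellin_integrable_two (by omega) (by omega) (pair_gauge B) (gh_cont hM) ⟨gv M, gh_abs_le hM⟩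
      (gh_memLp hM)),
    mellin_fub (l := k) hk (by omega) (pair_gauge (taskJ_adj B).symm) (ga_cont hM)
    (mellin_integrable_one (by omega) (pair_gauge _) (ga_cont hM)
    ⟨1, fun x => by rw [abs_of_pos (ga_pos M x)]; exact ga_le_one M x⟩ (ga_integrable hM))]
  have h1 : ∫ t in Ioi (0 : ℝ), t ^ ((l : ℝ) - 1) * ∫ x : EE n, ga (pair_N B) (t • x) * gh M x =
      ∫ t in Ioi (0 : ℝ), t ^ ((l : ℝ) - 1) * ((t ^ n)⁻¹ * (fun s : ℝ => taskJ_det B *
        ∫ x : EE n, ga (pair_N (taskJ_adj B).symm) (s • x) * ga M x) t⁻¹) := by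
    refine setIntegral_congr_fun measurableSet_Ioi fun t ht => ?_
    have ht' : (0 : ℝ) < t := ht
    simp only
    rw [pair_scale B hM ht']
    ring
  rw [h1, pair_inv (fun s : ℝ => taskJ_det B *
        ∫ x : EE n, ga (pair_N (taskJ_adj B).symm) (s • x) * ga M x) k l n hn]
  have h2 : ∫ t in Ioi (0 : ℝ), t ^ ((k : ℝ) - 1) * (taskJ_det B *
        ∫ x : EE n, ga (pair_N (taskJ_adj B).symm) (t • x) * ga M x) =
      taskJ_det B * ∫ t in Ioi (0 : ℝ), t ^ ((k : ℝ) - 1) *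
        ∫ x : EE n, ga (pair_N (taskJ_adj B).symm) (t • x) * ga M x := by
    rw [← integral_const_mul]
    congr 1
    funext t
    ring
  rw [h2]
  field_simp

/-- an integral functional -/
noncomputable def pair_lin {n : ℕ} (w : EE n → ℝ) (hw : Integrable w) : C(SS n, ℝ) →ₗ[ℝ] ℝ where
  toFun u := ∫ x : EE n, ext u x * w x
  map_add' u v := by
    have hi : ∀ u : C(SS n, ℝ), Integrable (fun x : EE n => ext u x * w x) := fun u =>
      hw.bdd_mul (c := ‖u‖) (taskL_measurable_ext u).aestronglyMeasurable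
        (Eventually.of_forall fun x => taskL_abs_ext_le u x)
    rw [← integral_add (hi u) (hi v)]
    congr 1
    funext x
    rw [taskL_ext_add]
    ring
  map_smul' c u := by
    rw [RingHom.id_apply, smul_eq_mul, ← integral_const_mul]
    congr 1
    funext x
    rw [taskL_ext_smul]
    ring

theorem pair_lin_continuous {n : ℕ} (w : EE n → ℝ) (hw : Integrable w) :
    Continuous (pair_lin w hw) := by
  refine AddMonoidHomClass.continuous_of_bound (pair_lin w hw) (∫ x : EE n, ‖w x‖) fun u => ?_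
  change ‖∫ x : EE n, ext u x * w x‖ ≤ _
  rw [← integral_mul_const]
  refine (norm_integral_le_integral_norm _).trans ?_
  refine integral_mono_of_nonneg (Eventually.of_forall fun x => norm_nonneg _)
    (hw.norm.mul_const _) (Eventually.of_forall fun x => ?_)
  simp only
  rw [norm_mul, mul_comm]
  exact mul_le_mul_of_nonneg_left (taskL_abs_ext_le u x) (norm_nonneg _)

theorem pair_ext_hat {n k : ℕ} (B : EE n ≃L[ℝ] EE n) (f : C(SS n, ℝ))
    (hf : ∀ θ : SS n, f θ = Ehat k B θ) {x : EE n} (hx : x ≠ 0) :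
    ext f x * (‖x‖ ^ k)⁻¹ = taskJ_det B * (pair_N (taskJ_adj B).symm x ^ k)⁻¹ := by
  obtain ⟨h1, e1⟩ := taskL_ext_of_ne f hx
  rw [e1, hf]
  have hx' : 0 < ‖x‖ := norm_pos_iff.2 hx
  rw [pair_adj_norm]
  simp only [Ehat, taskJ_det]
  rw [map_smul, norm_smul, norm_inv, norm_norm, mul_pow, mul_inv, inv_pow, inv_inv]
  have h3 : ‖x‖ ^ k ≠ 0 := pow_ne_zero _ hx'.ne'
  field_simp

theorem pair_identity {n k l : ℕ} (hn : n = k + l) (hk : 1 ≤ k) (hkl : k < l) :
    ∃ c : ℝ, 0 < c ∧ ∀ P ∈ Rel n k l, ∀ M : EE n → ℝ, Gauge M →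
      ∫ x : EE n, ext P.1 x * (‖x‖ ^ l)⁻¹ * gh M x =
        c * ∫ x : EE n, ext P.2 x * (‖x‖ ^ k)⁻¹ * ga M x := by
  refine ⟨Cl l / Cl k, div_pos (mellin_Cl_pos l (by omega)) (mellin_Cl_pos k hk),
    fun P hP M hM => ?_⟩
  have hw1 : Integrable (fun x : EE n => (‖x‖ ^ l)⁻¹ * gh M x) :=
    mellin_integrable_two (by omega) (by omega) (gauge_norm n) (gh_cont hM) ⟨gv M, gh_abs_le hM⟩
      (gh_memLp hM)
  have hw2 : Integrable (fun x : EE n => (‖x‖ ^ k)⁻¹ * ga M x) :=
    mellin_integrable_one (by omega) (gauge_norm n) (ga_cont hM)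
    ⟨1, fun x => by rw [abs_of_pos (ga_pos M x)]; exact ga_le_one M x⟩ (ga_integrable hM)
  set Φ : (C(SS n, ℝ) × C(SS n, ℝ)) →ₗ[ℝ] ℝ :=
    (pair_lin _ hw1).comp (LinearMap.fst ℝ _ _) -
      (Cl l / Cl k) • (pair_lin _ hw2).comp (LinearMap.snd ℝ _ _) with hΦ
  have e1 : ∀ P, Φ P = pair_lin _ hw1 P.1 - Cl l / Cl k * pair_lin _ hw2 P.2 := by
    intro P
    simp [hΦ]
  have hΦc : Continuous Φ := by
    have e2 : (Φ : (C(SS n, ℝ) × C(SS n, ℝ)) → ℝ) = fun P =>
        pair_lin _ hw1 P.1 - Cl l / Cl k * pair_lin _ hw2 P.2 := funext e1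
    rw [e2]
    exact ((pair_lin_continuous _ hw1).comp continuous_fst).sub
      (continuous_const.mul ((pair_lin_continuous _ hw2).comp continuous_snd))
  have hker : IsClosed ((LinearMap.ker Φ : Submodule ℝ (C(SS n, ℝ) × C(SS n, ℝ))) :
      Set (C(SS n, ℝ) × C(SS n, ℝ))) := by
    have e1 : ((LinearMap.ker Φ : Submodule ℝ (C(SS n, ℝ) × C(SS n, ℝ))) :
      Set (C(SS n, ℝ) × C(SS n, ℝ))) = Φ ⁻¹' {0} := by ext P; simp
    rw [e1]
    exact isClosed_singleton.preimage hΦc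
  have hsub : Rel n k l ≤ LinearMap.ker Φ := by
    refine Submodule.topologicalClosure_minimal _ ?_ hker
    refine Submodule.span_le.2 fun P hP => ?_
    obtain ⟨B, hB1, hB2⟩ := hP
    change Φ P = 0
    rw [e1, sub_eq_zero]
    have g1 : pair_lin _ hw1 P.1 = ∫ x : EE n, (pair_N B x ^ l)⁻¹ * gh M x := by
      change ∫ x : EE n, ext P.1 x * ((‖x‖ ^ l)⁻¹ * gh M x) = _
      refine integral_congr_ae ?_
      filter_upwards [pair_ae_ne (n := n) (by omega)] with x hx
      rw [taskL_ext_gen l B P.1 hB1 hx]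
      have h3 : ‖x‖ ^ l ≠ 0 := pow_ne_zero _ (norm_ne_zero_iff.2 hx)
      simp only [Efun, pair_N]
      field_simp
    have g2 : pair_lin _ hw2 P.2 = taskJ_det B *
        ∫ x : EE n, (pair_N (taskJ_adj B).symm x ^ k)⁻¹ * ga M x := by
      change ∫ x : EE n, ext P.2 x * ((‖x‖ ^ k)⁻¹ * ga M x) = _
      rw [← integral_const_mul]
      refine integral_congr_ae ?_
      filter_upwards [pair_ae_ne (n := n) (by omega)] with x hx
      rw [← mul_assoc, pair_ext_hat B P.2 hB2 hx]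
      ring
    rw [g1, g2]
    exact pair_gen hn hk hkl B hM
  have h3 : Φ P = 0 := hsub hP
  rw [e1, sub_eq_zero] at h3
  have e3 : pair_lin _ hw1 P.1 = ∫ x : EE n, ext P.1 x * (‖x‖ ^ l)⁻¹ * gh M x := by
    change ∫ x : EE n, ext P.1 x * ((‖x‖ ^ l)⁻¹ * gh M x) = _
    congr 1
    funext x
    ring
  have e4 : pair_lin _ hw2 P.2 = ∫ x : EE n, ext P.2 x * (‖x‖ ^ k)⁻¹ * ga M x := by
    change ∫ x : EE n, ext P.2 x * ((‖x‖ ^ k)⁻¹ * ga M x) = _
    congr 1
    funext x
    ring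
  rw [← e3, ← e4]
  exact h3

end Pool.Agent.Lib.MP_7548d4_gt.F
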