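import Pool.Agent.Lib.MP_7548d4_gt.F.Core
import Pool.Agent.Lib.MP_7548d4_gt.F.Mellin
import Pool.Agent.Lib.MP_7548d4_gt.F.Pair
import Pool.Agent.Lib.MP_7548d4_gt.Main

/-!
# The Busemann inequality for k-intersection bodies
-/

set_option autoImplicit false
open MeasureTheory Metric Set Filter Topology

namespace Pool.Agent.Lib.MP_7548d4_gt.F

theorem gauge_gau {n : ℕ} (hn : 1 ≤ n) {K : Set (EE n)} (hK : IsStarBody K)
    (hKs : ∀ x ∈ K, -x ∈ K) : Gauge (gau K) := by
  obtain ⟨c, C, hc, hC, h1, h2⟩ := IsStarBody.gau_bounds hn hK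
  refine ⟨hK.continuous_gau, ⟨c, hc, h1⟩, fun r hr x => gau_smul K hr x, fun x => ?_⟩
  unfold gau
  rw [radial_neg hKs]

theorem gv_gau {n : ℕ} (hn : 1 ≤ n) {K : Set (EE n)} (hK : IsStarBody K)
    (hKs : ∀ x ∈ K, -x ∈ K) : gv (gau K) = (volume K).toReal / kap n := by
  obtain ⟨c, C, hc, hC, h1, h2⟩ := IsStarBody.gau_bounds hn hK
  have h3 := lintegral_exp_gauge hn (gau K) hK.continuous_gau c C hc h1 h2
    (fun r hr x => gau_smul K hr x) Real.pi Real.pi_pos
  have h4 : {x | gau K x ≤ 1} = K := by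
    ext x
    exact (hK.mem_iff_gau hn x).symm
  rw [h4] at h3
  have h5 : gv (gau K) = (∫⁻ x, ENNReal.ofReal (Real.exp (-(Real.pi * gau K x ^ 2)))).toReal := by
    unfold gv ga
    rw [integral_eq_lintegral_of_nonneg_ae]
    · exact Filter.Eventually.of_forall fun x => (Real.exp_pos _).le
    · exact (Real.continuous_exp.comp
        ((hK.continuous_gau.pow 2).const_mul _).neg).aestronglyMeasurable
  have h6 : 0 < Real.Gamma (1 + (n : ℝ) / 2) := Real.Gamma_pos_of_pos (by positivity)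
  have h7 : 0 < Real.pi ^ ((n : ℝ) / 2) := Real.rpow_pos_of_pos Real.pi_pos _
  rw [h5, h3, ENNReal.toReal_mul, ENNReal.toReal_ofReal
    (mul_nonneg h6.le (Real.rpow_nonneg Real.pi_pos.le _)), kap, Real.rpow_neg Real.pi_pos.le]
  field_simp

/-- extension of a power of a gauge -/
theorem final_ext {n l : ℕ} (hl : 1 ≤ l) {N : EE n → ℝ} (hN : Gauge N) (f : C(SS n, ℝ)) (a : ℝ)
    (hf : ∀ θ : SS n, f θ = a * (N θ ^ l)⁻¹) (x : EE n) :
    ext f x * (‖x‖ ^ l)⁻¹ = a * (N x ^ l)⁻¹ := by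
  by_cases hx : x = 0
  · subst hx
    have h1 : ext f 0 = 0 := taskL_ext_zero f
    rw [h1, hN.zero, zero_pow (by omega), inv_zero, zero_mul, mul_zero]
  · obtain ⟨h1, e1⟩ := taskL_ext_of_ne f hx
    have hx1 : 0 < ‖x‖ := norm_pos_iff.mpr hx
    have h2 : N (‖x‖⁻¹ • x) = ‖x‖⁻¹ * N x := hN.hom _ (by positivity) x
    rw [e1, hf]
    change a * (N (‖x‖⁻¹ • x) ^ l)⁻¹ * (‖x‖ ^ l)⁻¹ = _
    rw [h2, mul_pow, mul_inv, inv_pow, inv_inv]
    field_simp

theorem final_Cl_pos (l : ℕ) (hl : 1 ≤ l) : 0 < Cl l := by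
  unfold Cl
  have h0 : (0 : ℝ) < l := by exact_mod_cast hl
  have h1 : 0 < Real.Gamma ((l : ℝ) / 2) := Real.Gamma_pos_of_pos (by positivity)
  have h2 : 0 < Real.pi ^ ((l : ℝ) / 2) := Real.rpow_pos_of_pos Real.pi_pos _
  positivity

theorem final_I_pos {n l : ℕ} (hl : n < 2 * l) (hln : l < n) :
    0 < ∫ t in Ioi (0 : ℝ), t ^ ((l : ℝ) - 1) * (1 + t ^ 2) ^ (-((n : ℝ) / 2)) := by
  have hpos : ∀ t ∈ Ioi (0 : ℝ), 0 < t ^ ((l : ℝ) - 1) * (1 + t ^ 2) ^ (-((n : ℝ) / 2)) := by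
    intro t ht
    have ht0 : 0 < t := ht
    exact mul_pos (Real.rpow_pos_of_pos ht0 _) (Real.rpow_pos_of_pos (by positivity) _)
  rw [setIntegral_pos_iff_support_of_nonneg_ae]
  · have h1 : Ioi (0 : ℝ) ⊆ Function.support
        (fun t : ℝ => t ^ ((l : ℝ) - 1) * (1 + t ^ 2) ^ (-((n : ℝ) / 2))) ∩ Ioi 0 :=
      fun t ht => ⟨(hpos t ht).ne', ht⟩
    refine lt_of_lt_of_le ?_ (measure_mono h1)
    simp
  · filter_upwards [ae_restrict_mem measurableSet_Ioi] with t ht
    exact (hpos t ht).le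
  · exact core_ball hl hln

/-- The Busemann inequality for `k`-intersection bodies, `2 k < n` -/
theorem busemann_full {n k : ℕ} (hk : 1 ≤ k) (hkn : 2 * k < n)
    {K L : Set (EE n)} (hK : IsStarBody K) (hL : IsStarBody L) (hKs : ∀ x ∈ K, -x ∈ K)
    (hLs : ∀ x ∈ L, -x ∈ L) (h : IsKIntersectionBody k K L) :
    (volume L).toReal ^ k ≤ kap (n - k) ^ n / (kap k ^ n * kap n ^ (n - 2 * k)) *
      (volume K).toReal ^ (n - k) := by
  set l : ℕ := n - k with hl
  have hn' : n = k + l := by omega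
  have hl1 : 1 ≤ l := by omega
  have hkl : k < l := by omega
  have hn2l : n < 2 * l := by omega
  have hln : l < n := by omega
  have hn1 : 1 ≤ n := by omega
  have hkk := kap_pos k
  have hkl' := kap_pos l
  have hkn' := kap_pos n
  have hN := gauge_gau hn1 hK hKs
  have hM := gauge_gau hn1 hL hLs
  -- the functions
  have hKc : Continuous (fun θ : SS n => radial K θ) :=
    continuousOn_iff_continuous_domRestrict.1 hK.cont
  have hLc : Continuous (fun θ : SS n => radial L θ) :=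
    continuousOn_iff_continuous_domRestrict.1 hL.cont
  set f : C(SS n, ℝ) := ⟨fun θ => radial K θ ^ l, hKc.pow l⟩ with hf
  set g : C(SS n, ℝ) := ⟨fun θ => kap k / kap l * radial L θ ^ k, (hLc.pow k).const_mul _⟩ with hg
  have hfe : ∀ θ : SS n, f (-θ) = f θ := by
    intro θ
    have h1 : ((-θ : SS n) : EE n) = -(θ : EE n) := rfl
    simp only [hf, ContinuousMap.coe_mk, h1, radial_neg hKs]
  have hge : ∀ θ : SS n, g (-θ) = g θ := by
    intro θ
    have h1 : ((-θ : SS n) : EE n) = -(θ : EE n) := rfl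
    simp only [hg, ContinuousMap.coe_mk, h1, radial_neg hLs]
  have hav : ∀ B : EE n ≃L[ℝ] EE n, ∫ θ : SS n, g θ * Efun l B θ ∂(sig n) =
      ∫ θ : SS n, f θ * Ehat k B θ ∂(sig n) := by
    intro B
    have h1 := average_identity hn' hk hl1 hK hL h B
    have h2 : ∫ θ : SS n, g θ * Efun l B θ ∂(sig n) =
        kap k / kap l * ∫ θ : SS n, radial L θ ^ k * Efun l B θ ∂(sig n) := by
      rw [← integral_const_mul]
      refine integral_congr_ae (Filter.Eventually.of_forall fun θ => ?_)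
      simp only [hg, ContinuousMap.coe_mk]
      ring
    have h3 : ∫ θ : SS n, f θ * Ehat k B θ ∂(sig n) =
        ∫ θ : SS n, radial K θ ^ l * Ehat k B θ ∂(sig n) := rfl
    rw [h2, h3]
    field_simp
    linarith
  have hRel : (f, g) ∈ Rel n k l := mem_Rel hn' hk hl1 f g hfe hge hav
  obtain ⟨c, hc, hpair⟩ := pair_identity hn' hk hkl
  -- identity for K, L
  have e1 := hpair (f, g) hRel (gau L) hM
  have e1a : ∀ x : EE n, ext f x * (‖x‖ ^ l)⁻¹ = (gau K x ^ l)⁻¹ := by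
    intro x
    have := final_ext hl1 hN f 1 (fun θ => by simp [hf, gau]) x
    rw [one_mul] at this
    exact this
  have e1b : ∀ x : EE n, ext g x * (‖x‖ ^ k)⁻¹ = kap k / kap l * (gau L x ^ k)⁻¹ := by
    intro x
    exact final_ext hk hM g (kap k / kap l) (fun θ => by simp [hg, gau]) x
  simp only [e1a, e1b] at e1
  have e1c : ∫ x : EE n, kap k / kap l * (gau L x ^ k)⁻¹ * ga (gau L) x =
      kap k / kap l * ∫ x : EE n, (gau L x ^ k)⁻¹ * ga (gau L) x := by
    rw [← integral_const_mul]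
    refine integral_congr_ae (Filter.Eventually.of_forall fun x => ?_)
    simp only
    ring
  rw [e1c, mellin_gJ hn2l hln hN hM, mellin_ga hk (by omega) hM] at e1
  -- identity for the ball
  have e2 := hpair (1, 1) (one_mem_Rel n k l) (fun x : EE n => ‖x‖) (gauge_norm n)
  have e2a : ∀ (j : ℕ), 1 ≤ j → ∀ x : EE n, ext (1 : C(SS n, ℝ)) x * (‖x‖ ^ j)⁻¹ = (‖x‖ ^ j)⁻¹ := by
    intro j hj x
    have := final_ext hj (gauge_norm n) 1 1 (fun θ => by simp) x
    rw [one_mul] at this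
    exact this
  simp only [e2a l hl1, e2a k hk] at e2
  rw [mellin_gJ hn2l hln (gauge_norm n) (gauge_norm n)] at e2
  simp only [gJ_norm] at e2
  -- the main inequality
  have e3 := core hn2l hln hN hM
  have hCl := final_Cl_pos l hl1
  have hI := final_I_pos hn2l hln
  set I0 : ℝ := ∫ t in Ioi (0 : ℝ), t ^ ((l : ℝ) - 1) * (1 + t ^ 2) ^ (-((n : ℝ) / 2)) with hI0
  set A : ℝ := ∫ x : EE n, (‖x‖ ^ k)⁻¹ * ga (fun y : EE n => ‖y‖) x with hA
  have hvN := gv_pos hN
  have hvM := gv_pos hM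
  have hcA : 0 < c * A := by rw [← e2]; positivity
  have e4 : kap k / kap l * gv (gau L) ≤ (gv (gau K) * gv (gau L)) ^ ((l : ℝ) / n) := by
    have h1 : (c * A) * (kap k / kap l * gv (gau L)) ≤
        (c * A) * (gv (gau K) * gv (gau L)) ^ ((l : ℝ) / n) := by
      calc (c * A) * (kap k / kap l * gv (gau L)) = c * (kap k / kap l * (gv (gau L) * A)) := by ring
        _ = Cl l * ∫ t in Ioi (0 : ℝ), t ^ ((l : ℝ) - 1) * gJ (gau K) (gau L) t := e1.symm
        _ ≤ Cl l * ((gv (gau K) * gv (gau L)) ^ ((l : ℝ) / n) * I0) :=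
            mul_le_mul_of_nonneg_left e3 hCl.le
        _ = (c * A) * (gv (gau K) * gv (gau L)) ^ ((l : ℝ) / n) := by rw [← e2]; ring
    exact le_of_mul_le_mul_left h1 hcA
  have e5 : (kap k / kap l * gv (gau L)) ^ n ≤ (gv (gau K) * gv (gau L)) ^ l := by
    have h1 := pow_le_pow_left₀ (by positivity) e4 n
    refine h1.trans (le_of_eq ?_)
    have hn0 : (n : ℝ) ≠ 0 := by
      have : n ≠ 0 := by omega
      exact_mod_cast this
    rw [← Real.rpow_natCast ((gv (gau K) * gv (gau L)) ^ ((l : ℝ) / n)) n, ← Real.rpow_mul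
      (by positivity), div_mul_cancel₀ _ hn0, Real.rpow_natCast]
  rw [gv_gau hn1 hK hKs] at e5 hvN
  rw [gv_gau hn1 hL hLs] at e5 hvM
  set VK : ℝ := (volume K).toReal with hVK
  set VL : ℝ := (volume L).toReal with hVL
  have hVL0 : 0 < VL := by
    have := mul_pos hvM hkn'
    rwa [div_mul_cancel₀ _ hkn'.ne'] at this
  have e6 : (kap k / kap l) ^ n * (VL / kap n) ^ k ≤ (VK / kap n) ^ l := by
    have h1 : (kap k / kap l * (VL / kap n)) ^ n =
        (kap k / kap l) ^ n * (VL / kap n) ^ k * (VL / kap n) ^ l := by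
      rw [mul_pow, mul_assoc, ← pow_add, ← hn']
    have h2 : (VK / kap n * (VL / kap n)) ^ l = (VK / kap n) ^ l * (VL / kap n) ^ l := mul_pow _ _ _
    rw [h1, h2] at e5
    exact le_of_mul_le_mul_right e5 (by positivity)
  have h10 : n - 2 * k = l - k := by omega
  rw [h10]
  have h14 : kap n ^ l = kap n ^ k * kap n ^ (l - k) := by
    rw [← pow_add]; congr 1; omega
  rw [div_pow, div_pow, div_pow, h14] at e6
  rw [div_mul_div_comm, div_le_div_iff₀ (by positivity) (by positivity)] at e6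
  rw [div_mul_eq_mul_div, le_div_iff₀ (by positivity)]
  have h15 : 0 < kap n ^ k := by positivity
  refine le_of_mul_le_mul_left ?_ h15
  calc kap n ^ k * (VL ^ k * (kap k ^ n * kap n ^ (l - k)))
      = kap k ^ n * VL ^ k * (kap n ^ k * kap n ^ (l - k)) := by ring
    _ ≤ VK ^ l * (kap l ^ n * kap n ^ k) := e6
    _ = kap n ^ k * (kap l ^ n * VK ^ l) := by ring

end Pool.Agent.Lib.MP_7548d4_gt.F
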