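import Pool.Agent.Lib.MP_7548d4_gt.F.BB

/-!
# The bound above scale one
-/

set_option autoImplicit false
open MeasureTheory Metric Set Filter Topology

namespace Pool.Agent.Lib.MP_7548d4_gt.F

/-- the power of a Gaussian -/
theorem tail_int {n : ℕ} {N : EE n → ℝ} (hN : Gauge N) (s p : ℝ) (hs : 0 < s) (hp : 0 < p) :
    ∫ x : EE n, |Real.exp (-(Real.pi * s * N x ^ 2))| ^ p =
      ((s * p)⁻¹) ^ ((n : ℝ) / 2) * gv N := by
  have h1 : ∀ x : EE n, |Real.exp (-(Real.pi * s * N x ^ 2))| ^ p =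
      Real.exp (-(Real.pi * (s * p) * N x ^ 2)) := by
    intro x
    rw [abs_of_pos (Real.exp_pos _), ← Real.exp_mul]
    congr 1
    ring
  simp only [h1]
  rw [integral_exp_gauge hN _ (by positivity)]
  congr 2
  field_simp

/-- the arithmetic of the exponents -/
theorem tail_arith (s : ℝ) (hs : 1 ≤ s) (n : ℕ) (VN VM : ℝ) (hN : 0 < VN) (hM : 0 < VM) :
    (((1 + s) / s) ^ (s / (1 + s)) * (1 + s) ^ (-(1 / (1 + s)))) ^ ((n : ℝ) / 2) *
      (((s * ((1 + s) / s))⁻¹) ^ ((n : ℝ) / 2) * VN) ^ (s / (1 + s)) *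
      (((1 * ((1 + s) / s))⁻¹) ^ ((n : ℝ) / 2) * VM) ^ (s / (1 + s)) =
    (VN * VM) ^ (s / (1 + s)) * (1 + s) ^ (-((n : ℝ) / 2)) := by
  have hs0 : 0 < s := by linarith
  have h1s : 0 < 1 + s := by linarith
  have e1 : s * ((1 + s) / s) = 1 + s := by field_simp
  rw [e1, one_mul]
  set a : ℝ := s / (1 + s) with ha
  have ha1 : 1 / (1 + s) = 1 - a := by rw [ha]; field_simp; ring
  rw [ha1]
  have h0 : 0 < (1 + s) / s := by positivity
  rw [Real.mul_rpow (by positivity) (by positivity), ← Real.rpow_mul h0.le, ← Real.rpow_mul h1s.le,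
    Real.mul_rpow (by positivity) hN.le, Real.mul_rpow (by positivity) hM.le,
    ← Real.rpow_mul (by positivity), ← Real.rpow_mul (by positivity), Real.inv_rpow h1s.le,
    Real.inv_rpow h0.le, ← Real.rpow_neg h1s.le, ← Real.rpow_neg h0.le,
    Real.mul_rpow hN.le hM.le]
  have e2 : ((1 + s) / s) ^ (a * ((n : ℝ) / 2)) * ((1 + s) / s) ^ (-((n : ℝ) / 2 * a)) = 1 := by
    rw [← Real.rpow_add h0]
    have : a * ((n : ℝ) / 2) + -((n : ℝ) / 2 * a) = 0 := by ring
    rw [this, Real.rpow_zero]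
  have e3 : (1 + s) ^ (-(1 - a) * ((n : ℝ) / 2)) * (1 + s) ^ (-((n : ℝ) / 2 * a)) =
      (1 + s) ^ (-((n : ℝ) / 2)) := by
    rw [← Real.rpow_add h1s]
    congr 1
    ring
  calc _ = (((1 + s) / s) ^ (a * ((n : ℝ) / 2)) * ((1 + s) / s) ^ (-((n : ℝ) / 2 * a))) *
        ((1 + s) ^ (-(1 - a) * ((n : ℝ) / 2)) * (1 + s) ^ (-((n : ℝ) / 2 * a))) *
        (VN ^ a * VM ^ a) := by ring
    _ = _ := by rw [e2, e3]; ring

theorem gJ_tail {n : ℕ} {N M : EE n → ℝ} (hN : Gauge N) (hM : Gauge M) (t : ℝ) (ht : 1 ≤ t) :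
    gJ N M t ≤ (gv N * gv M) ^ (t ^ 2 / (1 + t ^ 2)) * (1 + t ^ 2) ^ (-((n : ℝ) / 2)) := by
  have ht0 : 0 < t := by linarith
  set s : ℝ := t ^ 2 with hs
  have hs1 : 1 ≤ s := by rw [hs]; nlinarith
  have hs0 : 0 < s := by linarith
  set p : ℝ := (1 + s) / s with hp
  have hp1 : 1 < p := by
    rw [hp, lt_div_iff₀ hs0]; linarith
  have hp2 : p ≤ 2 := by
    rw [hp, div_le_iff₀ hs0]; linarith
  have hp0 : 0 < p := by linarith
  have hinv : 1 / p = s / (1 + s) := by rw [hp, one_div_div]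
  have hp3 : p / (p - 1) = 1 + s := by
    rw [hp]; field_simp; ring
  have hp4 : 1 - 1 / p = 1 / (1 + s) := by
    rw [hinv]; field_simp; ring
  have hmN : Measurable (ga N) := (ga_cont hN).measurable
  have h1 := bb p hp1 hp2 (fun x => ga N (t • x)) (ga M)
    ((ga_cont hN).comp (continuous_const_smul t)).measurable (ga_cont hM).measurable
    ((ga_integrable hN).comp_smul ht0.ne') (ga_integrable hM)
    ⟨1, fun x => by rw [abs_of_pos (ga_pos _ _)]; exact ga_le_one _ _⟩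
    ⟨1, fun x => by rw [abs_of_pos (ga_pos _ _)]; exact ga_le_one _ _⟩
  have h2 : ∫ x : EE n, |ga N (t • x)| ^ p = ((s * p)⁻¹) ^ ((n : ℝ) / 2) * gv N := by
    rw [← tail_int hN s p hs0 hp0]
    refine integral_congr_ae (Filter.Eventually.of_forall fun x => ?_)
    simp only
    rw [ga_smul hN t ht0.le]
  have h3 : ∫ x : EE n, |ga M x| ^ p = ((1 * p)⁻¹) ^ ((n : ℝ) / 2) * gv M := by
    rw [← tail_int hM 1 p one_pos hp0]
    refine integral_congr_ae (Filter.Eventually.of_forall fun x => ?_)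
    simp only [ga, mul_one]
  rw [h2, h3, hp4, hp3, hinv] at h1
  have h4 := tail_arith s hs1 n (gv N) (gv M) (gv_pos hN) (gv_pos hM)
  rw [← hp] at h4
  rw [h4] at h1
  exact (le_abs_self _).trans h1

end Pool.Agent.Lib.MP_7548d4_gt.F
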