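import Pool.Agent.Lib.MP_7548d4_gt.F.Defs

/-!
# Two-point inequalities of Bonami and Beckner
-/

set_option autoImplicit false
open MeasureTheory Metric Set Filter Topology

namespace Pool.Agent.Lib.MP_7548d4_gt.F

theorem twoPoint_sum_ge_two (s x : ℝ) (hs : s ≤ 0) (hx : 0 ≤ x) (hx1 : x < 1) :
    2 ≤ (1 + x) ^ s + (1 - x) ^ s := by
  have h1 : 0 < (1 + x) ^ s := Real.rpow_pos_of_pos (by linarith) _
  have h2 : 0 < (1 - x) ^ s := Real.rpow_pos_of_pos (by linarith) _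
  have h3 : 1 ≤ (1 + x) ^ s * (1 - x) ^ s := by
    rw [← Real.mul_rpow (by linarith) (by linarith)]
    apply Real.one_le_rpow_of_pos_of_le_one_of_nonpos
    · nlinarith
    · nlinarith
    · exact hs
  nlinarith [sq_nonneg ((1 + x) ^ s - (1 - x) ^ s)]

theorem twoPoint_psi (r x : ℝ) (hr : 0 < r) (hr1 : r ≤ 1) (hx : 0 ≤ x) (hx1 : x ≤ 1) :
    0 ≤ (1 + x) ^ r - (1 - x) ^ r - 2 * r * x := by
  have hmono : MonotoneOn (fun t : ℝ => (1 + t) ^ r - (1 - t) ^ r - 2 * r * t) (Icc 0 1) := by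
    have hd : ∀ t ∈ Ioo (0:ℝ) 1, HasDerivAt (fun t : ℝ => (1 + t) ^ r - (1 - t) ^ r - 2 * r * t)
        (r * ((1 + t) ^ (r - 1) + (1 - t) ^ (r - 1) - 2)) t := by
      intro t ht
      have a1 : HasDerivAt (fun t : ℝ => 1 + t) 1 t := by
        simpa using (hasDerivAt_id t).const_add 1
      have a2 : HasDerivAt (fun t : ℝ => 1 - t) (-1) t := by
        simpa using (hasDerivAt_id t).const_sub 1
      have b1 := a1.rpow_const (p := r) (Or.inl (by have := ht.1; linarith : (1 + t) ≠ 0 ))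
      have b2 := a2.rpow_const (p := r) (Or.inl (by have := ht.2; linarith : (1 - t) ≠ 0 ))
      have b3 : HasDerivAt (fun t : ℝ => 2 * r * t) (2 * r * 1) t :=
        (hasDerivAt_id t).const_mul (2 * r)
      exact ((b1.sub b2).sub b3).congr_deriv (by ring)
    apply monotoneOn_of_deriv_nonneg (convex_Icc 0 1)
    · apply ContinuousOn.sub
      · apply ContinuousOn.sub
        · apply ContinuousOn.rpow_const (by fun_prop)
          intro t _; right; exact hr.le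
        · apply ContinuousOn.rpow_const (by fun_prop)
          intro t _; right; exact hr.le
      · fun_prop
    · rw [interior_Icc]
      intro t ht
      exact (hd t ht).differentiableAt.differentiableWithinAt
    · rw [interior_Icc]
      intro t ht
      rw [(hd t ht).deriv]
      apply mul_nonneg hr.le
      have := twoPoint_sum_ge_two (r - 1) t (by linarith) ht.1.le ht.2
      linarith
  have := hmono (left_mem_Icc.mpr zero_le_one) ⟨hx, hx1⟩ hx
  simpa using this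

theorem twoPoint_phi (p x : ℝ) (hp : 1 < p) (hp2 : p ≤ 2) (hx : 0 ≤ x) (hx1 : x ≤ 1) :
    2 + p * (p - 1) * x ^ 2 ≤ (1 + x) ^ p + (1 - x) ^ p := by
  have hmono : MonotoneOn (fun t : ℝ => (1 + t) ^ p + (1 - t) ^ p - p * (p - 1) * t ^ 2)
      (Icc 0 1) := by
    have hd : ∀ t ∈ Ioo (0:ℝ) 1,
        HasDerivAt (fun t : ℝ => (1 + t) ^ p + (1 - t) ^ p - p * (p - 1) * t ^ 2)
        (p * ((1 + t) ^ (p - 1) - (1 - t) ^ (p - 1) - 2 * (p - 1) * t)) t := by
      intro t ht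
      have a1 : HasDerivAt (fun t : ℝ => 1 + t) 1 t := by
        simpa using (hasDerivAt_id t).const_add 1
      have a2 : HasDerivAt (fun t : ℝ => 1 - t) (-1) t := by
        simpa using (hasDerivAt_id t).const_sub 1
      have b1 := a1.rpow_const (p := p) (Or.inl (by have := ht.1; linarith : (1 + t) ≠ 0 ))
      have b2 := a2.rpow_const (p := p) (Or.inl (by have := ht.2; linarith : (1 - t) ≠ 0 ))
      have b3 : HasDerivAt (fun t : ℝ => p * (p - 1) * t ^ 2) (p * (p - 1) * (2 * t)) t := by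
        simpa using (hasDerivAt_pow 2 t).const_mul (p * (p - 1))
      exact ((b1.add b2).sub b3).congr_deriv (by ring)
    apply monotoneOn_of_deriv_nonneg (convex_Icc 0 1)
    · apply ContinuousOn.sub
      · apply ContinuousOn.add
        · apply ContinuousOn.rpow_const (by fun_prop)
          intro t _; right; linarith
        · apply ContinuousOn.rpow_const (by fun_prop)
          intro t _; right; linarith
      · fun_prop
    · rw [interior_Icc]
      intro t ht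
      exact (hd t ht).differentiableAt.differentiableWithinAt
    · rw [interior_Icc]
      intro t ht
      rw [(hd t ht).deriv]
      apply mul_nonneg (by linarith)
      exact twoPoint_psi (p - 1) t (by linarith) (by linarith) ht.1.le ht.2.le
  have := hmono (left_mem_Icc.mpr zero_le_one) ⟨hx, hx1⟩ hx
  simp only [add_zero, Real.one_rpow, sub_zero, ne_eq, OfNat.ofNat_ne_zero, not_false_eq_true,
    zero_pow, mul_zero] at this
  linarith

theorem twoPoint_low_unit (p x : ℝ) (hp : 1 < p) (hp2 : p ≤ 2) (hx : 0 ≤ x) (hx1 : x ≤ 1) :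
    (1 + (p - 1) * x ^ 2) ^ (p / 2) ≤ ((1 + x) ^ p + (1 - x) ^ p) / 2 := by
  have h1 := twoPoint_phi p x hp hp2 hx hx1
  have h0 : 0 ≤ (p - 1) * x ^ 2 := mul_nonneg (by linarith) (sq_nonneg _)
  have h2 := rpow_one_add_le_one_add_mul_self (s := (p - 1) * x ^ 2) (by linarith)
    (p := p / 2) (by linarith) (by linarith)
  nlinarith

theorem twoPoint_low_nonneg (p x : ℝ) (hp : 1 < p) (hp2 : p ≤ 2) (hx : 0 ≤ x) :
    (1 + (p - 1) * x ^ 2) ^ (p / 2) ≤ (|1 + x| ^ p + |1 - x| ^ p) / 2 := by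
  rcases le_total x 1 with hx1 | hx1
  · rw [abs_of_nonneg (by linarith : 0 ≤ 1 + x), abs_of_nonneg (by linarith : 0 ≤ 1 - x)]
    exact twoPoint_low_unit p x hp hp2 hx hx1
  · have hx0 : 0 < x := by linarith
    have hy1 : x⁻¹ ≤ 1 := inv_le_one_of_one_le₀ hx1
    have hy0 : 0 ≤ x⁻¹ := by positivity
    have h := twoPoint_low_unit p x⁻¹ hp hp2 hy0 hy1
    have e1 : |1 + x| = x * (1 + x⁻¹) := by
      rw [abs_of_nonneg (by linarith)]; field_simp; ring
    have e2 : |1 - x| = x * (1 - x⁻¹) := by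
      rw [abs_of_nonpos (by linarith)]; field_simp; ring
    rw [e1, e2, Real.mul_rpow hx (by linarith), Real.mul_rpow hx (by linarith)]
    have hxp : 0 ≤ x ^ p := Real.rpow_nonneg hx _
    have h3 : x ^ p * (1 + (p - 1) * x⁻¹ ^ 2) ^ (p / 2) ≤
        (x ^ p * (1 + x⁻¹) ^ p + x ^ p * (1 - x⁻¹) ^ p) / 2 := by
      nlinarith [mul_le_mul_of_nonneg_left h hxp]
    refine le_trans ?_ h3
    have e3 : x ^ p = (x ^ 2) ^ (p / 2) := by
      rw [← Real.rpow_natCast x 2, ← Real.rpow_mul hx]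
      congr 1
      push_cast
      ring
    have h0 : 0 ≤ (p - 1) * x⁻¹ ^ 2 := mul_nonneg (by linarith) (sq_nonneg _)
    rw [e3, ← Real.mul_rpow (by positivity) (by linarith)]
    apply Real.rpow_le_rpow
    · have : 0 ≤ (p - 1) * x ^ 2 := mul_nonneg (by linarith) (sq_nonneg _)
      linarith
    · have e4 : x ^ 2 * (1 + (p - 1) * x⁻¹ ^ 2) = x ^ 2 + (p - 1) := by
        field_simp
      rw [e4]
      nlinarith [mul_nonneg (by linarith : (0:ℝ) ≤ 2 - p) (by nlinarith : (0:ℝ) ≤ x ^ 2 - 1)]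
    · linarith

/-- real two-point inequality, exponents below 2 -/
theorem bonami_low (p x : ℝ) (hp : 1 < p) (hp2 : p ≤ 2) :
    (1 + (p - 1) * x ^ 2) ^ (p / 2) ≤ (|1 + x| ^ p + |1 - x| ^ p) / 2 := by
  rcases le_total 0 x with hx | hx
  · exact twoPoint_low_nonneg p x hp hp2 hx
  · have h := twoPoint_low_nonneg p (-x) hp hp2 (by linarith)
    rw [neg_sq, ← sub_eq_add_neg, sub_neg_eq_add] at h
    linarith

theorem twoPoint_low_hom (p a b : ℝ) (hp : 1 < p) (hp2 : p ≤ 2) :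
    (a ^ 2 + (p - 1) * b ^ 2) ^ (p / 2) ≤ (|a + b| ^ p + |a - b| ^ p) / 2 := by
  by_cases ha : a = 0
  · subst ha
    simp only [zero_add, zero_sub, abs_neg, ne_eq, OfNat.ofNat_ne_zero, not_false_eq_true,
      zero_pow]
    have e3 : |b| ^ p = (b ^ 2) ^ (p / 2) := by
      rw [← sq_abs b, ← Real.rpow_natCast |b| 2, ← Real.rpow_mul (abs_nonneg _)]
      congr 1
      push_cast
      ring
    rw [e3]
    have : ((p - 1) * b ^ 2) ^ (p / 2) ≤ (b ^ 2) ^ (p / 2) := by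
      apply Real.rpow_le_rpow
      · exact mul_nonneg (by linarith) (sq_nonneg _)
      · nlinarith [sq_nonneg b]
      · linarith
    linarith
  · have h := bonami_low p (b / a) hp hp2
    have e1 : |a + b| = |a| * |1 + b / a| := by
      rw [← abs_mul]; congr 1; field_simp
    have e2 : |a - b| = |a| * |1 - b / a| := by
      rw [← abs_mul]; congr 1; field_simp
    rw [e1, e2, Real.mul_rpow (abs_nonneg _) (abs_nonneg _),
      Real.mul_rpow (abs_nonneg _) (abs_nonneg _)]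
    have hap : 0 ≤ |a| ^ p := Real.rpow_nonneg (abs_nonneg _) _
    have h3 : |a| ^ p * (1 + (p - 1) * (b / a) ^ 2) ^ (p / 2) ≤
        (|a| ^ p * |1 + b / a| ^ p + |a| ^ p * |1 - b / a| ^ p) / 2 := by
      nlinarith [mul_le_mul_of_nonneg_left h hap]
    refine le_trans (le_of_eq ?_) h3
    have e3 : |a| ^ p = (a ^ 2) ^ (p / 2) := by
      rw [← sq_abs a, ← Real.rpow_natCast |a| 2, ← Real.rpow_mul (abs_nonneg _)]
      congr 1
      push_cast
      ring
    have h0 : 0 ≤ (p - 1) * (b / a) ^ 2 := mul_nonneg (by linarith) (sq_nonneg _)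
    rw [e3, ← Real.mul_rpow (by positivity) (by linarith)]
    congr 1
    field_simp

/-- the signed power -/
theorem twoPoint_sgnpow (q u : ℝ) (hq : 2 ≤ q) :
    ∃ v : ℝ, u * v = |u| ^ q ∧ |v| ^ (q / (q - 1)) = |u| ^ q := by
  refine ⟨u * |u| ^ (q - 2), ?_, ?_⟩
  · rcases eq_or_ne u 0 with hu | hu
    · subst hu
      rw [abs_zero, Real.zero_rpow (show q ≠ 0 by linarith), zero_mul]
    · have hu' : 0 < |u| := abs_pos.mpr hu
      calc u * (u * |u| ^ (q - 2)) = |u| ^ 2 * |u| ^ (q - 2) := by rw [sq_abs]; ring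
        _ = |u| ^ q := by
          rw [← Real.rpow_natCast |u| 2, ← Real.rpow_add hu']
          congr 1
          push_cast
          ring
  · rcases eq_or_ne u 0 with hu | hu
    · subst hu
      have h1 : 0 < q / (q - 1) := div_pos (by linarith) (by linarith)
      rw [zero_mul, abs_zero, Real.zero_rpow h1.ne', Real.zero_rpow (show q ≠ 0 by linarith)]
    · have hu' : 0 < |u| := abs_pos.mpr hu
      have e : |u * |u| ^ (q - 2)| = |u| ^ (q - 1) := by
        rw [abs_mul, abs_of_nonneg (Real.rpow_nonneg (abs_nonneg u) _)]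
        nth_rw 1 [← Real.rpow_one |u|]
        rw [← Real.rpow_add hu']
        congr 1
        ring
      rw [e, ← Real.rpow_mul (abs_nonneg _)]
      congr 1
      have : q - 1 ≠ 0 := by linarith
      field_simp

/-- real two-point inequality, exponents above 2 -/
theorem bonami_high (q y : ℝ) (hq : 2 ≤ q) :
    (|1 + y| ^ q + |1 - y| ^ q) / 2 ≤ (1 + (q - 1) * y ^ 2) ^ (q / 2) := by
  obtain ⟨v, hv1, hv2⟩ := twoPoint_sgnpow q (1 + y) hq
  obtain ⟨w, hw1, hw2⟩ := twoPoint_sgnpow q (1 - y) hq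
  have hq1 : 0 < q - 1 := by linarith
  set p : ℝ := q / (q - 1) with hp
  have hp1 : 1 < p := by rw [hp, lt_div_iff₀ hq1]; linarith
  have hp2 : p ≤ 2 := by rw [hp, div_le_iff₀ hq1]; linarith
  have hpm : p - 1 = 1 / (q - 1) := by rw [hp]; field_simp; ring
  have hlow := twoPoint_low_hom p ((v + w) / 2) ((v - w) / 2) hp1 hp2
  have e1 : (v + w) / 2 + (v - w) / 2 = v := by ring
  have e2 : (v + w) / 2 - (v - w) / 2 = w := by ring
  rw [e1, e2, hv2, hw2] at hlow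
  set S : ℝ := (|1 + y| ^ q + |1 - y| ^ q) / 2 with hS
  have hSpos : 0 < S := by
    have h1 : 0 ≤ |1 + y| ^ q := Real.rpow_nonneg (abs_nonneg _) _
    have h2 : 0 ≤ |1 - y| ^ q := Real.rpow_nonneg (abs_nonneg _) _
    rcases eq_or_ne (1 + y) 0 with h | h
    · have : 0 < |1 - y| ^ q := Real.rpow_pos_of_pos (abs_pos.mpr (by
        intro h'; linarith)) _
      rw [hS]; linarith
    · have : 0 < |1 + y| ^ q := Real.rpow_pos_of_pos (abs_pos.mpr h) _
      rw [hS]; linarith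
  set B : ℝ := ((v + w) / 2) ^ 2 + (p - 1) * ((v - w) / 2) ^ 2 with hB
  have hB0 : 0 ≤ B := by
    have : 0 ≤ (p - 1) * ((v - w) / 2) ^ 2 := mul_nonneg (by linarith) (sq_nonneg _)
    have := sq_nonneg ((v + w) / 2)
    rw [hB]; linarith
  set A : ℝ := 1 + (q - 1) * y ^ 2 with hA
  have hA0 : 0 < A := by
    have : 0 ≤ (q - 1) * y ^ 2 := mul_nonneg hq1.le (sq_nonneg _)
    rw [hA]; linarith
  have hSeq : S = (v + w) / 2 + y * ((v - w) / 2) := by
    rw [hS, ← hv1, ← hw1]; ring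
  have hCS : S ^ 2 ≤ A * B := by
    rw [hSeq, hA, hB, hpm]
    have : (1 + (q - 1) * y ^ 2) * (((v + w) / 2) ^ 2 + 1 / (q - 1) * ((v - w) / 2) ^ 2) -
        ((v + w) / 2 + y * ((v - w) / 2)) ^ 2 =
        (1 / (q - 1)) * ((q - 1) * y * ((v + w) / 2) - ((v - w) / 2)) ^ 2 := by
      field_simp
      ring
    have h2 : 0 ≤ (1 / (q - 1)) * ((q - 1) * y * ((v + w) / 2) - ((v - w) / 2)) ^ 2 :=
      mul_nonneg (by positivity) (sq_nonneg _)
    linarith
  have hBS : B ≤ S ^ (2 / p) := by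
    have hp0 : 0 < p := by linarith
    have h1 : (B ^ (p / 2)) ^ (2 / p) ≤ S ^ (2 / p) :=
      Real.rpow_le_rpow (Real.rpow_nonneg hB0 _) hlow (by positivity)
    rw [← Real.rpow_mul hB0] at h1
    have : p / 2 * (2 / p) = 1 := by field_simp
    rwa [this, Real.rpow_one] at h1
  have hSA : S ^ (2 - 2 / p) ≤ A := by
    rw [Real.rpow_sub hSpos, div_le_iff₀ (Real.rpow_pos_of_pos hSpos _)]
    calc S ^ (2:ℝ) = S ^ 2 := by exact_mod_cast Real.rpow_natCast S 2
      _ ≤ A * B := hCS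
      _ ≤ A * S ^ (2 / p) := mul_le_mul_of_nonneg_left hBS hA0.le
  have hexp : 2 - 2 / p = 2 / q := by
    rw [hp]; field_simp; ring
  rw [hexp] at hSA
  have h1 : (S ^ (2 / q)) ^ (q / 2) ≤ A ^ (q / 2) :=
    Real.rpow_le_rpow (Real.rpow_nonneg hSpos.le _) hSA (by linarith)
  rw [← Real.rpow_mul hSpos.le] at h1
  have : 2 / q * (q / 2) = 1 := by field_simp
  rwa [this, Real.rpow_one] at h1

/-- Minkowski for two terms -/
theorem twoPoint_mink (s a1 a2 b1 b2 : ℝ) (hs : 1 ≤ s) (ha1 : 0 ≤ a1) (ha2 : 0 ≤ a2)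
    (hb1 : 0 ≤ b1) (hb2 : 0 ≤ b2) :
    ((a1 + b1) ^ s + (a2 + b2) ^ s) ^ (1 / s) ≤
      (a1 ^ s + a2 ^ s) ^ (1 / s) + (b1 ^ s + b2 ^ s) ^ (1 / s) := by
  have h := Real.Lp_add_le_of_nonneg (s := (Finset.univ : Finset (Fin 2))) (f := ![a1, a2])
    (g := ![b1, b2]) hs (by
      intro i _
      fin_cases i
      · exact ha1
      · exact ha2) (by
      intro i _
      fin_cases i
      · exact hb1
      · exact hb2)
  simpa [Fin.sum_univ_two] using h

theorem twoPoint_mink_high (r U V c : ℝ) (hr : 1 ≤ r) (hU : 0 ≤ U) (hV : 0 ≤ V) (hc : 0 ≤ c) :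
    ((U + c) ^ r + (V + c) ^ r) / 2 ≤ (((U ^ r + V ^ r) / 2) ^ (1 / r) + c) ^ r := by
  have hr0 : 0 < r := by linarith
  have h := twoPoint_mink r U V c c hr hU hV hc hc
  have h2 : (((U + c) ^ r + (V + c) ^ r) / 2) ^ (1 / r) ≤
      ((U ^ r + V ^ r) / 2) ^ (1 / r) + c := by
    have hUr := Real.rpow_nonneg hU r
    have hVr := Real.rpow_nonneg hV r
    have hcr := Real.rpow_nonneg hc r
    have hUc := Real.rpow_nonneg (add_nonneg hU hc) r
    have hVc := Real.rpow_nonneg (add_nonneg hV hc) r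
    rw [Real.div_rpow (by linarith) (by norm_num), Real.div_rpow (by linarith) (by norm_num)]
    have h2pos : (0:ℝ) < 2 ^ (1 / r) := Real.rpow_pos_of_pos (by norm_num) _
    have hcc : (c ^ r + c ^ r) ^ (1 / r) = 2 ^ (1 / r) * c := by
      rw [← two_mul, Real.mul_rpow (by norm_num) hcr, ← Real.rpow_mul hc]
      rw [show r * (1 / r) = 1 by field_simp, Real.rpow_one]
    rw [hcc] at h
    rw [div_add' _ _ _ h2pos.ne', div_le_div_iff_of_pos_right h2pos]
    linarith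
  have hX : 0 ≤ ((U + c) ^ r + (V + c) ^ r) / 2 := by
    have := Real.rpow_nonneg (add_nonneg hU hc) r
    have := Real.rpow_nonneg (add_nonneg hV hc) r
    linarith
  have h3 := Real.rpow_le_rpow (Real.rpow_nonneg hX _) h2 hr0.le
  rwa [← Real.rpow_mul hX, show (1 / r) * r = 1 by field_simp, Real.rpow_one] at h3

theorem twoPoint_mink_low (r U V c : ℝ) (hr0 : 0 < r) (hr : r ≤ 1) (hU : 0 ≤ U) (hV : 0 ≤ V)
    (hc : 0 ≤ c) :
    (((U ^ r + V ^ r) / 2) ^ (1 / r) + c) ^ r ≤ ((U + c) ^ r + (V + c) ^ r) / 2 := by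
  have hUr := Real.rpow_nonneg hU r
  have hVr := Real.rpow_nonneg hV r
  have hcr := Real.rpow_nonneg hc r
  have hs : 1 ≤ 1 / r := by rw [le_div_iff₀ hr0]; linarith
  have h := twoPoint_mink (1 / r) (U ^ r) (c ^ r) (V ^ r) (c ^ r) hs hUr hcr hVr hcr
  have hrr : ∀ z : ℝ, 0 ≤ z → (z ^ r) ^ (1 / r) = z := by
    intro z hz
    rw [← Real.rpow_mul hz, show r * (1 / r) = 1 by field_simp, Real.rpow_one]
  rw [hrr U hU, hrr V hV, hrr c hc, show (1 / (1 / r)) = r by field_simp] at h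
  have e1 : (c ^ r + c ^ r) ^ (1 / r) = 2 ^ (1 / r) * c := by
    rw [← two_mul, Real.mul_rpow (by norm_num) hcr, hrr c hc]
  have e2 : (U ^ r + V ^ r) ^ (1 / r) = 2 ^ (1 / r) * ((U ^ r + V ^ r) / 2) ^ (1 / r) := by
    rw [← Real.mul_rpow (by norm_num) (by linarith)]
    congr 1
    ring
  rw [e1, e2, ← mul_add] at h
  have hY : 0 ≤ ((U ^ r + V ^ r) / 2) ^ (1 / r) + c :=
    add_nonneg (Real.rpow_nonneg (by linarith) _) hc
  rw [Real.mul_rpow (Real.rpow_nonneg (by norm_num) _) hY, ← Real.rpow_mul (by norm_num),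
    show (1 / r) * r = 1 by field_simp, Real.rpow_one] at h
  linarith

theorem twoPoint_normsq_rpow (z : ℂ) (q : ℝ) : ‖z‖ ^ q = (‖z‖ ^ 2) ^ (q / 2) := by
  rw [← Real.rpow_natCast ‖z‖ 2, ← Real.rpow_mul (norm_nonneg _)]
  congr 1
  push_cast
  ring

theorem twoPoint_abs_rpow (x q : ℝ) : |x| ^ q = (x ^ 2) ^ (q / 2) := by
  rw [← sq_abs x, ← Real.rpow_natCast |x| 2, ← Real.rpow_mul (abs_nonneg _)]
  congr 1
  push_cast
  ring

theorem twoPoint_om_normsq (p : ℝ) (hp : 1 ≤ p) : ‖om p‖ ^ 2 = p - 1 := by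
  rw [om, norm_mul, Complex.norm_I, one_mul, Complex.norm_real, Real.norm_eq_abs, sq_abs,
    Real.sq_sqrt (by linarith)]

theorem twoPoint_unit (p : ℝ) (hp : 1 < p) (hp2 : p ≤ 2) (z : ℂ) :
    (‖1 + om p * z‖ ^ (p / (p - 1)) + ‖1 - om p * z‖ ^ (p / (p - 1))) / 2 ≤
      ((‖1 + z‖ ^ p + ‖1 - z‖ ^ p) / 2) ^ (1 / (p - 1)) := by
  have hp1 : 0 < p - 1 := by linarith
  set q : ℝ := p / (p - 1) with hq
  have hq2 : 2 ≤ q := by rw [hq, le_div_iff₀ hp1]; linarith
  set ρ : ℝ := Real.sqrt (p - 1) with hρ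
  have hρ2 : ρ ^ 2 = p - 1 := Real.sq_sqrt hp1.le
  set x : ℝ := z.re with hx
  set y : ℝ := z.im with hy
  have hz : z = (x : ℂ) + (y : ℂ) * Complex.I := (Complex.re_add_im z).symm
  have n1 : ‖1 + om p * z‖ ^ 2 = (1 - ρ * y) ^ 2 + (p - 1) * x ^ 2 := by
    rw [← Complex.normSq_eq_norm_sq, Complex.normSq_apply, om, ← hρ, ← hρ2]
    simp
    rw [← hx, ← hy]
    ring
  have n2 : ‖1 - om p * z‖ ^ 2 = (1 + ρ * y) ^ 2 + (p - 1) * x ^ 2 := by
    rw [← Complex.normSq_eq_norm_sq, Complex.normSq_apply, om, ← hρ, ← hρ2]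
    simp
    rw [← hx, ← hy]
    ring
  have n3 : ‖1 + z‖ ^ 2 = (1 + x) ^ 2 + y ^ 2 := by
    rw [← Complex.normSq_eq_norm_sq, Complex.normSq_apply]
    simp
    rw [← hx, ← hy]
    ring
  have n4 : ‖1 - z‖ ^ 2 = (1 - x) ^ 2 + y ^ 2 := by
    rw [← Complex.normSq_eq_norm_sq, Complex.normSq_apply]
    simp
    rw [← hx, ← hy]
    ring
  rw [twoPoint_normsq_rpow (1 + om p * z), twoPoint_normsq_rpow (1 - om p * z),
    twoPoint_normsq_rpow (1 + z), twoPoint_normsq_rpow (1 - z), n1, n2, n3, n4]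
  have hc1 : 0 ≤ (p - 1) * x ^ 2 := mul_nonneg hp1.le (sq_nonneg _)
  have hc2 : 0 ≤ y ^ 2 := sq_nonneg _
  -- the upper side
  have hU := twoPoint_mink_high (q / 2) ((1 - ρ * y) ^ 2) ((1 + ρ * y) ^ 2) ((p - 1) * x ^ 2)
    (by linarith) (sq_nonneg _) (sq_nonneg _) hc1
  have hbh := bonami_high q (ρ * y) hq2
  rw [twoPoint_abs_rpow (1 + ρ * y), twoPoint_abs_rpow (1 - ρ * y)] at hbh
  have hqm : q - 1 = 1 / (p - 1) := by rw [hq]; field_simp; ring
  have e5 : 1 + (q - 1) * (ρ * y) ^ 2 = 1 + y ^ 2 := by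
    rw [mul_pow, hρ2, hqm]; field_simp
  rw [e5] at hbh
  have hq0 : 0 < q := by linarith
  have hM0 : 0 ≤ (((1 - ρ * y) ^ 2) ^ (q / 2) + ((1 + ρ * y) ^ 2) ^ (q / 2)) / 2 := by
    have h1 := Real.rpow_nonneg (sq_nonneg (1 - ρ * y)) (q / 2)
    have h2 := Real.rpow_nonneg (sq_nonneg (1 + ρ * y)) (q / 2)
    linarith
  have hM : ((((1 - ρ * y) ^ 2) ^ (q / 2) + ((1 + ρ * y) ^ 2) ^ (q / 2)) / 2) ^ (1 / (q / 2)) ≤
      1 + y ^ 2 := by
    have h1 : ((((1 - ρ * y) ^ 2) ^ (q / 2) + ((1 + ρ * y) ^ 2) ^ (q / 2)) / 2) ^ (1 / (q / 2)) ≤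
        ((1 + y ^ 2) ^ (q / 2)) ^ (1 / (q / 2)) := by
      apply Real.rpow_le_rpow hM0
      · rw [add_comm (((1 - ρ * y) ^ 2) ^ (q / 2))]; exact hbh
      · positivity
    rwa [← Real.rpow_mul (by positivity), show q / 2 * (1 / (q / 2)) = 1 by field_simp,
      Real.rpow_one] at h1
  have hK0 : 0 ≤ 1 + y ^ 2 + (p - 1) * x ^ 2 := by positivity
  have hUK : (((1 - ρ * y) ^ 2 + (p - 1) * x ^ 2) ^ (q / 2) +
      ((1 + ρ * y) ^ 2 + (p - 1) * x ^ 2) ^ (q / 2)) / 2 ≤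
      (1 + y ^ 2 + (p - 1) * x ^ 2) ^ (q / 2) := by
    refine le_trans hU ?_
    apply Real.rpow_le_rpow
    · exact add_nonneg (Real.rpow_nonneg hM0 _) hc1
    · linarith
    · linarith
  -- the lower side
  have hL := twoPoint_mink_low (p / 2) ((1 + x) ^ 2) ((1 - x) ^ 2) (y ^ 2)
    (by linarith) (by linarith) (sq_nonneg _) (sq_nonneg _) hc2
  have hbl := bonami_low p x hp hp2
  rw [twoPoint_abs_rpow (1 + x), twoPoint_abs_rpow (1 - x)] at hbl
  have hp0 : 0 < p := by linarith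
  have hN : 1 + (p - 1) * x ^ 2 ≤
      ((((1 + x) ^ 2) ^ (p / 2) + ((1 - x) ^ 2) ^ (p / 2)) / 2) ^ (1 / (p / 2)) := by
    have h0 : 0 ≤ 1 + (p - 1) * x ^ 2 := by linarith
    have h1 := Real.rpow_le_rpow (Real.rpow_nonneg h0 _) hbl
      (by positivity : 0 ≤ 1 / (p / 2))
    rwa [← Real.rpow_mul h0, show p / 2 * (1 / (p / 2)) = 1 by field_simp,
      Real.rpow_one] at h1
  have hLK : (1 + y ^ 2 + (p - 1) * x ^ 2) ^ (p / 2) ≤
      (((1 + x) ^ 2 + y ^ 2) ^ (p / 2) + ((1 - x) ^ 2 + y ^ 2) ^ (p / 2)) / 2 := by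
    refine le_trans ?_ hL
    apply Real.rpow_le_rpow hK0
    · linarith
    · linarith
  refine le_trans hUK ?_
  have h5 := Real.rpow_le_rpow (Real.rpow_nonneg hK0 _) hLK (by positivity : 0 ≤ 1 / (p - 1))
  rw [← Real.rpow_mul hK0, show p / 2 * (1 / (p - 1)) = q / 2 by rw [hq]; field_simp] at h5
  exact h5

/-- Beckner's complex two-point inequality -/
theorem two_point (p : ℝ) (hp : 1 < p) (hp2 : p ≤ 2) (a b : ℂ) :
    (‖a + om p * b‖ ^ (p / (p - 1)) + ‖a - om p * b‖ ^ (p / (p - 1))) / 2 ≤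
      ((‖a + b‖ ^ p + ‖a - b‖ ^ p) / 2) ^ (1 / (p - 1)) := by
  have hp1 : 0 < p - 1 := by linarith
  have hp0 : 0 < p := by linarith
  have hq0 : 0 < p / (p - 1) := by positivity
  by_cases ha : a = 0
  · subst ha
    simp only [zero_add, zero_sub, norm_neg]
    rw [norm_mul]
    have h1 : ‖om p‖ ≤ 1 := by
      have := twoPoint_om_normsq p hp.le
      nlinarith [norm_nonneg (om p)]
    have h2 : (‖om p‖ * ‖b‖) ^ (p / (p - 1)) ≤ ‖b‖ ^ (p / (p - 1)) := by
      apply Real.rpow_le_rpow (by positivity) _ hq0.le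
      nlinarith [norm_nonneg b]
    have e : ((‖b‖ ^ p + ‖b‖ ^ p) / 2) ^ (1 / (p - 1)) = ‖b‖ ^ (p / (p - 1)) := by
      rw [show (‖b‖ ^ p + ‖b‖ ^ p) / 2 = ‖b‖ ^ p by ring, ← Real.rpow_mul (norm_nonneg _)]
      congr 1
      ring
    rw [e]
    linarith
  · have h := twoPoint_unit p hp hp2 (b / a)
    have hna : 0 ≤ ‖a‖ := norm_nonneg _
    have f1 : ‖a + om p * b‖ = ‖a‖ * ‖1 + om p * (b / a)‖ := by
      rw [← norm_mul]; congr 1; field_simp
    have f2 : ‖a - om p * b‖ = ‖a‖ * ‖1 - om p * (b / a)‖ := by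
      rw [← norm_mul]; congr 1; field_simp
    have f3 : ‖a + b‖ = ‖a‖ * ‖1 + b / a‖ := by
      rw [← norm_mul]; congr 1; field_simp
    have f4 : ‖a - b‖ = ‖a‖ * ‖1 - b / a‖ := by
      rw [← norm_mul]; congr 1; field_simp
    rw [f1, f2, f3, f4, Real.mul_rpow hna (norm_nonneg _), Real.mul_rpow hna (norm_nonneg _),
      Real.mul_rpow hna (norm_nonneg _), Real.mul_rpow hna (norm_nonneg _)]
    have g1 : (‖a‖ ^ p * ‖1 + b / a‖ ^ p + ‖a‖ ^ p * ‖1 - b / a‖ ^ p) / 2 =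
        ‖a‖ ^ p * ((‖1 + b / a‖ ^ p + ‖1 - b / a‖ ^ p) / 2) := by ring
    have g2 : 0 ≤ (‖1 + b / a‖ ^ p + ‖1 - b / a‖ ^ p) / 2 := by
      have h1 := Real.rpow_nonneg (norm_nonneg (1 + b / a)) p
      have h2 := Real.rpow_nonneg (norm_nonneg (1 - b / a)) p
      linarith
    rw [g1, Real.mul_rpow (Real.rpow_nonneg hna _) g2, ← Real.rpow_mul hna,
      show p * (1 / (p - 1)) = p / (p - 1) by ring]
    have g3 : 0 ≤ ‖a‖ ^ (p / (p - 1)) := Real.rpow_nonneg hna _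
    have := mul_le_mul_of_nonneg_left h g3
    linarith

end Pool.Agent.Lib.MP_7548d4_gt.F
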